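import Pool.Agent.Q207.GH.Plk3

/-!
# Project GH: sub-Hodge structures at good points
-/

set_option autoImplicit false

open Matrix Finset PowerSeries

namespace Q207.GH

open Q207.HG (cmx)
open Q207.HT (lieA qc)
open Pool.Agent.Y123.GN (Gs)
open Pool.Agent.Y120.R (pM)

variable {k : ℕ} {n ρ : Fin k → ℕ} {w : ℕ}

section
variable {h : ∀ i, Fin (ρ i) → ℚ⟦X⟧} {P : ∀ i, Fin (n i) → Fin (n i) → MvPolynomial (Option (Fin (ρ i))) ℂ}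
    {CW ΦW : Matrix (Fin w) (Fin w) ℂ} {levW : Fin w → ℤ} {W : ℤ → Submodule ℂ (Fin w → ℂ)} (hW : DirectSum.IsInternal W)
    (hWc : ∀ p, ∀ v ∈ W p, (fun a => (starRingEnd ℂ) (v a)) ∈ W (-p)) (hCW : IsUnit CW.det) (hmem : ∀ a, CW a ∈ W (levW a))
    (hΦW : ∀ p, ∀ v ∈ W p, v ᵥ* ΦW = (p : ℂ) • v) {t : Fin k → ℕ} (hG : Gd h P (fromBlocks 1 0 0 CW) t) {lev : Ig n → ℤ}
    {H : ℤ → Submodule ℂ (Ig n → ℂ)} (hH : DirectSum.IsInternal H)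
    (hHc : ∀ p, ∀ v ∈ H p, (fun a => (starRingEnd ℂ) (v a)) ∈ H (-p))
    (hfil : ∀ p, (⨆ q : {q : ℤ // p ≤ q}, H q) =
      Submodule.span ℂ {v | ∃ a, p ≤ lev a ∧ v = (blockDiagonal' fun i => pM (h i) (P i) (t i : ℝ))ᵀ a})
    {Φ : Matrix (Ig n ⊕ Fin w) (Ig n ⊕ Fin w) ℂ} (hΦ : ∀ p, ∀ v ∈ op H W p, v ᵥ* Φ = (p : ℂ) • v)
include hW hWc hCW hmem hΦW hG hH hHc hfil hΦ

theorem core_move {q : ℕ} {U : Submodule ℚ ((Fin q → Ig n ⊕ Fin w) → ℚ)} (hU : Sb Φ U)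
    {γ : ∀ i, Matrix (Fin (n i)) (Fin (n i)) ℚ} (hγ : InG h P γ) : Sb Φ (mvd (hat w γ) U) :=
  sub_move (op_int hH hW) (op_conj hHc hWc) hΦ (hat_det hγ.det)
    (fun _ _ hu => move cnj hW hWc hCW hmem hΦW hG hH hHc hfil hΦ hu hγ) hU

theorem core_fin {q : ℕ} {U : Submodule ℚ ((Fin q → Ig n ⊕ Fin w) → ℚ)} (hU : Sb Φ U) {S : Matrix (Ig n) (Ig n) ℂ} (hS : Pol H S) :
    {U' | ∃ γ : ∀ i, Matrix (Fin (n i)) (Fin (n i)) ℤ, InG h P (fun i => (γ i).map (Int.cast : ℤ → ℚ)) ∧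
      (blockDiagonal' fun i => (γ i).map (Int.cast : ℤ → ℂ))ᵀ * S * (blockDiagonal' fun i => (γ i).map (Int.cast : ℤ → ℂ)) = S ∧
      U' = mvd (hat w fun i => (γ i).map (Int.cast : ℤ → ℚ)) U}.Finite := by
  have h1 := sub_fin (op_int hH hW) (op_conj hHc hWc) hΦ
    (Γ := {g | ∃ γ : ∀ i, Matrix (Fin (n i)) (Fin (n i)) ℤ, InG h P (fun i => (γ i).map (Int.cast : ℤ → ℚ)) ∧
      (blockDiagonal' fun i => (γ i).map (Int.cast : ℤ → ℂ))ᵀ * S * (blockDiagonal' fun i => (γ i).map (Int.cast : ℤ → ℂ)) = S ∧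
      g = hat w fun i => (γ i).map (Int.cast : ℤ → ℚ)}) (by
    rintro _ ⟨γ, hγ, -, rfl⟩
    exact hat_det hγ.det) (by
    intro q' u hu
    refine (orbit orb hW hH hS hΦ (u := u) fun γ hγ =>
      move cnj hW hWc hCW hmem hΦW hG hH hHc hfil hΦ hu hγ).subset ?_
    rintro _ ⟨_, ⟨γ, hγ, hS2, rfl⟩, rfl⟩
    exact ⟨γ, hγ, hS2, rfl⟩) hU
  refine h1.subset ?_
  rintro _ ⟨γ, hγ, hS2, rfl⟩
  exact ⟨_, ⟨γ, hγ, hS2, rfl⟩, rfl⟩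

theorem core_full {Q : ∀ i, Matrix (Fin (n i)) (Fin (n i)) ℤ} (hQ : ∀ i, Cl (Q i))
    (hsym : ∀ γ : ∀ i, Matrix (Fin (n i)) (Fin (n i)) ℚ, Iso1 Q γ → InG h P γ) {c : Fin k → ℂ}
    (hpol : Pol H (blockDiagonal' fun i => c i • ic (Q i))) {q : ℕ} {u : (Fin q → Ig n ⊕ Fin w) → ℚ}
    (hu : lieA Φᵀ (qc u) = 0) {X : Matrix (Ig n) (Ig n) ℂ} (hX : X ∈ Hs fun i => ic (Q i)) :
    lieA (fromBlocks X 0 0 (0 : Matrix (Fin w) (Fin w) ℂ)) (qc u) = 0 := by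
  obtain ⟨K, hK⟩ := bounded (Q := Q) hW hH hpol hΦ (u := u) fun γ hγ =>
    move cnj hW hWc hCW hmem hΦW hG hH hHc hfil hΦ hu (hsym γ hγ)
  exact kill_cl hQ hK X hX

theorem core_fullC {Q : ∀ i, Matrix (Fin (n i)) (Fin (n i)) ℤ} (hQ : ∀ i, Cl (Q i))
    (hsym : ∀ γ : ∀ i, Matrix (Fin (n i)) (Fin (n i)) ℚ, Iso1 Q γ → InG h P γ) {c : Fin k → ℂ}
    (hpol : Pol H (blockDiagonal' fun i => c i • ic (Q i))) {q : ℕ} {U : Submodule ℚ ((Fin q → Ig n ⊕ Fin w) → ℚ)}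
    (hU : Sb Φ U) {X : Matrix (Ig n) (Ig n) ℂ} (hX : X ∈ Hs fun i => ic (Q i)) :
    Sb (fromBlocks X 0 0 (0 : Matrix (Fin w) (Fin w) ℂ))ᵀ U :=
  sub_stabC (op_int hH hW) (op_conj hHc hWc) hΦ (fun _ _ hu =>
    core_full hW hWc hCW hmem hΦW hG hH hHc hfil hΦ hQ hsym hpol hu hX) hU

theorem core_fullQ {Q : ∀ i, Matrix (Fin (n i)) (Fin (n i)) ℤ} (hQ : ∀ i, Cl (Q i))
    (hsym : ∀ γ : ∀ i, Matrix (Fin (n i)) (Fin (n i)) ℚ, Iso1 Q γ → InG h P γ) {c : Fin k → ℂ}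
    (hpol : Pol H (blockDiagonal' fun i => c i • ic (Q i))) {q : ℕ} {U : Submodule ℚ ((Fin q → Ig n ⊕ Fin w) → ℚ)}
    (hU : Sb Φ U) {X : ∀ i, Matrix (Fin (n i)) (Fin (n i)) ℚ}
    (hX : ∀ i, (X i)ᵀ * (Q i).map (fun x : ℤ => (x : ℚ)) + (Q i).map (fun x : ℤ => (x : ℚ)) * X i = 0)
    {u : (Fin q → Ig n ⊕ Fin w) → ℚ} (hu : u ∈ U) : der (em w X) u ∈ U := by
  refine sub_stab (op_int hH hW) (op_conj hHc hWc) hΦ (N := em w X) (fun _ u hu => ?_) hU hu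
  have h1 : cmx (em w X : Matrix (Ig n ⊕ Fin w) (Ig n ⊕ Fin w) ℚ) =
      fromBlocks (blockDiagonal' fun i => cmx (X i)) 0 0 (0 : Matrix (Fin w) (Fin w) ℂ) := by
    unfold em
    show (fromBlocks _ _ _ _).map (algebraMap ℚ ℂ) = _
    rw [fromBlocks_map, blockDiagonal'_map _ _ (map_zero _), Matrix.map_zero _ (map_zero _), Matrix.map_zero _ (map_zero _),
      Matrix.map_zero _ (map_zero _)]
  rw [h1]
  refine core_full hW hWc hCW hmem hΦW hG hH hHc hfil hΦ hQ hsym hpol hu ⟨fun i => cmx (X i), fun i => ?_, rfl⟩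
  refine mem_hB_of (ic_det (hQ i).2.1) ?_
  have h2 : ∀ A B : Matrix (Fin (n i)) (Fin (n i)) ℚ, cmx (A * B) = cmx A * cmx B := fun A B => Matrix.map_mul
  have h3 : ∀ A B : Matrix (Fin (n i)) (Fin (n i)) ℚ, cmx (A + B) = cmx A + cmx B := fun A B =>
    Matrix.map_add _ (map_add (algebraMap ℚ ℂ)) A B
  have h4 := congrArg (fun M : Matrix (Fin (n i)) (Fin (n i)) ℚ => cmx M) (hX i)
  simp only [h2, h3] at h4
  have h5 : cmx ((Q i).map fun x : ℤ => (x : ℚ)) = ic (Q i) := ic_ir (Q i)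
  rw [h5] at h4
  exact h4.trans (Matrix.map_zero _ (map_zero _))

end

end Q207.GH
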