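import Pool.Agent.Q207.GH.Orb0

/-!
# Project GH: finiteness of the orbits of Hodge classes, the end
-/

set_option autoImplicit false

open Matrix Finset
open scoped MatrixOrder ComplexOrder

namespace Q207.GH

open Q207.HT (lieA qc)
open Q207.DB (actM)

theorem orb : S_Orb := by
  classical
  intro I _ _ H S Φ hH hΦ hS q u Γ hΓ hΓu
  obtain ⟨Z, lev, hZ, hmem⟩ := Pool.Agent.Q195.HT.adaptedI hH
  have hM := gram hS hZ hmem
  set N := Z * S * Zᴴ with hN
  set D := Matrix.diagonal (fun a => Complex.I ^ (lev a)) with hD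
  obtain ⟨B, hB⟩ := CStarAlgebra.nonneg_iff_eq_star_mul_self.mp hM.posSemidef.nonneg
  rw [Matrix.star_eq_conjTranspose] at hB
  have hBd : IsUnit B.det := by
    have h1 : IsUnit (D * N).det := (Matrix.isUnit_iff_isUnit_det _).1 hM.isUnit
    rw [hB, Matrix.det_mul] at h1
    exact isUnit_of_mul_isUnit_right h1
  have hZ1 : Z * Z⁻¹ = 1 := Matrix.mul_nonsing_inv _ hZ
  have hZ2 : Z⁻¹ * Z = 1 := Matrix.nonsing_inv_mul _ hZ
  have hBH : Bᴴ * (Bᴴ)⁻¹ = 1 := Matrix.mul_nonsing_inv _ (by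
    rw [Matrix.det_conjTranspose]
    exact hBd.star)
  -- the form
  set F : ((Fin q → I) → ℂ) → ℂ := fun x => x ⬝ᵥ (kp q S *ᵥ star x) with hF
  -- the value of the form on Hodge classes
  have hcoord : ∀ x : (Fin q → I) → ℂ, lieA Φᵀ x = 0 → ∀ w, ∑ l, (lev (w l) : ℂ) ≠ 0 → (x ᵥ* kp q Z⁻¹) w = 0 := by
    intro x hx w hw
    have h1 : x ᵥ* kp q Z⁻¹ = actM (fun _ => (Z⁻¹)ᵀ) x := by
      funext w
      rw [Q207.DB.actM_apply]
      refine sum_congr rfl fun y _ => ?_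
      rw [mul_comm]
      rfl
    have h2 : lieA (Matrix.diagonal fun a => ((lev a : ℤ) : ℂ)) (actM (fun _ => (Z⁻¹)ᵀ) x) = actM (fun _ => (Z⁻¹)ᵀ) (lieA Φᵀ x) := by
      refine Pool.Agent.Q195.HT.lieA_actM ?_ x
      intro _
      have h3 : Z * Φ = Matrix.diagonal (fun a => ((lev a : ℤ) : ℂ)) * Z := by
        ext a b
        rw [Matrix.diagonal_mul]
        exact congrFun (hΦ _ _ (hmem a)) b
      have h4 : Φ * Z⁻¹ = Z⁻¹ * Matrix.diagonal (fun a => ((lev a : ℤ) : ℂ)) := by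
        calc Φ * Z⁻¹ = Z⁻¹ * (Z * Φ) * Z⁻¹ := by rw [← Matrix.mul_assoc, hZ2, Matrix.one_mul]
          _ = Z⁻¹ * Matrix.diagonal (fun a => ((lev a : ℤ) : ℂ)) * (Z * Z⁻¹) := by rw [h3]; simp only [Matrix.mul_assoc]
          _ = _ := by rw [hZ1, Matrix.mul_one]
      have h5 := congrArg Matrix.transpose h4
      rw [Matrix.transpose_mul, Matrix.transpose_mul, Matrix.diagonal_transpose] at h5
      exact h5.symm
    rw [hx, map_zero, ← h1] at h2
    have h3 := congrFun h2 w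
    rw [Pool.Agent.Q195.HT.lieA_diagonal] at h3
    exact (mul_eq_zero.1 h3).resolve_left hw
  have hval : ∀ x : (Fin q → I) → ℂ, lieA Φᵀ x = 0 →
      F x = ((x ᵥ* kp q Z⁻¹) ᵥ* kp q Bᴴ) ⬝ᵥ star ((x ᵥ* kp q Z⁻¹) ᵥ* kp q Bᴴ) := by
    intro x hx
    set U := x ᵥ* kp q Z⁻¹ with hU
    have hxU : x = U ᵥ* kp q Z := by
      rw [hU, Matrix.vecMul_vecMul, ← kp_mul, hZ2, kp_one, Matrix.vecMul_one]
    have h1 : F x = U ⬝ᵥ (kp q N *ᵥ star U) := by
      rw [hF]
      show x ⬝ᵥ (kp q S *ᵥ star x) = _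
      rw [hxU, form_coord, ← kp_conjT, ← kp_mul, ← kp_mul]
    have h2 : U ⬝ᵥ (kp q N *ᵥ star U) = U ⬝ᵥ (kp q (D * N) *ᵥ star U) := by
      have h5 : kp q (D * N) = kp q D * kp q N := kp_mul D N
      rw [h5, hD, kp_diag, ← Matrix.mulVec_mulVec]
      refine sum_congr rfl fun w _ => ?_
      rw [Matrix.mulVec_diagonal]
      by_cases hw : ∑ l, (lev (w l) : ℂ) = 0
      · have h3 : ∑ l, lev (w l) = 0 := by exact_mod_cast hw
        have h4 : ∏ l, Complex.I ^ lev (w l) = 1 := by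
          have h5 : ∀ s : Finset (Fin q), ∏ l ∈ s, Complex.I ^ lev (w l) = Complex.I ^ (∑ l ∈ s, lev (w l)) := by
            intro s
            induction s using Finset.induction_on with
            | empty => simp
            | insert a s ha ih => rw [prod_insert ha, sum_insert ha, zpow_add₀ Complex.I_ne_zero, ih]
          rw [h5, h3, zpow_zero]
        rw [h4, one_mul]
      · have h6 : U w = 0 := hcoord x hx w hw
        rw [h6, zero_mul, zero_mul]
    have e1 : star (U ᵥ* kp q Bᴴ) = kp q B *ᵥ star U := by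
      rw [Matrix.star_vecMul, ← kp_conjT, Matrix.conjTranspose_conjTranspose]
    have e2 : kp q (Bᴴ * B) = kp q Bᴴ * kp q B := kp_mul _ _
    rw [h1, h2, hB, e1, e2, ← Matrix.mulVec_mulVec, Matrix.dotProduct_mulVec]
  -- the form is constant on the orbit
  set g : Matrix I I ℤ → Matrix I I ℂ := fun γ => γ.map (Int.cast : ℤ → ℂ) with hg
  have hqc : ∀ γ : Matrix I I ℤ, qc (trl (γ.map (Int.cast : ℤ → ℚ)) u) = kp q (g γ) *ᵥ qc u := by
    intro γ
    rw [← trl_kp]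
    funext p
    show ((trl (γ.map (Int.cast : ℤ → ℚ)) u p : ℚ) : ℂ) = trl (g γ) (qc u) p
    unfold trl
    rw [Rat.cast_sum]
    refine sum_congr rfl fun y _ => ?_
    rw [Rat.cast_mul, Rat.cast_prod]
    congr 1
  have hconst : ∀ γ ∈ Γ, F (qc (trl (γ.map (Int.cast : ℤ → ℚ)) u)) = F (qc u) := by
    intro γ hγ
    have h1 := hΓ γ hγ
    rw [hqc, hF]
    show (kp q (g γ) *ᵥ qc u) ⬝ᵥ (kp q S *ᵥ star (kp q (g γ) *ᵥ qc u)) = qc u ⬝ᵥ (kp q S *ᵥ star (qc u))
    have hstar : star (kp q (g γ) *ᵥ qc u) = kp q (g γ) *ᵥ star (qc u) := by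
      rw [Matrix.star_mulVec, ← kp_conjT]
      have h2 : (g γ)ᴴ = (g γ)ᵀ := by
        ext a b
        rw [Matrix.conjTranspose_apply, Matrix.transpose_apply]
        exact map_intCast (starRingEnd ℂ) _
      rw [h2, kp_T, Matrix.vecMul_transpose]
    rw [hstar, Matrix.mulVec_mulVec, Matrix.dotProduct_mulVec, ← Matrix.vecMul_transpose, Matrix.vecMul_vecMul,
      ← Matrix.dotProduct_mulVec, ← kp_T, ← Matrix.mul_assoc, ← kp_mul, ← kp_mul]
    have h3 : (g γ)ᵀ * S * g γ = S := h1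
    rw [h3]
  -- the bound
  set R := (kp q (Bᴴ)⁻¹) * kp q Z with hR
  have hback : ∀ x : (Fin q → I) → ℂ, ((x ᵥ* kp q Z⁻¹) ᵥ* kp q Bᴴ) ᵥ* R = x := by
    intro x
    rw [hR, Matrix.vecMul_vecMul, ← Matrix.mul_assoc, ← kp_mul, hBH, kp_one, Matrix.one_mul, Matrix.vecMul_vecMul, ← kp_mul,
      hZ2, kp_one, Matrix.vecMul_one]
  set β : ℝ := (F (qc u)).re with hβ
  set K : ℝ := ∑ p : Fin q → I, ∑ w : Fin q → I, Real.sqrt β * ‖R w p‖ with hK
  have hbound : ∀ γ ∈ Γ, ∀ p, ‖qc (trl (γ.map (Int.cast : ℤ → ℚ)) u) p‖ ≤ K := by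
    intro γ hγ p
    set x := qc (trl (γ.map (Int.cast : ℤ → ℚ)) u) with hx
    set Y := (x ᵥ* kp q Z⁻¹) ᵥ* kp q Bᴴ with hY
    have h1 : Y ⬝ᵥ star Y = F (qc u) := by
      rw [← hconst γ hγ, ← hval x (hΓu γ hγ)]
    have h2 : ∑ w, Complex.normSq (Y w) = β := by
      rw [hβ, ← h1]
      simp only [dotProduct, Complex.re_sum]
      refine sum_congr rfl fun w _ => ?_
      have h3 : Y w * star Y w = (Complex.normSq (Y w) : ℂ) := Complex.mul_conj _
      rw [h3, Complex.ofReal_re]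
    have h3 : ∀ w, ‖Y w‖ ≤ Real.sqrt β := by
      intro w
      refine Real.le_sqrt_of_sq_le ?_
      rw [← Complex.normSq_eq_norm_sq, ← h2]
      exact single_le_sum (f := fun w => Complex.normSq (Y w)) (fun _ _ => Complex.normSq_nonneg _) (mem_univ w)
    have h4 : x p = ∑ w, Y w * R w p := (congrFun (hback x) p).symm
    rw [h4]
    refine (norm_sum_le _ _).trans ?_
    refine le_trans ?_ (single_le_sum (f := fun p => ∑ w : Fin q → I, Real.sqrt β * ‖R w p‖) (fun p _ =>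
      sum_nonneg fun w _ => mul_nonneg (Real.sqrt_nonneg _) (norm_nonneg _)) (mem_univ p))
    refine sum_le_sum fun w _ => ?_
    rw [norm_mul]
    exact mul_le_mul_of_nonneg_right (h3 w) (norm_nonneg _)
  -- denominators
  obtain ⟨d, hd, hdu⟩ : ∃ d : ℕ, 0 < d ∧ ∀ p, ∃ m : ℤ, (d : ℚ) * u p = m := by
    refine ⟨∏ p, (u p).den, prod_pos fun p _ => (u p).pos, fun p => ?_⟩
    refine ⟨(∏ p' ∈ univ.erase p, ((u p').den : ℤ)) * (u p).num, ?_⟩
    rw [← mul_prod_erase univ _ (mem_univ p)]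
    push_cast
    have h1 : ((u p).den : ℚ) * u p = (u p).num := Rat.den_mul_eq_num (u p)
    linear_combination (∏ p' ∈ univ.erase p, ((u p').den : ℚ)) * h1
  have hint : ∀ γ : Matrix I I ℤ, ∀ p, ∃ m : ℤ, (d : ℚ) * trl (γ.map (Int.cast : ℤ → ℚ)) u p = m := by
    intro γ p
    choose m hm using hdu
    refine ⟨∑ y : Fin q → I, (∏ l, γ (p l) (y l)) * m y, ?_⟩
    unfold trl
    rw [mul_sum]
    push_cast
    refine sum_congr rfl fun y _ => ?_
    rw [← hm y]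
    show (d : ℚ) * ((∏ l, ((γ (p l) (y l) : ℤ) : ℚ)) * u y) = _
    ring
  set n : ℤ := ⌈(d : ℝ) * K⌉ with hn
  set Fs : Finset ((Fin q → I) → ℚ) := (Fintype.piFinset fun _ : Fin q → I => Finset.Icc (-n) n).image
      fun (m : (Fin q → I) → ℤ) (p : Fin q → I) => (m p : ℚ) / d with hFs
  refine (Finset.finite_toSet Fs).subset ?_
  rintro _ ⟨γ, hγ, rfl⟩
  choose m hm using hint γ
  rw [Finset.mem_coe, hFs, Finset.mem_image]
  refine ⟨m, ?_, ?_⟩
  · rw [Fintype.mem_piFinset]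
    intro p
    have h1 := hbound γ hγ p
    have h2 : ‖((trl (γ.map (Int.cast : ℤ → ℚ)) u p : ℚ) : ℂ)‖ = |((trl (γ.map (Int.cast : ℤ → ℚ)) u p : ℚ) : ℝ)| := by
      rw [← Complex.ofReal_ratCast, Complex.norm_real, Real.norm_eq_abs]
    have h3 : |((trl (γ.map (Int.cast : ℤ → ℚ)) u p : ℚ) : ℝ)| ≤ K := by
      rw [← h2]
      exact h1
    have h4 : ((m p : ℤ) : ℝ) = d * ((trl (γ.map (Int.cast : ℤ → ℚ)) u p : ℚ) : ℝ) := by
      have h5 := hm p
      exact_mod_cast h5.symm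
    have h5 : |((m p : ℤ) : ℝ)| ≤ n := by
      rw [h4, abs_mul, Nat.abs_cast]
      exact (mul_le_mul_of_nonneg_left h3 (Nat.cast_nonneg _)).trans (Int.le_ceil _)
    rw [Finset.mem_Icc]
    have h6 := abs_le.1 h5
    constructor
    · exact_mod_cast h6.1
    · exact_mod_cast h6.2
  · funext p
    rw [← hm p]
    field_simp

end Q207.GH
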