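import Pool.Agent.Q207.GH.Tot

/-!
# Project GH: conjugation; forms
-/

set_option autoImplicit false

open Matrix Finset

namespace Q207.GH

open Q207.HT (lieA)
open Q207.DB (actM)

theorem cnj : S_Cnj := by
  intro I _ _ g Φ hg q u
  have h1 : ∀ u : (Fin q → I) → ℂ, trl g u = actM (fun _ => g) u := by
    intro u
    funext p
    rw [Q207.DB.actM_apply]
    rfl
  rw [h1, h1]
  refine Pool.Agent.Q195.HT.lieA_actM ?_ u
  intro _
  rw [← Matrix.mul_assoc, ← Matrix.mul_assoc, Matrix.mul_nonsing_inv _ hg, Matrix.one_mul]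

lemma coord {J : Type} [Fintype J] [DecidableEq J] {H' : ℤ → Submodule ℂ (J → ℂ)} {Φ' CW : Matrix J J ℂ} {lev' : J → ℤ}
    (hCW : IsUnit CW.det) (hmem : ∀ a, CW a ∈ H' (lev' a)) (hΦ' : ∀ p, ∀ v ∈ H' p, v ᵥ* Φ' = (p : ℂ) • v) {p : ℤ} {v : J → ℂ}
    (hv : v ∈ H' p) {a : J} (ha : lev' a ≠ p) : (v ᵥ* CW⁻¹) a = 0 := by
  set c : J → ℂ := v ᵥ* CW⁻¹ with hc
  have hvc : v = c ᵥ* CW := by
    rw [hc, Matrix.vecMul_vecMul, Matrix.nonsing_inv_mul _ hCW, Matrix.vecMul_one]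
  have hD : CW * Φ' = Matrix.diagonal (fun a => ((lev' a : ℤ) : ℂ)) * CW := by
    ext a b
    have h1 := congrFun (hΦ' _ _ (hmem a)) b
    rw [Matrix.diagonal_mul]
    exact h1
  have h1 : (p : ℂ) • c = c ᵥ* Matrix.diagonal (fun a => ((lev' a : ℤ) : ℂ)) := by
    have h2 : (c ᵥ* Matrix.diagonal (fun a => ((lev' a : ℤ) : ℂ))) ᵥ* CW = ((p : ℂ) • c) ᵥ* CW := by
      rw [Matrix.vecMul_vecMul, ← hD, ← Matrix.vecMul_vecMul, ← hvc, hΦ' p v hv, Matrix.smul_vecMul, ← hvc]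
    have h3 := congrArg (fun x => x ᵥ* CW⁻¹) h2
    simp only [Matrix.vecMul_vecMul, Matrix.mul_nonsing_inv _ hCW, Matrix.mul_assoc, Matrix.mul_one, Matrix.vecMul_one] at h3
    exact h3.symm
  by_contra hne
  apply ha
  have h5 := congrFun h1 a
  rw [Matrix.vecMul_diagonal, Pi.smul_apply, smul_eq_mul, mul_comm] at h5
  have h6 := mul_left_cancel₀ hne h5
  exact_mod_cast h6.symm

theorem form : S_Form := by
  intro I _ _ H hH
  obtain ⟨Z, lev, hZ, hmem⟩ := Pool.Agent.Q195.HT.adaptedI hH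
  obtain ⟨Φ, hΦ⟩ := ex_oper hH
  set S : Matrix I I ℂ := Z⁻¹ * Matrix.diagonal (fun a => Complex.I ^ (-lev a)) * (Z⁻¹)ᴴ with hS
  have hform : ∀ v w : I → ℂ, v ⬝ᵥ (S *ᵥ star w) = ∑ a, (v ᵥ* Z⁻¹) a * (Complex.I ^ (-lev a) * star ((w ᵥ* Z⁻¹) a)) := by
    intro v w
    rw [hS, ← Matrix.mulVec_mulVec, ← Matrix.star_vecMul, ← Matrix.mulVec_mulVec, Matrix.dotProduct_mulVec]
    refine Finset.sum_congr rfl fun a _ => ?_
    rw [Matrix.mulVec_diagonal]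
    rfl
  refine ⟨S, ⟨fun p q hpq v hv w hw => ?_, fun p v hv hv0 => ?_⟩⟩
  · rw [hform]
    refine Finset.sum_eq_zero fun a _ => ?_
    by_cases ha : lev a = p
    · rw [coord hZ hmem hΦ hw (a := a) (by rw [ha]; exact hpq), star_zero, mul_zero, mul_zero]
    · rw [coord hZ hmem hΦ hv ha, zero_mul]
  · refine ⟨∑ a, Complex.normSq ((v ᵥ* Z⁻¹) a), ?_, ?_⟩
    · have h1 : ∃ a, (v ᵥ* Z⁻¹) a ≠ 0 := by
        by_contra h2
        push Not at h2
        apply hv0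
        have h3 : v = (v ᵥ* Z⁻¹) ᵥ* Z := by
          rw [Matrix.vecMul_vecMul, Matrix.nonsing_inv_mul _ hZ, Matrix.vecMul_one]
        rw [h3, show v ᵥ* Z⁻¹ = 0 from funext h2, Matrix.zero_vecMul]
      obtain ⟨a, ha⟩ := h1
      exact Finset.sum_pos' (fun a _ => Complex.normSq_nonneg _) ⟨a, Finset.mem_univ a, Complex.normSq_pos.2 ha⟩
    · rw [hform, Finset.mul_sum, Complex.ofReal_sum]
      refine Finset.sum_congr rfl fun a _ => ?_
      by_cases ha : lev a = p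
      · rw [ha]
        have h2 : Complex.I ^ p * Complex.I ^ (-p) = 1 := by
          rw [← zpow_add₀ Complex.I_ne_zero, add_neg_cancel, zpow_zero]
        have h3 : ((v ᵥ* Z⁻¹) a) * star ((v ᵥ* Z⁻¹) a) = (Complex.normSq ((v ᵥ* Z⁻¹) a) : ℂ) := Complex.mul_conj _
        rw [← h3]
        linear_combination ((v ᵥ* Z⁻¹) a) * star ((v ᵥ* Z⁻¹) a) * h2
      · rw [coord hZ hmem hΦ hv ha, zero_mul, mul_zero, map_zero, Complex.ofReal_zero]

end Q207.GH
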