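import Pool.Agent.Q207.GH.Fin
import Pool.Agent.Q207.GH.Cnj

/-!
# Project GH: finiteness of the orbits
-/

set_option autoImplicit false

open Matrix Finset PowerSeries

namespace Q207.GH

open Q207.HG (cmx)
open Q207.HT (lieA qc)
open Pool.Agent.Y123.GN (Gs)
open Pool.Agent.Y120.R (pM)

section

variable {I J : Type} [Fintype I] [Fintype J]

lemma pol_op {H : ℤ → Submodule ℂ (I → ℂ)} {W : ℤ → Submodule ℂ (J → ℂ)} {S : Matrix I I ℂ} {S' : Matrix J J ℂ}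
    (h : Pol H S) (h' : Pol W S') : Pol (op H W) (fromBlocks S 0 0 S') := by
  have key : ∀ v w : I ⊕ J → ℂ, v ⬝ᵥ ((fromBlocks S 0 0 S') *ᵥ star w) =
      (fun a => v (Sum.inl a)) ⬝ᵥ (S *ᵥ star fun a => w (Sum.inl a)) +
      (fun a => v (Sum.inr a)) ⬝ᵥ (S' *ᵥ star fun a => w (Sum.inr a)) := by
    intro v w
    simp only [dotProduct, Matrix.mulVec, Fintype.sum_sum_type, fromBlocks_apply₁₁, fromBlocks_apply₁₂, fromBlocks_apply₂₁,
      fromBlocks_apply₂₂, Matrix.zero_apply, zero_mul, Finset.sum_const_zero, add_zero, zero_add]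
    rfl
  have hp : ∀ {I : Type} [Fintype I] {H : ℤ → Submodule ℂ (I → ℂ)} {S : Matrix I I ℂ}, Pol H S → ∀ p, ∀ v ∈ H p,
      ∃ x : ℝ, 0 ≤ x ∧ (v ≠ 0 → 0 < x) ∧ Complex.I ^ p * (v ⬝ᵥ (S *ᵥ star v)) = x := by
    intro I _ H S h p v hv
    by_cases h0 : v = 0
    · refine ⟨0, le_rfl, fun h1 => absurd h0 h1, ?_⟩
      rw [h0, zero_dotProduct, mul_zero, Complex.ofReal_zero]
    · obtain ⟨x, hx, hx2⟩ := h.pos p v hv h0
      exact ⟨x, hx.le, fun _ => hx, hx2⟩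
  refine ⟨?_, ?_⟩
  · rintro p q hpq v ⟨hv1, hv2⟩ w ⟨hw1, hw2⟩
    rw [key]
    have e1 := h.orth p q hpq _ hv1 _ hw1
    have e2 := h'.orth p q hpq _ hv2 _ hw2
    have e3 : (fun a => v (Sum.inl a)) ⬝ᵥ (S *ᵥ star fun a => w (Sum.inl a)) = 0 := e1
    have e4 : (fun a => v (Sum.inr a)) ⬝ᵥ (S' *ᵥ star fun a => w (Sum.inr a)) = 0 := e2
    rw [e3, e4, add_zero]
  · rintro p v ⟨hv1, hv2⟩ hv
    obtain ⟨x, hx, hx1, hx2⟩ := hp h p _ hv1
    obtain ⟨y, hy, hy1, hy2⟩ := hp h' p _ hv2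
    refine ⟨x + y, ?_, ?_⟩
    · by_cases h0 : (fun a => v (Sum.inl a)) = 0
      · have h1 : (fun a => v (Sum.inr a)) ≠ 0 := by
          intro h1
          apply hv
          funext a
          rcases a with a | a
          · exact congrFun h0 a
          · exact congrFun h1 a
        have := hy1 h1
        linarith
      · have := hx1 h0
        linarith
    · rw [key, mul_add, Complex.ofReal_add]
      have e3 : Complex.I ^ p * ((fun a => v (Sum.inl a)) ⬝ᵥ (S *ᵥ star fun a => v (Sum.inl a))) = x := hx2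
      have e4 : Complex.I ^ p * ((fun a => v (Sum.inr a)) ⬝ᵥ (S' *ᵥ star fun a => v (Sum.inr a))) = y := hy2
      rw [e3, e4]

end

variable {k : ℕ} {n ρ : Fin k → ℕ} {w : ℕ}

/-- **Finiteness of the orbits.** -/
theorem orbit (hOrb : S_Orb) {h : ∀ i, Fin (ρ i) → ℚ⟦X⟧}
    {P : ∀ i, Fin (n i) → Fin (n i) → MvPolynomial (Option (Fin (ρ i))) ℂ}
    {W : ℤ → Submodule ℂ (Fin w → ℂ)} (hW : DirectSum.IsInternal W) {H : ℤ → Submodule ℂ (Ig n → ℂ)}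
    (hH : DirectSum.IsInternal H) {S : Matrix (Ig n) (Ig n) ℂ} (hS : Pol H S)
    {Φ : Matrix (Ig n ⊕ Fin w) (Ig n ⊕ Fin w) ℂ} (hΦ : ∀ p, ∀ v ∈ op H W p, v ᵥ* Φ = (p : ℂ) • v)
    {q : ℕ} {u : (Fin q → Ig n ⊕ Fin w) → ℚ}
    (hu : ∀ γ : ∀ i, Matrix (Fin (n i)) (Fin (n i)) ℚ, InG h P γ → lieA Φᵀ (qc (trl (hat w γ) u)) = 0) :
    {x | ∃ γ : ∀ i, Matrix (Fin (n i)) (Fin (n i)) ℤ, InG h P (fun i => (γ i).map (Int.cast : ℤ → ℚ)) ∧
      (blockDiagonal' fun i => (γ i).map (Int.cast : ℤ → ℂ))ᵀ * S * (blockDiagonal' fun i => (γ i).map (Int.cast : ℤ → ℂ)) = S ∧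
      x = trl (hat w fun i => (γ i).map (Int.cast : ℤ → ℚ)) u}.Finite := by
  obtain ⟨S', hS'⟩ := form (Fin w) W hW
  have hmap : ∀ {R : Type} [CommRing R] (f : ℤ →+* R) (γ : ∀ i, Matrix (Fin (n i)) (Fin (n i)) ℤ),
      (hat w γ).map f = hat w fun i => (γ i).map f := by
    intro R _ f γ
    unfold hat
    rw [fromBlocks_map, blockDiagonal'_map _ _ (map_zero _), Matrix.map_zero _ (map_zero _), Matrix.map_zero _ (map_zero _),
      Matrix.map_one _ (map_zero _) (map_one _)]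
  have h1 := hOrb (Ig n ⊕ Fin w) (op H W) (fromBlocks S 0 0 S') Φ (op_int hH hW) hΦ (pol_op hS hS') q u
    {g | ∃ γ : ∀ i, Matrix (Fin (n i)) (Fin (n i)) ℤ, InG h P (fun i => (γ i).map (Int.cast : ℤ → ℚ)) ∧
      (blockDiagonal' fun i => (γ i).map (Int.cast : ℤ → ℂ))ᵀ * S * (blockDiagonal' fun i => (γ i).map (Int.cast : ℤ → ℂ)) = S ∧
      g = hat w γ} (by
    rintro _ ⟨γ, -, hγ, rfl⟩
    have e1 : (hat w γ).map (Int.cast : ℤ → ℂ) = hat w fun i => (γ i).map (Int.cast : ℤ → ℂ) := hmap (Int.castRingHom ℂ) γ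
    rw [e1]
    unfold hat
    rw [fromBlocks_transpose, fromBlocks_multiply, fromBlocks_multiply]
    simp only [Matrix.mul_zero, Matrix.zero_mul, add_zero, zero_add, Matrix.transpose_zero, Matrix.transpose_one, Matrix.one_mul,
      Matrix.mul_one]
    rw [hγ]) (by
    rintro _ ⟨γ, hγ, -, rfl⟩
    have e1 : (hat w γ).map (Int.cast : ℤ → ℚ) = hat w fun i => (γ i).map (Int.cast : ℤ → ℚ) := hmap (Int.castRingHom ℚ) γ
    rw [e1]
    exact hu _ hγ)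
  refine h1.subset ?_
  rintro _ ⟨γ, hγ, hS2, rfl⟩
  refine ⟨_, ⟨γ, hγ, hS2, rfl⟩, ?_⟩
  have e1 : (hat w γ).map (Int.cast : ℤ → ℚ) = hat w fun i => (γ i).map (Int.cast : ℤ → ℚ) := hmap (Int.castRingHom ℚ) γ
  rw [e1]

end Q207.GH
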