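import Pool.Agent.Q207.GH.So3
import Pool.Agent.Q207.GH.Orb

/-!
# Project GH: the orbits are bounded
-/

set_option autoImplicit false

open Matrix Finset

namespace Q207.GH

open Q207.HG (cmx)
open Q207.HT (lieA qc)

variable {k : ℕ} {n : Fin k → ℕ} {w : ℕ}

theorem bounded {Q : ∀ i, Matrix (Fin (n i)) (Fin (n i)) ℤ} {c : Fin k → ℂ}
    {W : ℤ → Submodule ℂ (Fin w → ℂ)} (hW : DirectSum.IsInternal W) {H : ℤ → Submodule ℂ ((Σ i, Fin (n i)) → ℂ)}
    (hH : DirectSum.IsInternal H) (hS : Pol H (blockDiagonal' fun i => c i • ic (Q i)))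
    {Φ : Matrix ((Σ i, Fin (n i)) ⊕ Fin w) ((Σ i, Fin (n i)) ⊕ Fin w) ℂ} (hΦ : ∀ p, ∀ v ∈ op H W p, v ᵥ* Φ = (p : ℂ) • v)
    {q : ℕ} {u : (Fin q → (Σ i, Fin (n i)) ⊕ Fin w) → ℚ}
    (hu : ∀ γ : ∀ i, Matrix (Fin (n i)) (Fin (n i)) ℚ, Iso1 Q γ → lieA Φᵀ (qc (trl (hat w γ) u)) = 0) :
    ∃ K : ℝ, ∀ γ : ∀ i, Matrix (Fin (n i)) (Fin (n i)) ℚ, Iso1 Q γ → ∀ p, ‖qc (trl (hat w γ) u) p‖ ≤ K := by
  obtain ⟨S', hS'⟩ := form (Fin w) W hW
  obtain ⟨K, hK⟩ := bnd (op_int hH hW) hΦ (pol_op hS hS') u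
  refine ⟨K, fun γ hγ p => hK _ ?_ (hu γ hγ) p⟩
  have e1 : cmx (hat w γ) = hat w fun i => cmx (γ i) := by
    unfold hat
    show (fromBlocks _ _ _ _).map (algebraMap ℚ ℂ) = _
    rw [fromBlocks_map, blockDiagonal'_map _ _ (map_zero _), Matrix.map_zero _ (map_zero _), Matrix.map_zero _ (map_zero _),
      Matrix.map_one _ (map_zero _) (map_one _)]
  rw [e1]
  unfold hat
  rw [fromBlocks_transpose, fromBlocks_multiply, fromBlocks_multiply]
  simp only [Matrix.mul_zero, Matrix.zero_mul, add_zero, zero_add, Matrix.transpose_zero, Matrix.transpose_one, Matrix.one_mul,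
    Matrix.mul_one]
  congr 1
  rw [blockDiagonal'_transpose, ← blockDiagonal'_mul, ← blockDiagonal'_mul]
  refine congrArg blockDiagonal' (funext fun i => ?_)
  have h1 := congrArg (fun M : Matrix (Fin (n i)) (Fin (n i)) ℚ => cmx M) (hγ i).1
  have h2 : ∀ A B : Matrix (Fin (n i)) (Fin (n i)) ℚ, cmx (A * B) = cmx A * cmx B := fun A B => Matrix.map_mul
  simp only [h2, ic_ir] at h1
  rw [Matrix.mul_smul, Matrix.smul_mul]
  exact congrArg (fun M => c i • M) h1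

/-- the rational and the complex action -/
lemma lie_cast {K : Type} [Fintype K] [DecidableEq K] {s : ℕ} (N : Matrix K K ℚ) (x : (Fin s → K) → ℚ) :
    lieA (cmx N) (qc x) = 0 ↔ ∀ p, ∑ l, ∑ y, N (p l) y * x (Function.update p l y) = 0 := by
  constructor
  · intro h p
    have h1 := congrFun h p
    have h2 : lieA (cmx N) (qc x) p = ((∑ l, ∑ y, N (p l) y * x (Function.update p l y) : ℚ) : ℂ) :=
      Pool.Agent.Q195.HT.lieA_rat N x p
    rw [h2, Pi.zero_apply] at h1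
    exact_mod_cast h1
  · intro h
    funext p
    have h2 : lieA (cmx N) (qc x) p = ((∑ l, ∑ y, N (p l) y * x (Function.update p l y) : ℚ) : ℂ) :=
      Pool.Agent.Q195.HT.lieA_rat N x p
    rw [h2, h p, Pi.zero_apply]
    norm_num

end Q207.GH
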