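import Pool.Agent.Q207.GH.Orb1

/-!
# Project GH: boundedness of the orbits of Hodge classes under rational isometries
-/

set_option autoImplicit false

open Matrix Finset
open scoped MatrixOrder ComplexOrder

namespace Q207.GH

open Q207.HG (cmx)
open Q207.HT (lieA qc)
open Q207.DB (actM)

/-- Hodge classes in an orbit are bounded -/
theorem bnd {I : Type} [Fintype I] [DecidableEq I] {H : ℤ → Submodule ℂ (I → ℂ)} {S Φ : Matrix I I ℂ}
    (hH : DirectSum.IsInternal H) (hΦ : ∀ p, ∀ v ∈ H p, v ᵥ* Φ = (p : ℂ) • v) (hS : Pol H S) {q : ℕ} (u : (Fin q → I) → ℚ) :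
    ∃ K : ℝ, ∀ γ : Matrix I I ℚ, (cmx γ)ᵀ * S * cmx γ = S → lieA Φᵀ (qc (trl γ u)) = 0 →
      ∀ p, ‖qc (trl γ u) p‖ ≤ K := by
  classical
  obtain ⟨Z, lev, hZ, hmem⟩ := Pool.Agent.Q195.HT.adaptedI hH
  have hM := gram hS hZ hmem
  set N := Z * S * Zᴴ with hN
  set D := Matrix.diagonal (fun a => Complex.I ^ (lev a)) with hD
  obtain ⟨B, hB⟩ := CStarAlgebra.nonneg_iff_eq_star_mul_self.mp hM.posSemidef.nonneg
  rw [Matrix.star_eq_conjTranspose] at hB
  have hBd : IsUnit B.det := by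
    have h1 : IsUnit (D * N).det := (Matrix.isUnit_iff_isUnit_det _).1 hM.isUnit
    rw [hB, Matrix.det_mul] at h1
    exact isUnit_of_mul_isUnit_right h1
  have hZ1 : Z * Z⁻¹ = 1 := Matrix.mul_nonsing_inv _ hZ
  have hZ2 : Z⁻¹ * Z = 1 := Matrix.nonsing_inv_mul _ hZ
  have hBH : Bᴴ * (Bᴴ)⁻¹ = 1 := Matrix.mul_nonsing_inv _ (by
    rw [Matrix.det_conjTranspose]
    exact hBd.star)
  -- the form
  set F : ((Fin q → I) → ℂ) → ℂ := fun x => x ⬝ᵥ (kp q S *ᵥ star x) with hF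
  -- the value of the form on Hodge classes
  have hcoord : ∀ x : (Fin q → I) → ℂ, lieA Φᵀ x = 0 → ∀ w, ∑ l, (lev (w l) : ℂ) ≠ 0 → (x ᵥ* kp q Z⁻¹) w = 0 := by
    intro x hx w hw
    have h1 : x ᵥ* kp q Z⁻¹ = actM (fun _ => (Z⁻¹)ᵀ) x := by
      funext w
      rw [Q207.DB.actM_apply]
      refine sum_congr rfl fun y _ => ?_
      rw [mul_comm]
      rfl
    have h2 : lieA (Matrix.diagonal fun a => ((lev a : ℤ) : ℂ)) (actM (fun _ => (Z⁻¹)ᵀ) x) = actM (fun _ => (Z⁻¹)ᵀ) (lieA Φᵀ x) := by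
      refine Pool.Agent.Q195.HT.lieA_actM ?_ x
      intro _
      have h3 : Z * Φ = Matrix.diagonal (fun a => ((lev a : ℤ) : ℂ)) * Z := by
        ext a b
        rw [Matrix.diagonal_mul]
        exact congrFun (hΦ _ _ (hmem a)) b
      have h4 : Φ * Z⁻¹ = Z⁻¹ * Matrix.diagonal (fun a => ((lev a : ℤ) : ℂ)) := by
        calc Φ * Z⁻¹ = Z⁻¹ * (Z * Φ) * Z⁻¹ := by rw [← Matrix.mul_assoc, hZ2, Matrix.one_mul]
          _ = Z⁻¹ * Matrix.diagonal (fun a => ((lev a : ℤ) : ℂ)) * (Z * Z⁻¹) := by rw [h3]; simp only [Matrix.mul_assoc]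
          _ = _ := by rw [hZ1, Matrix.mul_one]
      have h5 := congrArg Matrix.transpose h4
      rw [Matrix.transpose_mul, Matrix.transpose_mul, Matrix.diagonal_transpose] at h5
      exact h5.symm
    rw [hx, map_zero, ← h1] at h2
    have h3 := congrFun h2 w
    rw [Pool.Agent.Q195.HT.lieA_diagonal] at h3
    exact (mul_eq_zero.1 h3).resolve_left hw
  have hval : ∀ x : (Fin q → I) → ℂ, lieA Φᵀ x = 0 →
      F x = ((x ᵥ* kp q Z⁻¹) ᵥ* kp q Bᴴ) ⬝ᵥ star ((x ᵥ* kp q Z⁻¹) ᵥ* kp q Bᴴ) := by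
    intro x hx
    set U := x ᵥ* kp q Z⁻¹ with hU
    have hxU : x = U ᵥ* kp q Z := by
      rw [hU, Matrix.vecMul_vecMul, ← kp_mul, hZ2, kp_one, Matrix.vecMul_one]
    have h1 : F x = U ⬝ᵥ (kp q N *ᵥ star U) := by
      rw [hF]
      show x ⬝ᵥ (kp q S *ᵥ star x) = _
      rw [hxU, form_coord, ← kp_conjT, ← kp_mul, ← kp_mul]
    have h2 : U ⬝ᵥ (kp q N *ᵥ star U) = U ⬝ᵥ (kp q (D * N) *ᵥ star U) := by
      have h5 : kp q (D * N) = kp q D * kp q N := kp_mul D N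
      rw [h5, hD, kp_diag, ← Matrix.mulVec_mulVec]
      refine sum_congr rfl fun w _ => ?_
      rw [Matrix.mulVec_diagonal]
      by_cases hw : ∑ l, (lev (w l) : ℂ) = 0
      · have h3 : ∑ l, lev (w l) = 0 := by exact_mod_cast hw
        have h4 : ∏ l, Complex.I ^ lev (w l) = 1 := by
          have h5 : ∀ s : Finset (Fin q), ∏ l ∈ s, Complex.I ^ lev (w l) = Complex.I ^ (∑ l ∈ s, lev (w l)) := by
            intro s
            induction s using Finset.induction_on with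
            | empty => simp
            | insert a s ha ih => rw [prod_insert ha, sum_insert ha, zpow_add₀ Complex.I_ne_zero, ih]
          rw [h5, h3, zpow_zero]
        rw [h4, one_mul]
      · have h6 : U w = 0 := hcoord x hx w hw
        rw [h6, zero_mul, zero_mul]
    have e1 : star (U ᵥ* kp q Bᴴ) = kp q B *ᵥ star U := by
      rw [Matrix.star_vecMul, ← kp_conjT, Matrix.conjTranspose_conjTranspose]
    have e2 : kp q (Bᴴ * B) = kp q Bᴴ * kp q B := kp_mul _ _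
    rw [h1, h2, hB, e1, e2, ← Matrix.mulVec_mulVec, Matrix.dotProduct_mulVec]
  -- the form is constant on the orbit
  set g : Matrix I I ℚ → Matrix I I ℂ := fun γ => cmx γ with hg
  have hqc : ∀ γ : Matrix I I ℚ, qc (trl γ u) = kp q (g γ) *ᵥ qc u := by
    intro γ
    rw [← trl_kp]
    funext p
    show ((trl γ u p : ℚ) : ℂ) = trl (g γ) (qc u) p
    unfold trl
    rw [Rat.cast_sum]
    refine sum_congr rfl fun y _ => ?_
    rw [Rat.cast_mul, Rat.cast_prod]
    congr 1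
  have hconst : ∀ γ : Matrix I I ℚ, (cmx γ)ᵀ * S * cmx γ = S → F (qc (trl γ u)) = F (qc u) := by
    intro γ h1
    rw [hqc, hF]
    show (kp q (g γ) *ᵥ qc u) ⬝ᵥ (kp q S *ᵥ star (kp q (g γ) *ᵥ qc u)) = qc u ⬝ᵥ (kp q S *ᵥ star (qc u))
    have hstar : star (kp q (g γ) *ᵥ qc u) = kp q (g γ) *ᵥ star (qc u) := by
      rw [Matrix.star_mulVec, ← kp_conjT]
      have h2 : (g γ)ᴴ = (g γ)ᵀ := by
        ext a b
        rw [Matrix.conjTranspose_apply, Matrix.transpose_apply]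
        exact map_ratCast (starRingEnd ℂ) _
      rw [h2, kp_T, Matrix.vecMul_transpose]
    rw [hstar, Matrix.mulVec_mulVec, Matrix.dotProduct_mulVec, ← Matrix.vecMul_transpose, Matrix.vecMul_vecMul,
      ← Matrix.dotProduct_mulVec, ← kp_T, ← Matrix.mul_assoc, ← kp_mul, ← kp_mul]
    have h3 : (g γ)ᵀ * S * g γ = S := h1
    rw [h3]
  -- the bound
  set R := (kp q (Bᴴ)⁻¹) * kp q Z with hR
  have hback : ∀ x : (Fin q → I) → ℂ, ((x ᵥ* kp q Z⁻¹) ᵥ* kp q Bᴴ) ᵥ* R = x := by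
    intro x
    rw [hR, Matrix.vecMul_vecMul, ← Matrix.mul_assoc, ← kp_mul, hBH, kp_one, Matrix.one_mul, Matrix.vecMul_vecMul, ← kp_mul,
      hZ2, kp_one, Matrix.vecMul_one]
  set β : ℝ := (F (qc u)).re with hβ
  set K : ℝ := ∑ p : Fin q → I, ∑ w : Fin q → I, Real.sqrt β * ‖R w p‖ with hK
  refine ⟨K, ?_⟩
  · intro γ hγ hγu p
    set x := qc (trl γ u) with hx
    set Y := (x ᵥ* kp q Z⁻¹) ᵥ* kp q Bᴴ with hY
    have h1 : Y ⬝ᵥ star Y = F (qc u) := by
      rw [← hconst γ hγ, ← hval x hγu]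
    have h2 : ∑ w, Complex.normSq (Y w) = β := by
      rw [hβ, ← h1]
      simp only [dotProduct, Complex.re_sum]
      refine sum_congr rfl fun w _ => ?_
      have h3 : Y w * star Y w = (Complex.normSq (Y w) : ℂ) := Complex.mul_conj _
      rw [h3, Complex.ofReal_re]
    have h3 : ∀ w, ‖Y w‖ ≤ Real.sqrt β := by
      intro w
      refine Real.le_sqrt_of_sq_le ?_
      rw [← Complex.normSq_eq_norm_sq, ← h2]
      exact single_le_sum (f := fun w => Complex.normSq (Y w)) (fun _ _ => Complex.normSq_nonneg _) (mem_univ w)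
    have h4 : x p = ∑ w, Y w * R w p := (congrFun (hback x) p).symm
    rw [h4]
    refine (norm_sum_le _ _).trans ?_
    refine le_trans ?_ (single_le_sum (f := fun p => ∑ w : Fin q → I, Real.sqrt β * ‖R w p‖) (fun p _ =>
      sum_nonneg fun w _ => mul_nonneg (Real.sqrt_nonneg _) (norm_nonneg _)) (mem_univ p))
    refine sum_le_sum fun w _ => ?_
    rw [norm_mul]
    exact mul_le_mul_of_nonneg_right (h3 w) (norm_nonneg _)

end Q207.GH
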