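import Pool.Agent.Q207.GH.Sp0

/-!
# Project GH: Cayley transforms
-/

set_option autoImplicit false

open Matrix Finset Polynomial

namespace Q207.GH

open Q207.HG (cmx hB)
open Q207.HT (lieA qc)

/-- a polynomial which is small near a point has a zero of high order -/
lemma dv {F : Polynomial ℝ} {a K : ℝ} {q : ℕ} (h : ∀ᶠ x in nhds a, |F.eval x| ≤ K * |x - a| ^ q) : (X - C a) ^ q ∣ F := by
  by_cases hF : F = 0
  · rw [hF]
    exact dvd_zero _
  obtain ⟨F1, h1, h2⟩ := Polynomial.exists_eq_pow_rootMultiplicity_mul_and_not_dvd F hF a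
  by_cases hk : q ≤ F.rootMultiplicity a
  · rw [h1]
    exact (pow_dvd_pow _ hk).mul_right _
  exfalso
  push Not at hk
  apply h2
  rw [Polynomial.dvd_iff_isRoot]
  set k := F.rootMultiplicity a with hkdef
  have h3 : ∀ᶠ x in nhdsWithin a {a}ᶜ, |F1.eval x| ≤ K * |x - a| ^ (q - k) := by
    have h4 : ∀ᶠ x in nhdsWithin a {a}ᶜ, |F.eval x| ≤ K * |x - a| ^ q := h.filter_mono nhdsWithin_le_nhds
    filter_upwards [h4, self_mem_nhdsWithin] with x hx hxa
    have hne : 0 < |x - a| := abs_pos.2 (sub_ne_zero.2 hxa)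
    rw [h1, eval_mul, eval_pow, eval_sub, eval_X, eval_C, abs_mul, abs_pow] at hx
    have h5 : |x - a| ^ q = |x - a| ^ k * |x - a| ^ (q - k) := by
      rw [← pow_add, Nat.add_sub_cancel' hk.le]
    rw [h5] at hx
    have h6 : |x - a| ^ k * |F1.eval x| ≤ |x - a| ^ k * (K * |x - a| ^ (q - k)) := by
      calc _ ≤ _ := hx
        _ = _ := by ring
    exact le_of_mul_le_mul_left h6 (pow_pos hne k)
  have h4 : Filter.Tendsto (fun x => |F1.eval x|) (nhdsWithin a {a}ᶜ) (nhds |F1.eval a|) :=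
    (F1.continuous.abs.tendsto a).mono_left nhdsWithin_le_nhds
  have h5 : Filter.Tendsto (fun x => K * |x - a| ^ (q - k)) (nhdsWithin a {a}ᶜ) (nhds (K * |a - a| ^ (q - k))) := by
    have h6 : Continuous fun x : ℝ => K * |x - a| ^ (q - k) := by fun_prop
    exact (h6.tendsto a).mono_left nhdsWithin_le_nhds
  rw [sub_self, abs_zero, zero_pow (by omega), mul_zero] at h5
  have h6 := le_of_tendsto_of_tendsto h4 h5 h3
  exact abs_eq_zero.1 (le_antisymm h6 (abs_nonneg _))

/-- a bounded quotient is constant -/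
lemma qt {F : Polynomial ℝ} {d K : ℝ} (hd : 0 < d) {q : ℕ} (hdeg : F.natDegree ≤ 2 * q)
    (h : ∀ x : ℝ, |F.eval x| ≤ K * |1 - d * x ^ 2| ^ q) : (derivative F).eval 0 = 0 := by
  set s := Real.sqrt d with hs
  have hs0 : 0 < s := Real.sqrt_pos.2 hd
  have hsd : s ^ 2 = d := Real.sq_sqrt hd.le
  set r := s⁻¹ with hr
  have hr0 : 0 < r := inv_pos.2 hs0
  have hrd : d * r ^ 2 = 1 := by
    rw [hr, ← hsd]
    field_simp
  have hG : ∀ x : ℝ, 1 - d * x ^ 2 = -d * ((x - r) * (x - -r)) := by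
    intro x
    linear_combination (-1 : ℝ) * hrd
  have hdv : ∀ a b : ℝ, (∀ x : ℝ, 1 - d * x ^ 2 = -d * ((x - a) * (x - b))) → (X - C a) ^ q ∣ F := by
    intro a b hab
    refine dv (K := |K| * (d * (|a - b| + 1)) ^ q) ?_
    have h1 : ∀ᶠ x in nhds a, |x - b| < |a - b| + 1 := by
      have h2 : Continuous fun x : ℝ => |x - b| := by fun_prop
      exact (h2.tendsto a).eventually (gt_mem_nhds (lt_add_one _))
    filter_upwards [h1] with x hx
    refine (h x).trans ?_
    rw [hab x, abs_mul, abs_mul, abs_neg, abs_of_pos hd, mul_pow, mul_pow]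
    have h3 : |x - b| ^ q ≤ (|a - b| + 1) ^ q := pow_le_pow_left₀ (abs_nonneg _) hx.le q
    calc K * (d ^ q * (|x - a| ^ q * |x - b| ^ q)) ≤ |K| * (d ^ q * (|x - a| ^ q * |x - b| ^ q)) :=
          mul_le_mul_of_nonneg_right (le_abs_self K) (by positivity)
      _ ≤ |K| * (d ^ q * (|x - a| ^ q * (|a - b| + 1) ^ q)) := by gcongr
      _ = _ := by rw [mul_pow]; ring
  have h1 := hdv r (-r) hG
  have h2 := hdv (-r) r (fun x => by rw [hG x]; ring)
  have hco : IsCoprime ((X - C r : Polynomial ℝ) ^ q) ((X - C (-r)) ^ q) := by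
    refine IsCoprime.pow ?_
    refine Polynomial.isCoprime_X_sub_C_of_isUnit_sub ?_
    rw [isUnit_iff_ne_zero]
    intro h3
    linarith
  obtain ⟨E, hE⟩ := hco.mul_dvd h1 h2
  by_cases hE0 : E = 0
  · rw [hE, hE0]
    simp
  have hmon : ((X - C r : Polynomial ℝ) ^ q * (X - C (-r)) ^ q).Monic :=
    ((monic_X_sub_C r).pow q).mul ((monic_X_sub_C (-r)).pow q)
  have hnd : ((X - C r : Polynomial ℝ) ^ q * (X - C (-r)) ^ q).natDegree = 2 * q := by
    rw [((monic_X_sub_C r).pow q).natDegree_mul ((monic_X_sub_C (-r)).pow q), (monic_X_sub_C r).natDegree_pow,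
      (monic_X_sub_C (-r)).natDegree_pow, natDegree_X_sub_C, natDegree_X_sub_C]
    ring
  have hEd : E.natDegree = 0 := by
    have h3 : F.natDegree = 2 * q + E.natDegree := by rw [hE, hmon.natDegree_mul' hE0, hnd]
    omega
  obtain ⟨c, hc⟩ := Polynomial.natDegree_eq_zero.1 hEd
  rw [hE, ← hc, derivative_mul, derivative_C, mul_zero, add_zero, eval_mul, ← mul_pow, derivative_pow, eval_mul]
  have h3 : (derivative ((X - C r : Polynomial ℝ) * (X - C (-r)))).eval 0 = 0 := by
    rw [derivative_mul]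
    simp
  rw [h3, mul_zero, zero_mul]

section

variable {I : Type} [Fintype I] [DecidableEq I] {q : ℕ}

/-- the derivative of the action -/
lemma sum_upd (N : Matrix I I ℚ) (u : (Fin q → I) → ℚ) (p : Fin q → I) :
    ∑ y : Fin q → I, ∑ l, (∏ l' ∈ univ.erase l, (1 : Matrix I I ℚ) (p l') (y l')) * N (p l) (y l) * u y =
      ∑ l, ∑ x, N (p l) x * u (Function.update p l x) := by
  rw [sum_comm]
  refine sum_congr rfl fun l _ => ?_
  symm
  refine sum_of_injOn (fun x => Function.update p l x) ?_ (fun _ _ => mem_univ _) ?_ ?_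
  · intro x _ x' _ h
    have := congrFun h l
    simpa using this
  · intro y _ hy
    have h2 : ∃ l' ≠ l, p l' ≠ y l' := by
      by_contra h3
      push Not at h3
      apply hy
      refine ⟨y l, mem_univ _, ?_⟩
      funext l'
      by_cases h4 : l' = l
      · subst h4
        simp
      · simp only [Function.update_of_ne h4]
        exact h3 l' h4
    obtain ⟨l', h3, h4⟩ := h2
    have h5 : (∏ l' ∈ univ.erase l, (1 : Matrix I I ℚ) (p l') (y l')) = 0 :=
      prod_eq_zero (mem_erase.2 ⟨h3, mem_univ l'⟩) (Matrix.one_apply_ne h4)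
    rw [h5, zero_mul, zero_mul]
  · intro x _
    have h2 : (∏ l' ∈ univ.erase l, (1 : Matrix I I ℚ) (p l') (Function.update p l x l')) = 1 := by
      refine prod_eq_one fun l' hl' => ?_
      rw [Function.update_of_ne (ne_of_mem_erase hl'), Matrix.one_apply_eq]
    simp only [h2, Function.update_self, one_mul]

/-- the Cayley transform -/
noncomputable def cy (N : Matrix I I ℚ) (d τ : ℚ) : Matrix I I ℚ :=
  1 + (2 * τ ^ 2 / (1 - d * τ ^ 2)) • (N * N) + (2 * τ / (1 - d * τ ^ 2)) • N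

/-- the coordinate of the moved tensor as a polynomial -/
noncomputable def cp (N : Matrix I I ℚ) (d : ℚ) (u : (Fin q → I) → ℚ) (p : Fin q → I) : Polynomial ℚ :=
  ∑ y : Fin q → I, (∏ l, (C ((1 : Matrix I I ℚ) (p l) (y l)) * (1 - C d * X ^ 2) + C (2 * (N * N) (p l) (y l)) * X ^ 2 +
    C (2 * N (p l) (y l)) * X)) * C (u y)

lemma cp_eval (N : Matrix I I ℚ) {d τ : ℚ} (hτ : 1 - d * τ ^ 2 ≠ 0) (u : (Fin q → I) → ℚ) (p : Fin q → I) :
    (cp N d u p).eval τ = (1 - d * τ ^ 2) ^ q * trl (cy N d τ) u p := by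
  unfold cp trl
  rw [eval_finsetSum, mul_sum]
  refine sum_congr rfl fun y _ => ?_
  rw [eval_mul, eval_prod, eval_C, ← mul_assoc]
  congr 1
  have h1 : (1 - d * τ ^ 2) ^ q = ∏ _l : Fin q, (1 - d * τ ^ 2) := by rw [prod_const, card_univ, Fintype.card_fin]
  rw [h1, ← prod_mul_distrib]
  refine prod_congr rfl fun l _ => ?_
  unfold cy
  simp only [eval_add, eval_mul, eval_sub, eval_one, eval_C, eval_pow, eval_X, Matrix.add_apply, Matrix.smul_apply, smul_eq_mul]
  field_simp

lemma cp_deriv (N : Matrix I I ℚ) (d : ℚ) (u : (Fin q → I) → ℚ) (p : Fin q → I) :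
    (derivative (cp N d u p)).eval 0 = 2 * ∑ l, ∑ x, N (p l) x * u (Function.update p l x) := by
  have h0 := sum_upd (2 • N) u p
  have h00 : ∑ l, ∑ x, (2 • N) (p l) x * u (Function.update p l x) = 2 * ∑ l, ∑ x, N (p l) x * u (Function.update p l x) := by
    rw [mul_sum]
    refine sum_congr rfl fun l _ => ?_
    rw [mul_sum]
    refine sum_congr rfl fun x _ => ?_
    rw [Matrix.smul_apply]
    simp only [nsmul_eq_mul, Nat.cast_ofNat]
    ring
  rw [← h00, ← h0]
  unfold cp
  rw [map_sum, eval_finsetSum]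
  refine sum_congr rfl fun y _ => ?_
  rw [derivative_mul, derivative_C, mul_zero, add_zero, derivative_prod_finset, eval_mul, eval_finsetSum, eval_C, sum_mul]
  refine sum_congr rfl fun l _ => ?_
  rw [eval_mul, eval_prod, Matrix.smul_apply]
  simp [derivative_pow]

lemma cp_deg (N : Matrix I I ℚ) (d : ℚ) (u : (Fin q → I) → ℚ) (p : Fin q → I) : (cp N d u p).natDegree ≤ 2 * q := by
  unfold cp
  refine natDegree_sum_le_of_forall_le _ _ fun y _ => ?_
  refine (natDegree_mul_C_le _ _).trans ?_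
  refine (natDegree_prod_le _ _).trans ?_
  have h1 : ∀ l : Fin q, (C ((1 : Matrix I I ℚ) (p l) (y l)) * (1 - C d * X ^ 2) + C (2 * (N * N) (p l) (y l)) * X ^ 2 +
    C (2 * N (p l) (y l)) * X : Polynomial ℚ).natDegree ≤ 2 := by
    intro l
    compute_degree
  refine (sum_le_sum fun l _ => h1 l).trans ?_
  rw [sum_const, card_univ, Fintype.card_fin, smul_eq_mul, mul_comm]

/-- a tensor whose translates under the Cayley transforms are bounded is killed -/
theorem cay (N : Matrix I I ℚ) {d : ℚ} (hd : 0 < d) (u : (Fin q → I) → ℚ) (K : ℝ)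
    (hK : ∀ τ : ℚ, 1 - d * τ ^ 2 ≠ 0 → ∀ p, ‖qc (trl (cy N d τ) u) p‖ ≤ K) : lieA (cmx N) (qc u) = 0 := by
  have hmain : ∀ p, ∑ l, ∑ x, N (p l) x * u (Function.update p l x) = 0 := by
    intro p
    set F : Polynomial ℝ := (cp N d u p).map (algebraMap ℚ ℝ) with hF
    have h1 : ∀ x : ℝ, |F.eval x| ≤ K * |1 - (d : ℝ) * x ^ 2| ^ q := by
      have hcl : IsClosed {x : ℝ | |F.eval x| ≤ K * |1 - (d : ℝ) * x ^ 2| ^ q} := by
        refine isClosed_le F.continuous.abs ?_
        fun_prop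
      have hG0 : (1 - C (d : ℝ) * X ^ 2 : Polynomial ℝ) ≠ 0 := by
        intro h2
        have h3 := congrArg (eval 0) h2
        simp at h3
      have hdense : Dense (Set.range (fun ρ : ℚ => (ρ : ℝ)) \ {x : ℝ | (1 - C (d : ℝ) * X ^ 2 : Polynomial ℝ).IsRoot x}) := by
        refine Dense.sdiff_finite (Rat.denseRange_cast) ?_
        exact Polynomial.finite_setOfPred_isRoot hG0
      intro x
      have hx : x ∈ closure (Set.range (fun ρ : ℚ => (ρ : ℝ)) \ {x : ℝ | (1 - C (d : ℝ) * X ^ 2 : Polynomial ℝ).IsRoot x}) :=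
        hdense x
      refine closure_minimal ?_ hcl hx
      rintro _ ⟨⟨τ, rfl⟩, hτ⟩
      have hτ1 : 1 - d * τ ^ 2 ≠ 0 := by
        intro h2
        apply hτ
        show eval (τ : ℝ) (1 - C (d : ℝ) * X ^ 2) = 0
        simp only [eval_sub, eval_one, eval_mul, eval_C, eval_pow, eval_X]
        exact_mod_cast congrArg (fun x : ℚ => (x : ℝ)) h2
      show |F.eval (τ : ℝ)| ≤ K * |1 - (d : ℝ) * (τ : ℝ) ^ 2| ^ q
      have h2 : F.eval (τ : ℝ) = (((cp N d u p).eval τ : ℚ) : ℝ) := by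
        rw [hF, Polynomial.eval_map]
        exact Polynomial.eval₂_at_apply (algebraMap ℚ ℝ) τ
      rw [h2, cp_eval N hτ1]
      have h3 := hK τ hτ1 p
      have h4 : ‖qc (trl (cy N d τ) u) p‖ = |((trl (cy N d τ) u p : ℚ) : ℝ)| := by
        show ‖((trl (cy N d τ) u p : ℚ) : ℂ)‖ = _
        rw [← Complex.ofReal_ratCast, Complex.norm_real, Real.norm_eq_abs]
      rw [h4] at h3
      push_cast
      rw [abs_mul, abs_pow, mul_comm K]
      exact mul_le_mul_of_nonneg_left h3 (by positivity)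
    have h2 := qt (F := F) (d := (d : ℝ)) (K := K) (by exact_mod_cast hd) (q := q) (by
      rw [hF]
      exact (natDegree_map_le).trans (cp_deg N d u p)) h1
    rw [hF, derivative_map] at h2
    have h3 : (((derivative (cp N d u p)).eval 0 : ℚ) : ℝ) = 0 := by
      rw [← h2, Polynomial.eval_map]
      have h4 := Polynomial.eval₂_at_apply (p := derivative (cp N d u p)) (algebraMap ℚ ℝ) 0
      rw [map_zero] at h4
      exact h4.symm
    rw [cp_deriv] at h3
    have h5 : (2 * ∑ l, ∑ x, N (p l) x * u (Function.update p l x) : ℚ) = 0 := by exact_mod_cast h3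
    linarith
  funext p
  have h3 := congrArg (fun x : ℚ => (x : ℂ)) (hmain p)
  simp only [Rat.cast_sum, Rat.cast_mul, Rat.cast_zero] at h3
  exact h3

end

end Q207.GH
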