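import Pool.Agent.Q207.GH.Stab

/-!
# Project GH: direct sums of Hodge structures
-/

set_option autoImplicit false

open Matrix Finset

namespace Q207.GH

open Q207.HG (Grd Dt cmx)
open Q207.HT (lieA qc)

variable {I J : Type} [Fintype I] [DecidableEq I] [Fintype J] [DecidableEq J]

/-- the direct sum -/
def op (H : ℤ → Submodule ℂ (I → ℂ)) (H' : ℤ → Submodule ℂ (J → ℂ)) (p : ℤ) : Submodule ℂ (I ⊕ J → ℂ) :=
  (H p).comap (LinearMap.funLeft ℂ ℂ Sum.inl) ⊓ (H' p).comap (LinearMap.funLeft ℂ ℂ Sum.inr)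

/-- the first inclusion -/
def i1 (I J : Type) : (I → ℂ) →ₗ[ℂ] (I ⊕ J → ℂ) where
  toFun v := Sum.elim v 0
  map_add' v w := by
    funext a
    rcases a with a | a
    · rfl
    · exact (add_zero 0).symm
  map_smul' c v := by
    funext a
    rcases a with a | a
    · rfl
    · exact (mul_zero c).symm

/-- the second inclusion -/
def i2 (I J : Type) : (J → ℂ) →ₗ[ℂ] (I ⊕ J → ℂ) where
  toFun v := Sum.elim 0 v
  map_add' v w := by
    funext a
    rcases a with a | a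
    · exact (add_zero 0).symm
    · rfl
  map_smul' c v := by
    funext a
    rcases a with a | a
    · exact (mul_zero c).symm
    · rfl

omit [Fintype I] [DecidableEq I] [Fintype J] [DecidableEq J] in
lemma i1_mem {H : ℤ → Submodule ℂ (I → ℂ)} (H' : ℤ → Submodule ℂ (J → ℂ)) {p : ℤ} {v : I → ℂ} (hv : v ∈ H p) :
    i1 I J v ∈ op H H' p := by
  refine ⟨hv, ?_⟩
  show (0 : J → ℂ) ∈ H' p
  exact Submodule.zero_mem _

omit [Fintype I] [DecidableEq I] [Fintype J] [DecidableEq J] in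
lemma i2_mem (H : ℤ → Submodule ℂ (I → ℂ)) {H' : ℤ → Submodule ℂ (J → ℂ)} {p : ℤ} {v : J → ℂ} (hv : v ∈ H' p) :
    i2 I J v ∈ op H H' p := by
  refine ⟨?_, hv⟩
  show (0 : I → ℂ) ∈ H p
  exact Submodule.zero_mem _

omit [Fintype I] [DecidableEq I] [Fintype J] [DecidableEq J] in
lemma dec (v : I ⊕ J → ℂ) : v = i1 I J (fun a => v (Sum.inl a)) + i2 I J (fun a => v (Sum.inr a)) := by
  funext a
  rcases a with a | a
  · exact (add_zero _).symm
  · exact (zero_add _).symm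

omit [DecidableEq I] [DecidableEq J] in
lemma op_oper {H : ℤ → Submodule ℂ (I → ℂ)} {H' : ℤ → Submodule ℂ (J → ℂ)} {Φ : Matrix I I ℂ} {Φ' : Matrix J J ℂ}
    (hΦ : ∀ p, ∀ v ∈ H p, v ᵥ* Φ = (p : ℂ) • v) (hΦ' : ∀ p, ∀ v ∈ H' p, v ᵥ* Φ' = (p : ℂ) • v) :
    ∀ p, ∀ v ∈ op H H' p, v ᵥ* (fromBlocks Φ 0 0 Φ') = (p : ℂ) • v := by
  rintro p v ⟨hv1, hv2⟩
  have h1 := hΦ p _ hv1
  have h2 := hΦ' p _ hv2
  funext a
  rcases a with a | a
  · have h3 := congrFun h1 a
    rw [Pi.smul_apply] at h3 ⊢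
    refine Eq.trans ?_ h3
    simp [Matrix.vecMul, dotProduct, Fintype.sum_sum_type, LinearMap.funLeft]
  · have h3 := congrFun h2 a
    rw [Pi.smul_apply] at h3 ⊢
    refine Eq.trans ?_ h3
    simp [Matrix.vecMul, dotProduct, Fintype.sum_sum_type, LinearMap.funLeft]

/-- the operator of a decomposition -/
theorem ex_oper {H : ℤ → Submodule ℂ (I → ℂ)} (hH : DirectSum.IsInternal H) :
    ∃ Φ : Matrix I I ℂ, ∀ p, ∀ v ∈ H p, v ᵥ* Φ = (p : ℂ) • v := by
  classical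
  set b := hH.collectedBasis fun p => Module.finBasis ℂ (H p) with hb
  set f : (I → ℂ) →ₗ[ℂ] (I → ℂ) := b.constr ℂ fun x => ((x.1 : ℤ) : ℂ) • b x with hf
  have hfb : ∀ p, ∀ v ∈ H p, f v = (p : ℂ) • v := by
    intro p v hv
    have h1 : v = ∑ x ∈ (b.repr v).support, (b.repr v) x • b x := (b.linearCombination_repr v).symm
    have h2 : ∀ x : (Σ p, Fin (Module.finrank ℂ (H p))), x.1 ≠ p → (b.repr v) x = 0 := by
      intro x hx
      exact DirectSum.IsInternal.collectedBasis_repr_of_mem_ne hH _ (fun h => hx h.symm) hv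
    conv_lhs => rw [h1]
    conv_rhs => rw [h1]
    rw [map_sum, Finset.smul_sum]
    refine Finset.sum_congr rfl fun x hx => ?_
    rw [map_smul, hf, Module.Basis.constr_basis]
    have hxp : x.1 = p := by
      by_contra h3
      exact (Finsupp.mem_support_iff.1 hx) (h2 x h3)
    rw [hxp, smul_comm]
  refine ⟨(LinearMap.toMatrix' f).transpose, fun p v hv => ?_⟩
  rw [Matrix.vecMul_transpose, LinearMap.toMatrix'_mulVec]
  exact hfb p v hv

theorem op_int {H : ℤ → Submodule ℂ (I → ℂ)} {H' : ℤ → Submodule ℂ (J → ℂ)} (hH : DirectSum.IsInternal H)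
    (hH' : DirectSum.IsInternal H') : DirectSum.IsInternal (op H H') := by
  classical
  obtain ⟨Φ, hΦ⟩ := ex_oper hH
  obtain ⟨Φ', hΦ'⟩ := ex_oper hH'
  rw [DirectSum.isInternal_submodule_iff_iSupIndep_and_iSup_eq_top]
  refine ⟨?_, ?_⟩
  · set f : Module.End ℂ (I ⊕ J → ℂ) := Matrix.vecMulLinear (fromBlocks Φ 0 0 Φ') with hf
    have h1 : iSupIndep fun p : ℤ => f.eigenspace (p : ℂ) :=
      (Module.End.eigenspaces_iSupIndep f).comp (f := fun p : ℤ => (p : ℂ)) Int.cast_injective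
    refine h1.mono fun p v hv => ?_
    rw [Module.End.mem_eigenspace_iff]
    exact op_oper hΦ hΦ' p v hv
  · rw [eq_top_iff]
    intro v _
    rw [dec v]
    refine Submodule.add_mem _ ?_ ?_
    · have h1 : (fun a => v (Sum.inl a)) ∈ ⨆ p, H p := by
        rw [hH.submodule_iSup_eq_top]
        exact Submodule.mem_top
      have h2 := Submodule.mem_map_of_mem (f := i1 I J) h1
      rw [Submodule.map_iSup] at h2
      refine (iSup_le fun p => ?_ : (⨆ p, (H p).map (i1 I J)) ≤ ⨆ p, op H H' p) h2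
      refine le_trans ?_ (le_iSup (op H H') p)
      rintro _ ⟨x, hx, rfl⟩
      exact i1_mem H' hx
    · have h1 : (fun a => v (Sum.inr a)) ∈ ⨆ p, H' p := by
        rw [hH'.submodule_iSup_eq_top]
        exact Submodule.mem_top
      have h2 := Submodule.mem_map_of_mem (f := i2 I J) h1
      rw [Submodule.map_iSup] at h2
      refine (iSup_le fun p => ?_ : (⨆ p, (H' p).map (i2 I J)) ≤ ⨆ p, op H H' p) h2
      refine le_trans ?_ (le_iSup (op H H') p)
      rintro _ ⟨x, hx, rfl⟩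
      exact i2_mem H hx

omit [Fintype I] [DecidableEq I] [Fintype J] [DecidableEq J] in
lemma op_conj {H : ℤ → Submodule ℂ (I → ℂ)} {H' : ℤ → Submodule ℂ (J → ℂ)}
    (h : ∀ p, ∀ v ∈ H p, (fun a => (starRingEnd ℂ) (v a)) ∈ H (-p))
    (h' : ∀ p, ∀ v ∈ H' p, (fun a => (starRingEnd ℂ) (v a)) ∈ H' (-p)) :
    ∀ p, ∀ v ∈ op H H' p, (fun a => (starRingEnd ℂ) (v a)) ∈ op H H' (-p) := by
  rintro p v ⟨hv1, hv2⟩
  exact ⟨h p _ hv1, h' p _ hv2⟩

/-- an adapted basis spans the filtration -/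
lemma fil_ad {H' : ℤ → Submodule ℂ (J → ℂ)} {Φ' CW : Matrix J J ℂ} {lev' : J → ℤ} (hCW : IsUnit CW.det)
    (hmem : ∀ a, CW a ∈ H' (lev' a)) (hΦ' : ∀ p, ∀ v ∈ H' p, v ᵥ* Φ' = (p : ℂ) • v) {p : ℤ} {v : J → ℂ} (hv : v ∈ H' p) :
    v ∈ Submodule.span ℂ {v | ∃ a, p ≤ lev' a ∧ v = CW a} := by
  classical
  set c : J → ℂ := v ᵥ* CW⁻¹ with hc
  have hvc : v = c ᵥ* CW := by
    rw [hc, Matrix.vecMul_vecMul, Matrix.nonsing_inv_mul _ hCW, Matrix.vecMul_one]
  have hD : CW * Φ' = Matrix.diagonal (fun a => ((lev' a : ℤ) : ℂ)) * CW := by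
    ext a b
    have h1 := congrFun (hΦ' _ _ (hmem a)) b
    rw [Matrix.diagonal_mul]
    exact h1
  have h1 : (p : ℂ) • c = c ᵥ* Matrix.diagonal (fun a => ((lev' a : ℤ) : ℂ)) := by
    have h2 : (c ᵥ* Matrix.diagonal (fun a => ((lev' a : ℤ) : ℂ))) ᵥ* CW = ((p : ℂ) • c) ᵥ* CW := by
      rw [Matrix.vecMul_vecMul, ← hD, ← Matrix.vecMul_vecMul, ← hvc, hΦ' p v hv, Matrix.smul_vecMul, ← hvc]
    have h3 := congrArg (fun x => x ᵥ* CW⁻¹) h2
    simp only [Matrix.vecMul_vecMul, Matrix.mul_nonsing_inv _ hCW, Matrix.mul_assoc, Matrix.mul_one, Matrix.vecMul_one] at h3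
    exact h3.symm
  have h4 : ∀ a, c a ≠ 0 → lev' a = p := by
    intro a ha
    have h5 := congrFun h1 a
    rw [Matrix.vecMul_diagonal, Pi.smul_apply, smul_eq_mul, mul_comm] at h5
    have h6 := mul_left_cancel₀ ha h5
    exact_mod_cast h6.symm
  have h5 : v = ∑ a, c a • CW a := by
    rw [hvc]
    funext b
    rw [Finset.sum_apply]
    rfl
  rw [h5]
  refine Submodule.sum_mem _ fun a _ => ?_
  by_cases ha : c a = 0
  · rw [ha, zero_smul]
    exact Submodule.zero_mem _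
  · exact Submodule.smul_mem _ _ (Submodule.subset_span ⟨a, (h4 a ha).ge, rfl⟩)

theorem op_fil {H : ℤ → Submodule ℂ (I → ℂ)} {H' : ℤ → Submodule ℂ (J → ℂ)} {G : Matrix I I ℂ} {lev : I → ℤ}
    {Φ' CW : Matrix J J ℂ} {lev' : J → ℤ}
    (hfil : ∀ p, (⨆ q : {q : ℤ // p ≤ q}, H q) = Submodule.span ℂ {v | ∃ a, p ≤ lev a ∧ v = G a}) (hCW : IsUnit CW.det)
    (hmem : ∀ a, CW a ∈ H' (lev' a)) (hΦ' : ∀ p, ∀ v ∈ H' p, v ᵥ* Φ' = (p : ℂ) • v) (p : ℤ) :
    (⨆ q : {q : ℤ // p ≤ q}, op H H' q) =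
      Submodule.span ℂ {v | ∃ a, p ≤ Sum.elim lev lev' a ∧ v = (fromBlocks G 0 0 CW) a} := by
  have e1 : ∀ a : I, (fromBlocks G 0 0 CW) (Sum.inl a) = i1 I J (G a) := by
    intro a
    funext b
    rcases b with b | b
    · rfl
    · rfl
  have e2 : ∀ a : J, (fromBlocks G 0 0 CW) (Sum.inr a) = i2 I J (CW a) := by
    intro a
    funext b
    rcases b with b | b
    · rfl
    · rfl
  apply le_antisymm
  · refine iSup_le fun q => ?_
    rintro v ⟨hv1, hv2⟩
    rw [dec v]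
    refine Submodule.add_mem _ ?_ ?_
    · have h1 : (fun a => v (Sum.inl a)) ∈ ⨆ q : {q : ℤ // p ≤ q}, H q := (le_iSup (fun q : {q : ℤ // p ≤ q} => H q) q) hv1
      rw [hfil p] at h1
      have h2 := Submodule.mem_map_of_mem (f := i1 I J) h1
      rw [Submodule.map_span] at h2
      refine Submodule.span_mono ?_ h2
      rintro _ ⟨_, ⟨a, ha, rfl⟩, rfl⟩
      exact ⟨Sum.inl a, ha, (e1 a).symm⟩
    · have h1 := fil_ad hCW hmem hΦ' hv2
      have h2 := Submodule.mem_map_of_mem (f := i2 I J) h1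
      rw [Submodule.map_span] at h2
      refine Submodule.span_mono ?_ h2
      rintro _ ⟨_, ⟨a, ha, rfl⟩, rfl⟩
      exact ⟨Sum.inr a, q.2.trans ha, (e2 a).symm⟩
  · refine Submodule.span_le.2 ?_
    rintro _ ⟨a, ha, rfl⟩
    rcases a with a | a
    · rw [e1]
      have h1 : G a ∈ ⨆ q : {q : ℤ // p ≤ q}, H q := by
        rw [hfil p]
        exact Submodule.subset_span ⟨a, ha, rfl⟩
      have h2 := Submodule.mem_map_of_mem (f := i1 I J) h1
      rw [Submodule.map_iSup] at h2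
      refine (iSup_le fun q => ?_ : (⨆ q : {q : ℤ // p ≤ q}, (H q).map (i1 I J)) ≤ ⨆ q : {q : ℤ // p ≤ q}, op H H' q) h2
      refine le_trans ?_ (le_iSup (fun q : {q : ℤ // p ≤ q} => op H H' q) q)
      rintro _ ⟨x, hx, rfl⟩
      exact i1_mem H' hx
    · rw [e2]
      exact (le_iSup (fun q : {q : ℤ // p ≤ q} => op H H' q) ⟨lev' a, ha⟩) (i2_mem H (hmem a))

end Q207.GH
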