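import Pool.Agent.Q207.GH.Tr
import Pool.Agent.Q207.GH.Tot
import Pool.Agent.Y123.GN.E8

/-!
# Project GH: the count
-/

set_option autoImplicit false

open Matrix Finset PowerSeries

namespace Q207.GH

open Q207.HG (PQ W1_pow_fin ex ex_det Grd Dt cmx)
open Q207.HT (lieA qc)
open Pool.Agent.Y123.GN (Gs Prs Prs_sat tl tl_eval)
open Pool.Agent.Y120.R (Fam gx p1 Sat pn pM)

variable {k : ℕ} {n ρ : Fin k → ℕ}

/-- the values of the periods, with a matrix on the left -/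
noncomputable def val (h : ∀ i, Fin (ρ i) → ℚ⟦X⟧) (P : ∀ i, Fin (n i) → Fin (n i) → MvPolynomial (Option (Fin (ρ i))) ℂ)
    (g : ∀ i, Matrix (Fin (n i)) (Fin (n i)) ℂ) (t : Fin k → ℕ) (v : Vg n) : ℂ :=
  (g v.1 * pM (h v.1) (P v.1) (t v.1 : ℝ)) v.2.1 v.2.2

/-- all relations of bounded degree are preserved -/
def Gd {w : ℕ} (h : ∀ i, Fin (ρ i) → ℚ⟦X⟧) (P : ∀ i, Fin (n i) → Fin (n i) → MvPolynomial (Option (Fin (ρ i))) ℂ)
    (C : Matrix (Ig n ⊕ Fin w) (Ig n ⊕ Fin w) ℂ) (t : Fin k → ℕ) : Prop :=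
  ∀ g : ∀ i, (Matrix (Fin (n i)) (Fin (n i)) ℂ)ˣ, (∀ i, g i ∈ Gs (h i) (P i)) →
    Rl (dg n (Fin w)) (Vc C) (val h P (fun _ => 1) t) (val h P (fun i => (g i : Matrix (Fin (n i)) (Fin (n i)) ℂ)) t)

theorem cnt (w e : ℕ) (h : ∀ i, Fin (ρ i) → ℚ⟦X⟧) (hF : ∀ i δ, Fam δ (h i)) :
    ∃ c C : ℝ, 0 < c ∧ 0 ≤ C ∧ ∀ P : ∀ i, Fin (n i) → Fin (n i) → MvPolynomial (Option (Fin (ρ i))) ℂ,
    (∀ i a b, (P i a b).totalDegree ≤ e) → ∀ Cm : Matrix (Ig n ⊕ Fin w) (Ig n ⊕ Fin w) ℂ, ∀ (x : Fin k → ℕ) (N : ℕ), 1 ≤ N →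
    ∀ S : Finset (Fin k → ℕ), (∀ t ∈ S, (∀ i, x i < t i ∧ t i ≤ x i + N) ∧ ¬ Gd h P Cm t) →
    (S.card : ℝ) ≤ C * (N : ℝ) ^ (k - 1) * ∑ i, (1 + N / ((x i : ℝ) + N) ^ c) := by
  classical
  set m := 2 * (Fintype.card (Ig n ⊕ Fin w) ^ 2 + 1) with hm
  obtain ⟨c, C, hc, hC, hmain⟩ := gx (ν := fun i => Fin (n i) × Fin (n i)) (h := h) (dg n (Fin w)) e
    ((2 * Fintype.card (Ig n ⊕ Fin w) ^ 2 + 1) ^ m) (fun i => hF i _)
  refine ⟨c, C, hc, hC, ?_⟩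
  intro P hP Cm x N hN S hS
  obtain ⟨hfin, hrank⟩ := W1_pow_fin Cm m
  have hfin' : Module.Finite ℚ (Vc Cm) := hfin
  refine hmain (fun i v => P i v.1 v.2) (fun i v => hP i v.1 v.2) (Vc Cm) hrank x N hN S fun t ht => ?_
  obtain ⟨hbox, hnot⟩ := hS t ht
  refine ⟨hbox, ?_⟩
  by_contra hcon
  apply hnot
  intro g hg F hF hF0
  by_contra hne
  refine hcon ⟨F, hF.1, hF.2, ?_, fun i => tl (P i) (g i), fun i => Prs_sat (hg i).1, ?_⟩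
  · refine Eq.trans ?_ hF0
    congr 1
    have e1 : (pn h (fun i (v : Fin (n i) × Fin (n i)) => P i v.1 v.2) fun i => (t i : ℝ)) = val h P (fun _ => 1) t := by
      funext v
      show _ = ((1 : Matrix (Fin (n v.1)) (Fin (n v.1)) ℂ) * pM (h v.1) (P v.1) (t v.1 : ℝ)) v.2.1 v.2.2
      rw [Matrix.one_mul]
      rfl
    rw [e1]
  · intro h2
    apply hne
    refine Eq.trans ?_ h2
    congr 1
    have e1 : (pn h (fun i => tl (P i) (g i : Matrix (Fin (n i)) (Fin (n i)) ℂ)) fun i => (t i : ℝ)) =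
        val h P (fun i => (g i : Matrix (Fin (n i)) (Fin (n i)) ℂ)) t := by
      funext v
      exact tl_eval (h v.1) (P v.1) (g v.1) _ v.2
    rw [e1]

section

variable {w : ℕ}

/-- the total matrix of a tuple -/
noncomputable def hat {R : Type} [CommRing R] (w : ℕ) (γ : ∀ i, Matrix (Fin (n i)) (Fin (n i)) R) :
    Matrix (Ig n ⊕ Fin w) (Ig n ⊕ Fin w) R := fromBlocks (blockDiagonal' γ) 0 0 1

lemma hat_mul {R : Type} [CommRing R] (γ γ' : ∀ i, Matrix (Fin (n i)) (Fin (n i)) R) :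
    hat w γ * hat w γ' = hat w (fun i => γ i * γ' i) := by
  unfold hat
  rw [fromBlocks_multiply, ← blockDiagonal'_mul]
  simp

lemma hat_one {R : Type} [CommRing R] : hat w (fun i => (1 : Matrix (Fin (n i)) (Fin (n i)) R)) = 1 := by
  unfold hat
  have h1 : (blockDiagonal' fun i => (1 : Matrix (Fin (n i)) (Fin (n i)) R)) = 1 := blockDiagonal'_one
  rw [h1, fromBlocks_one]

lemma Gv_val (h : ∀ i, Fin (ρ i) → ℚ⟦X⟧) (P : ∀ i, Fin (n i) → Fin (n i) → MvPolynomial (Option (Fin (ρ i))) ℂ)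
    (g : ∀ i, Matrix (Fin (n i)) (Fin (n i)) ℂ) (t : Fin k → ℕ) :
    Gv (val h P g t) = (blockDiagonal' fun i => pM (h i) (P i) (t i : ℝ))ᵀ * (blockDiagonal' g)ᵀ := by
  unfold Gv
  rw [← Matrix.transpose_mul, ← blockDiagonal'_mul, blockDiagonal'_transpose]
  rfl

lemma Z_mv {h : ∀ i, Fin (ρ i) → ℚ⟦X⟧} {P : ∀ i, Fin (n i) → Fin (n i) → MvPolynomial (Option (Fin (ρ i))) ℂ}
    {t : Fin k → ℕ} (γ : ∀ i, Matrix (Fin (n i)) (Fin (n i)) ℚ) (CW : Matrix (Fin w) (Fin w) ℂ) :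
    ex (Fin w) (Gv (val h P (fun i => cmx (γ i)) t)) * fromBlocks 1 0 0 CW =
      (ex (Fin w) (Gv (val h P (fun _ => 1) t)) * fromBlocks 1 0 0 CW) * (cmx (hat w γ))ᵀ := by
  have h1 : cmx (hat w γ) = fromBlocks (blockDiagonal' fun i => cmx (γ i)) 0 0 1 := by
    show (hat w γ).map (algebraMap ℚ ℂ) = _
    unfold hat
    rw [fromBlocks_map, blockDiagonal'_map _ _ (map_zero _), Matrix.map_zero _ (map_zero _), Matrix.map_zero _ (map_zero _),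
      Matrix.map_one _ (map_zero _) (map_one _)]
  rw [h1, fromBlocks_transpose, Matrix.transpose_zero, Matrix.transpose_zero, Matrix.transpose_one, Gv_val, Gv_val]
  have h2 : (blockDiagonal' fun i => (1 : Matrix (Fin (n i)) (Fin (n i)) ℂ)) = 1 := blockDiagonal'_one
  rw [h2, Matrix.transpose_one, Matrix.mul_one]
  show fromBlocks _ 0 0 1 * fromBlocks 1 0 0 CW = fromBlocks _ 0 0 1 * fromBlocks 1 0 0 CW * fromBlocks _ 0 0 1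
  rw [fromBlocks_multiply, fromBlocks_multiply, fromBlocks_multiply]
  simp

/-- minors at a moved point -/
lemma le_back {I : Type} [Fintype I] [DecidableEq I] {lev : I → ℤ} {Z : Matrix I I ℂ} (hZ : IsUnit Z.det) {γ : Matrix I I ℚ}
    (hγ : IsUnit γ.det) (h : Le lev Z (Z * (cmx γ⁻¹)ᵀ)) : Le lev (Z * (cmx γ)ᵀ) Z := by
  have hg : IsUnit (cmx γ).det := by
    have h3 : (cmx γ).det = algebraMap ℚ ℂ γ.det := (RingHom.map_det (algebraMap ℚ ℂ) γ).symm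
    rw [h3]
    exact hγ.map (algebraMap ℚ ℂ)
  have hgT : IsUnit ((cmx γ)ᵀ).det := by rw [Matrix.det_transpose]; exact hg
  have hmul : ∀ X Y : Matrix I I ℚ, cmx (X * Y) = cmx X * cmx Y := fun X Y => Matrix.map_mul
  have hinv : cmx γ⁻¹ = (cmx γ)⁻¹ := by
    symm
    apply Matrix.inv_eq_left_inv
    rw [← hmul, Matrix.nonsing_inv_mul _ hγ]
    exact Matrix.map_one _ (map_zero _) (map_one _)
  have hinvT : cmx (γᵀ)⁻¹ = ((cmx γ)ᵀ)⁻¹ := by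
    symm
    apply Matrix.inv_eq_left_inv
    have e1 : cmx γᵀ = (cmx γ)ᵀ := rfl
    rw [← e1, ← hmul, Matrix.nonsing_inv_mul _ (by rw [Matrix.det_transpose]; exact hγ)]
    exact Matrix.map_one _ (map_zero _) (map_one _)
  have hgi : (cmx γ⁻¹)ᵀ = ((cmx γ)ᵀ)⁻¹ := by rw [hinv, Matrix.transpose_nonsing_inv]
  have hZ1 : Z⁻¹ * Z = 1 := Matrix.nonsing_inv_mul _ hZ
  intro s X hs
  set X' : Fin s → Matrix I I ℚ := fun u => γᵀ * X u * (γᵀ)⁻¹ with hX'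
  have hc : ∀ u, cmx (X' u) = (cmx γ)ᵀ * cmx (X u) * ((cmx γ)ᵀ)⁻¹ := by
    intro u
    rw [hX']
    show cmx (γᵀ * X u * (γᵀ)⁻¹) = _
    rw [hmul, hmul, hinvT]
    rfl
  have e1 : ∀ u, Z * (X' u).map (algebraMap ℚ ℂ) * Z⁻¹ = (Z * (cmx γ)ᵀ) * (X u).map (algebraMap ℚ ℂ) * (Z * (cmx γ)ᵀ)⁻¹ := by
    intro u
    have e2 : (X' u).map (algebraMap ℚ ℂ) = (cmx γ)ᵀ * cmx (X u) * ((cmx γ)ᵀ)⁻¹ := hc u
    rw [e2, Matrix.mul_inv_rev]
    simp only [Matrix.mul_assoc]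
  have e3 : ∀ u, (Z * (cmx γ⁻¹)ᵀ) * (X' u).map (algebraMap ℚ ℂ) * (Z * (cmx γ⁻¹)ᵀ)⁻¹ = Z * (X u).map (algebraMap ℚ ℂ) * Z⁻¹ := by
    intro u
    have e2 : (X' u).map (algebraMap ℚ ℂ) = (cmx γ)ᵀ * cmx (X u) * ((cmx γ)ᵀ)⁻¹ := hc u
    rw [e2, Matrix.mul_inv_rev, hgi, Matrix.nonsing_inv_nonsing_inv _ hgT]
    calc Z * ((cmx γ)ᵀ)⁻¹ * ((cmx γ)ᵀ * cmx (X u) * ((cmx γ)ᵀ)⁻¹) * ((cmx γ)ᵀ * Z⁻¹) =
          Z * (((cmx γ)ᵀ)⁻¹ * (cmx γ)ᵀ) * cmx (X u) * (((cmx γ)ᵀ)⁻¹ * (cmx γ)ᵀ) * Z⁻¹ := by simp only [Matrix.mul_assoc]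
      _ = _ := by
        rw [Matrix.nonsing_inv_mul _ hgT, Matrix.mul_one, Matrix.mul_one]
  have h1 := h s X' hs
  simp only [e1, e3] at h1
  exact h1

end

end Q207.GH
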