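import Pool.Agent.Q207.GH.Cnj

/-!
# Project GH: finiteness of the orbits of Hodge classes
-/

set_option autoImplicit false

open Matrix Finset
open scoped MatrixOrder ComplexOrder

namespace Q207.GH

open Q207.HT (lieA qc)

section kp

variable {I : Type} {q : ℕ}

/-- the tensor power of a matrix -/
def kp (q : ℕ) (A : Matrix I I ℂ) : Matrix (Fin q → I) (Fin q → I) ℂ := Matrix.of fun p y => ∏ l, A (p l) (y l)

lemma kp_apply (A : Matrix I I ℂ) (p y : Fin q → I) : kp q A p y = ∏ l, A (p l) (y l) := rfl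

lemma kp_mul [Fintype I] (A B : Matrix I I ℂ) : kp q (A * B) = kp q A * kp q B := by
  classical
  ext p y
  rw [Matrix.mul_apply]
  simp only [kp_apply, Matrix.mul_apply]
  rw [Finset.prod_univ_sum, Fintype.piFinset_univ]
  exact sum_congr rfl fun z _ => prod_mul_distrib

lemma kp_conjT (A : Matrix I I ℂ) : kp q Aᴴ = (kp q A)ᴴ := by
  ext p y
  rw [Matrix.conjTranspose_apply, kp_apply, kp_apply]
  simp only [Matrix.conjTranspose_apply]
  exact (map_prod (starRingEnd ℂ) _ _).symm

lemma kp_T (A : Matrix I I ℂ) : kp q Aᵀ = (kp q A)ᵀ := rfl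

lemma kp_diag [DecidableEq I] (c : I → ℂ) : kp q (Matrix.diagonal c) = Matrix.diagonal fun w => ∏ l, c (w l) := by
  ext p y
  rw [kp_apply, Matrix.diagonal_apply]
  by_cases h : p = y
  · subst h
    rw [if_pos rfl]
    exact prod_congr rfl fun l _ => by rw [Matrix.diagonal_apply_eq]
  · rw [if_neg h]
    obtain ⟨l, hl⟩ := Function.ne_iff.1 h
    exact prod_eq_zero (mem_univ l) (Matrix.diagonal_apply_ne _ hl)

lemma kp_one [DecidableEq I] : kp q (1 : Matrix I I ℂ) = 1 := by
  rw [← Matrix.diagonal_one, kp_diag]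
  simp

lemma trl_kp [Fintype I] (g : Matrix I I ℂ) (u : (Fin q → I) → ℂ) : trl g u = kp q g *ᵥ u := rfl

end kp

section posdef

variable {I : Type} [Fintype I] [DecidableEq I]

lemma form_coord (Z S : Matrix I I ℂ) (c d : I → ℂ) :
    (c ᵥ* Z) ⬝ᵥ (S *ᵥ star (d ᵥ* Z)) = c ⬝ᵥ ((Z * S * Zᴴ) *ᵥ star d) := by
  rw [Matrix.star_vecMul, Matrix.mulVec_mulVec, Matrix.dotProduct_mulVec, Matrix.vecMul_vecMul, ← Matrix.dotProduct_mulVec,
    Matrix.mul_assoc]

theorem gram {H : ℤ → Submodule ℂ (I → ℂ)} {S Z : Matrix I I ℂ} {lev : I → ℤ} (hS : Pol H S) (hZ : IsUnit Z.det)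
    (hmem : ∀ a, Z a ∈ H (lev a)) :
    (Matrix.diagonal (fun a => Complex.I ^ (lev a)) * (Z * S * Zᴴ)).PosDef := by
  set N := Z * S * Zᴴ with hN
  set M := Matrix.diagonal (fun a => Complex.I ^ (lev a)) * N with hM
  have hNab : ∀ a b, N a b = Z a ⬝ᵥ (S *ᵥ star (Z b)) := by
    intro a b
    rw [hN, Matrix.mul_assoc, Matrix.mul_apply]
    refine sum_congr rfl fun i _ => ?_
    congr 1
  have hN0 : ∀ a b, lev a ≠ lev b → N a b = 0 := fun a b hab => by
    rw [hNab]
    exact hS.orth _ _ hab _ (hmem a) _ (hmem b)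
  have hreal : ∀ y : I → ℂ, ∃ r : ℝ, 0 ≤ r ∧ (y ≠ 0 → 0 < r) ∧ star y ⬝ᵥ (M *ᵥ y) = r := by
    intro y
    set c : ℤ → I → ℂ := fun p a => if lev a = p then star (y a) else 0 with hc
    have hcm : ∀ p, c p ᵥ* Z ∈ H p := by
      intro p
      have h1 : c p ᵥ* Z = ∑ a, c p a • Z a := by
        funext b
        rw [Finset.sum_apply]
        rfl
      rw [h1]
      refine Submodule.sum_mem _ fun a _ => ?_
      by_cases ha : lev a = p
      · rw [← ha]
        exact Submodule.smul_mem _ _ (hmem a)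
      · rw [hc]
        simp only [if_neg ha, zero_smul]
        exact Submodule.zero_mem _
    have hc0 : ∀ p, c p ᵥ* Z = 0 → c p = 0 := by
      intro p h
      have h1 : (c p ᵥ* Z) ᵥ* Z⁻¹ = 0 := by rw [h, Matrix.zero_vecMul]
      rwa [Matrix.vecMul_vecMul, Matrix.mul_nonsing_inv _ hZ, Matrix.vecMul_one] at h1
    have hr : ∀ p, ∃ r : ℝ, 0 ≤ r ∧ (c p ≠ 0 → 0 < r) ∧ Complex.I ^ p * (c p ⬝ᵥ (N *ᵥ star (c p))) = r := by
      intro p
      by_cases h0 : c p ᵥ* Z = 0
      · have h1 := hc0 p h0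
        refine ⟨0, le_rfl, fun h => absurd h1 h, ?_⟩
        rw [h1, zero_dotProduct, mul_zero, Complex.ofReal_zero]
      · obtain ⟨r, hr, hr2⟩ := hS.pos p _ (hcm p) h0
        refine ⟨r, hr.le, fun _ => hr, ?_⟩
        rw [form_coord] at hr2
        exact hr2
    choose r hr0 hr1 hr2 using hr
    refine ⟨∑ p ∈ univ.image lev, r p, sum_nonneg fun p _ => hr0 p, fun hy => ?_, ?_⟩
    · obtain ⟨a, ha⟩ := Function.ne_iff.1 hy
      refine sum_pos' (fun p _ => hr0 p) ⟨lev a, mem_image_of_mem _ (mem_univ a), hr1 _ fun h => ha ?_⟩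
      have h1 := congrFun h a
      rw [hc] at h1
      simp only [if_true] at h1
      exact star_eq_zero.1 h1
    · rw [Complex.ofReal_sum]
      simp only [← hr2]
      have h1 : ∀ p, Complex.I ^ p * (c p ⬝ᵥ (N *ᵥ star (c p))) =
          ∑ a, ∑ b, if lev a = p then Complex.I ^ (lev a) * (star (y a) * (N a b * y b)) else 0 := by
        intro p
        simp only [dotProduct, Matrix.mulVec, mul_sum]
        refine sum_congr rfl fun a _ => sum_congr rfl fun b _ => ?_
        by_cases ha : lev a = p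
        · rw [if_pos ha]
          by_cases hb : lev b = p
          · simp only [hc, Pi.star_apply, if_pos ha, if_pos hb, star_star]
            rw [ha]
          · rw [hN0 a b (fun h => hb (h ▸ ha))]
            simp
        · rw [if_neg ha, hc]
          simp only [if_neg ha, zero_mul, mul_zero]
      simp only [h1]
      rw [sum_comm]
      simp only [dotProduct]
      refine sum_congr rfl fun a _ => ?_
      rw [sum_comm]
      have h2 : ∀ b, ∑ p ∈ univ.image lev, (if lev a = p then Complex.I ^ (lev a) * (star (y a) * (N a b * y b)) else 0) =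
          Complex.I ^ (lev a) * (star (y a) * (N a b * y b)) := by
        intro b
        rw [sum_ite_eq, if_pos (mem_image_of_mem _ (mem_univ a))]
      simp only [h2]
      rw [hM, ← Matrix.mulVec_mulVec, Matrix.mulVec_diagonal]
      simp only [Matrix.mulVec, dotProduct, mul_sum, Pi.star_apply]
      refine sum_congr rfl fun b _ => ?_
      ring
  refine Matrix.PosDef.of_dotProduct_mulVec_pos ?_ fun y hy => ?_
  · rw [← Matrix.isSymmetric_toEuclideanLin_iff, LinearMap.isSymmetric_iff_inner_map_self_real]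
    intro v
    obtain ⟨x, -, -, hx⟩ := hreal (WithLp.ofLp v)
    have h1 : inner ℂ (M.toEuclideanLin v) v = (x : ℂ) := by
      rw [EuclideanSpace.inner_eq_star_dotProduct]
      have h2 : (starRingEnd ℂ) (star (WithLp.ofLp v) ⬝ᵥ (M *ᵥ WithLp.ofLp v)) = (x : ℂ) := by
        rw [hx, Complex.conj_ofReal]
      rw [← h2]
      show _ = star (star (WithLp.ofLp v) ⬝ᵥ (M *ᵥ WithLp.ofLp v))
      rw [← Matrix.star_dotProduct_star, star_star, dotProduct_comm]
      rfl
    rw [h1, Complex.conj_ofReal]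
  · obtain ⟨x, -, hx1, hx⟩ := hreal y
    rw [hx]
    exact_mod_cast hx1 hy

end posdef

end Q207.GH
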