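import Pool.Agent.Q207.GH.Stm

/-!
# Project GH: Pluecker tensors
-/

set_option autoImplicit false

open Matrix Finset

namespace Q207.GH

section gen

variable {F : Type} [Field F]

/-- the contraction of a determinant -/
theorem ctr {K : Type} [Fintype K] [DecidableEq K] {d : ℕ} (f : Fin d → K → F) (c : Fin d → Fin d → K → F) :
    ∑ p : Fin d → K, (∏ j, f j (p j)) * (Matrix.of fun i j => c i j (p j)).det =
      (Matrix.of fun i j => ∑ w, f j w * c i j w).det := by
  classical
  simp only [Matrix.det_apply', mul_sum]
  rw [sum_comm]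
  refine sum_congr rfl fun σ _ => ?_
  simp only [Matrix.of_apply]
  rw [Finset.prod_univ_sum, Fintype.piFinset_univ, mul_sum]
  refine sum_congr rfl fun p _ => ?_
  rw [prod_mul_distrib]
  ring

/-- a functional as a vector -/
lemma fun_vec {K : Type} [Fintype K] [DecidableEq K] (g : (K → F) →ₗ[F] F) (x : K → F) :
    g x = ∑ w, g (Pi.single w 1) * x w := by
  conv_lhs => rw [← Finset.univ_sum_single x, map_sum]
  refine sum_congr rfl fun w _ => ?_
  have h1 : (Pi.single w (x w) : K → F) = x w • Pi.single w 1 := by
    rw [← Pi.single_smul, smul_eq_mul, mul_one]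
  rw [h1, map_smul, smul_eq_mul, mul_comm]

lemma dual_fun {V : Type} [AddCommGroup V] [Module F V] {d : ℕ} {b : Fin d → V} (hb : LinearIndependent F b) :
    ∃ f : Fin d → V →ₗ[F] F, ∀ i j, f j (b i) = if i = j then 1 else 0 := by
  classical
  have hker : LinearMap.ker (Fintype.linearCombination F b) = ⊥ := by
    rw [LinearMap.ker_eq_bot']
    intro x hx
    rw [Fintype.linearCombination_apply] at hx
    exact funext (Fintype.linearIndependent_iff.1 hb x hx)
  obtain ⟨L, hL⟩ := LinearMap.exists_leftInverse_of_injective (Fintype.linearCombination F b) hker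
  refine ⟨fun j => (LinearMap.proj j).comp L, fun i j => ?_⟩
  have h1 : b i = Fintype.linearCombination F b (Pi.single i 1) := by
    rw [Fintype.linearCombination_apply_single, one_smul]
  have h2 := LinearMap.congr_fun hL (Pi.single i (1 : F))
  rw [LinearMap.comp_apply, LinearMap.id_apply] at h2
  show L (b i) j = _
  rw [h1, h2, Pi.single_apply]
  by_cases h : i = j
  · rw [if_pos h, if_pos h.symm]
  · rw [if_neg h, if_neg fun h3 => h h3.symm]

lemma sep_fun {V : Type} [AddCommGroup V] [Module F V] {S : Submodule F V} {x : V} (hx : x ∉ S) :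
    ∃ g : V →ₗ[F] F, g x ≠ 0 ∧ ∀ y ∈ S, g y = 0 := by
  obtain ⟨g, h1, h2⟩ := Submodule.exists_dual_map_eq_bot_of_notMem hx inferInstance
  refine ⟨g, h1, fun y hy => ?_⟩
  have h3 : g y ∈ S.map g := ⟨y, hy, rfl⟩
  rw [h2] at h3
  exact h3

variable {I : Type} [Fintype I] [DecidableEq I] {d q : ℕ}

/-- the derivation -/
def der {F : Type} [CommRing F] {K κ : Type} [Fintype K] [Fintype κ] [DecidableEq κ] (N : Matrix K K F) (u : (κ → K) → F) :
    (κ → K) → F := fun p => ∑ l, ∑ y, N (p l) y * u (Function.update p l y)

/-- the Pluecker tensor -/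
def plk (b : Fin d → (Fin q → I) → F) (p : Fin d × Fin q → I) : F := (Matrix.of fun i j => b i fun a => p (j, a)).det

omit [Fintype I] [DecidableEq I] in
/-- sums over words -/
lemma sum_curry [Fintype I] (G : (Fin d × Fin q → I) → F) :
    ∑ p : Fin d × Fin q → I, G p = ∑ p : Fin d → Fin q → I, G fun x => p x.1 x.2 := by
  classical
  exact (Equiv.sum_comp (Equiv.curry (Fin d) (Fin q) I).symm G).symm

lemma upd_curry (p : Fin d × Fin q → I) (j : Fin d) (a : Fin q) (y : I) (j' : Fin d) :
    (fun a' => Function.update p (j, a) y (j', a')) =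
      Function.update (fun j' a' => p (j', a')) j (Function.update (fun a' => p (j, a')) a y) j' := by
  funext a'
  by_cases h : j' = j
  · subst h
    rw [Function.update_self]
    by_cases h2 : a' = a
    · subst h2
      rw [Function.update_self, Function.update_self]
    · rw [Function.update_of_ne h2, Function.update_of_ne]
      intro h3
      exact h2 (Prod.mk.inj h3).2
  · rw [Function.update_of_ne h, Function.update_of_ne]
    intro h3
    exact h (Prod.mk.inj h3).1

theorem der_plk (N : Matrix I I F) (b : Fin d → (Fin q → I) → F) (p : Fin d × Fin q → I) :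
    der N (plk b) p = ∑ j, Matrix.cramer (Matrix.of fun i j => b i fun a => p (j, a)) (fun i => der N (b i) fun a => p (j, a)) j := by
  unfold der
  rw [Fintype.sum_prod_type]
  refine sum_congr rfl fun j _ => ?_
  have h1 : (fun i => ∑ l, ∑ y, N (p (j, l)) y * b i (Function.update (fun a => p (j, a)) l y)) =
      ∑ l, ∑ y, N (p (j, l)) y • fun i => b i (Function.update (fun a => p (j, a)) l y) := by
    funext i
    simp only [Finset.sum_apply, Pi.smul_apply, smul_eq_mul]
  rw [h1, map_sum, Finset.sum_apply]
  refine sum_congr rfl fun l _ => ?_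
  rw [map_sum, Finset.sum_apply]
  refine sum_congr rfl fun y _ => ?_
  rw [map_smul, Pi.smul_apply, smul_eq_mul, Matrix.cramer_apply]
  congr 1
  unfold plk
  congr 1
  ext i j'
  rw [Matrix.of_apply, Matrix.updateCol_apply, Matrix.of_apply, upd_curry]
  by_cases h : j' = j
  · subst h
    rw [if_pos rfl, Function.update_self]
  · rw [if_neg h, Function.update_of_ne h]

/-- the Pluecker tensor of an invariant subspace is an eigenvector -/
theorem plk_eig {N : Matrix I I F} {b : Fin d → (Fin q → I) → F} {m : Matrix (Fin d) (Fin d) F}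
    (hm : ∀ i, der N (b i) = ∑ l, m i l • b l) : der N (plk b) = m.trace • plk b := by
  funext p
  rw [der_plk, Pi.smul_apply, smul_eq_mul]
  set M : Matrix (Fin d) (Fin d) F := Matrix.of fun i j => b i fun a => p (j, a) with hM
  have h1 : ∀ j, (fun i => der N (b i) fun a => p (j, a)) = fun i => (m * M) i j := by
    intro j
    funext i
    rw [hm i, Finset.sum_apply, Matrix.mul_apply]
    rfl
  simp only [h1, Matrix.cramer_eq_adjugate_mulVec]
  have h2 : ∑ j, (M.adjugate *ᵥ fun i => (m * M) i j) j = (M.adjugate * (m * M)).trace := by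
    unfold Matrix.trace
    refine sum_congr rfl fun j _ => ?_
    rw [Matrix.diag_apply, Matrix.mul_apply]
    rfl
  rw [h2, ← Matrix.mul_assoc, Matrix.trace_mul_cycle, Matrix.mul_adjugate, Matrix.smul_mul, Matrix.one_mul, Matrix.trace_smul,
    smul_eq_mul, mul_comm]
  rfl

lemma det_upd_one (mm : Fin d) (v : Fin d → F) : ((1 : Matrix (Fin d) (Fin d) F).updateCol mm v).det = v mm := by
  rw [← Matrix.cramer_apply, Matrix.cramer_one]
  rfl

/-- a subspace whose Pluecker tensor is killed is invariant -/
theorem stab_plk {N : Matrix I I F} {b : Fin d → (Fin q → I) → F} (hb : LinearIndependent F b) (h0 : der N (plk b) = 0)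
    (mm : Fin d) : der N (b mm) ∈ Submodule.span F (Set.range b) := by
  classical
  by_contra hne
  obtain ⟨g, hg1, hg2⟩ := sep_fun hne
  obtain ⟨f, hf⟩ := dual_fun hb
  set G : Fin d → ((Fin q → I) → F) →ₗ[F] F := Function.update f mm g with hG
  set v : Fin d → (Fin q → I) → F := fun j w => G j (Pi.single w 1) with hv
  have hval : ∀ j (x : (Fin q → I) → F), ∑ w, v j w * x w = G j x := fun j x => (fun_vec (G j) x).symm
  have hsum : ∑ p : Fin d → Fin q → I, (∏ j, v j (p j)) * der N (plk b) (fun x => p x.1 x.2) = 0 := by
    rw [h0]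
    simp
  have hterm : ∀ j0 : Fin d, ∑ p : Fin d → Fin q → I, (∏ j, v j (p j)) *
      Matrix.cramer (Matrix.of fun i j => b i (p j)) (fun i => der N (b i) (p j0)) j0 =
      (Matrix.of fun i j => G j (if j = j0 then der N (b i) else b i)).det := by
    intro j0
    have h1 := ctr v (fun i j => if j = j0 then der N (b i) else b i)
    simp only [hval] at h1
    rw [← h1]
    refine sum_congr rfl fun p _ => ?_
    rw [Matrix.cramer_apply]
    congr 2
    ext i j
    rw [Matrix.updateCol_apply, Matrix.of_apply, Matrix.of_apply]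
    by_cases h : j = j0
    · subst h
      rw [if_pos rfl, if_pos rfl]
    · rw [if_neg h, if_neg h]
  have hall : ∑ j0 : Fin d, (Matrix.of fun i j => G j (if j = j0 then der N (b i) else b i)).det = 0 := by
    rw [← hsum]
    simp only [← hterm]
    rw [sum_comm]
    refine sum_congr rfl fun p _ => ?_
    rw [der_plk, mul_sum]
  rw [sum_eq_single mm] at hall
  · apply hg1
    rw [← hall]
    have h1 : (Matrix.of fun i j => G j (if j = mm then der N (b i) else b i)) =
        (1 : Matrix (Fin d) (Fin d) F).updateCol mm fun i => g (der N (b i)) := by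
      ext i j
      rw [Matrix.of_apply, Matrix.updateCol_apply]
      by_cases h : j = mm
      · subst h
        rw [if_pos rfl, if_pos rfl, hG, Function.update_self]
      · rw [if_neg h, if_neg h, hG, Function.update_of_ne h, hf, Matrix.one_apply]
    rw [h1, det_upd_one]
  · intro j0 _ hj0
    refine Matrix.det_eq_zero_of_column_eq_zero mm fun i => ?_
    rw [Matrix.of_apply, if_neg fun h => hj0 h.symm, hG, Function.update_self]
    exact hg2 _ (Submodule.subset_span ⟨i, rfl⟩)
  · intro h
    exact absurd (mem_univ _) h

/-- the Pluecker tensor determines the subspace -/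
theorem inj_plk {b b' : Fin d → (Fin q → I) → F} (hb : LinearIndependent F b) (h0 : plk b = plk b') :
    Submodule.span F (Set.range b) ≤ Submodule.span F (Set.range b') := by
  classical
  rw [Submodule.span_le]
  rintro _ ⟨mm, rfl⟩
  by_contra hne
  obtain ⟨g, hg1, hg2⟩ := sep_fun hne
  obtain ⟨f, hf⟩ := dual_fun hb
  set G : Fin d → ((Fin q → I) → F) →ₗ[F] F := Function.update f mm g with hG
  set v : Fin d → (Fin q → I) → F := fun j w => G j (Pi.single w 1) with hv
  have hval : ∀ j (x : (Fin q → I) → F), ∑ w, v j w * x w = G j x := fun j x => (fun_vec (G j) x).symm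
  have hterm : ∀ c : Fin d → (Fin q → I) → F, ∑ p : Fin d → Fin q → I, (∏ j, v j (p j)) * plk c (fun x => p x.1 x.2) =
      (Matrix.of fun i j => G j (c i)).det := by
    intro c
    have h1 := ctr v (fun i _ => c i)
    simp only [hval] at h1
    rw [← h1]
    rfl
  have h1 := hterm b
  rw [h0, hterm b'] at h1
  have h2 : (Matrix.of fun i j => G j (b' i)).det = 0 := by
    refine Matrix.det_eq_zero_of_column_eq_zero mm fun i => ?_
    rw [Matrix.of_apply, hG, Function.update_self]
    exact hg2 _ (Submodule.subset_span ⟨i, rfl⟩)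
  have h3 : (Matrix.of fun i j => G j (b i)) = (1 : Matrix (Fin d) (Fin d) F).updateCol mm fun i => g (b i) := by
    ext i j
    rw [Matrix.of_apply, Matrix.updateCol_apply]
    by_cases h : j = mm
    · subst h
      rw [if_pos rfl, hG, Function.update_self]
    · rw [if_neg h, hG, Function.update_of_ne h, hf, Matrix.one_apply]
  rw [h2, h3, det_upd_one] at h1
  exact hg1 h1.symm

/-- the Pluecker tensor of a moved subspace -/
theorem trl_plk (g : Matrix I I F) (b : Fin d → (Fin q → I) → F) : trl g (plk b) = plk fun i => trl g (b i) := by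
  classical
  funext p
  unfold trl
  rw [sum_curry]
  have h1 := ctr (fun (j : Fin d) (w : Fin q → I) => ∏ a, g (p (j, a)) (w a)) (fun i _ => b i)
  refine Eq.trans ?_ h1
  refine sum_congr rfl fun y _ => ?_
  congr 1
  rw [Fintype.prod_prod_type]

/-- the tensor on the words of a given length -/
def pl (b : Fin d → (Fin q → I) → F) (p : Fin (d * q) → I) : F := plk b fun x => p (finProdFinEquiv x)

theorem der_pl (N : Matrix I I F) (b : Fin d → (Fin q → I) → F) (p : Fin (d * q) → I) :
    der N (pl b) p = der N (plk b) fun x => p (finProdFinEquiv x) := by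
  unfold der
  rw [← Equiv.sum_comp finProdFinEquiv]
  refine sum_congr rfl fun x _ => sum_congr rfl fun y _ => ?_
  unfold pl
  congr 2
  funext x'
  by_cases h : x' = x
  · subst h
    rw [Function.update_self, Function.update_self]
  · rw [Function.update_of_ne h, Function.update_of_ne]
    exact fun h2 => h (finProdFinEquiv.injective h2)

theorem trl_pl (g : Matrix I I F) (b : Fin d → (Fin q → I) → F) : trl g (pl b) = pl fun i => trl g (b i) := by
  classical
  funext p
  have h1 := congrFun (trl_plk g b) fun x => p (finProdFinEquiv x)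
  unfold pl
  rw [← h1]
  unfold trl
  rw [← Equiv.sum_comp (Equiv.arrowCongr finProdFinEquiv (Equiv.refl I))]
  refine sum_congr rfl fun y _ => ?_
  congr 1
  · rw [← Equiv.prod_comp finProdFinEquiv]
    refine prod_congr rfl fun x _ => ?_
    simp
  · show plk b _ = plk b y
    congr 1
    funext x
    simp

lemma pl_inj {b b' : Fin d → (Fin q → I) → F} (h : pl b = pl b') : plk b = plk b' := by
  funext p
  have h1 := congrFun h fun x => p (finProdFinEquiv.symm x)
  unfold pl at h1
  simpa using h1

end gen

end Q207.GH
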