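import Pool.Agent.Q207.GH.Plk
import Pool.Agent.Q207.GH.Orb
import Pool.Agent.Q207.GH.Orb1
import Pool.Agent.Q207.GH.So4

/-!
# Project GH: sub-Hodge structures
-/

set_option autoImplicit false

open Matrix Finset

namespace Q207.GH

open Q207.HG (cmx)
open Q207.HT (lieA lieA_apply qc)
open Q207.DB (actM)

section gen

variable {F : Type} [Field F] {I : Type} [Fintype I] [DecidableEq I] {d q : ℕ}

lemma plk_ne {b : Fin d → (Fin q → I) → F} (hb : LinearIndependent F b) : plk b ≠ 0 := by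
  intro h0
  obtain ⟨f, hf⟩ := dual_fun hb
  have h1 := ctr (fun j w => f j (Pi.single w 1)) (fun i _ => b i)
  simp only [← fun_vec] at h1
  have h2 : (Matrix.of fun i j => f j (b i)) = 1 := by
    ext i j
    rw [Matrix.of_apply, hf, Matrix.one_apply]
  rw [h2, Matrix.det_one] at h1
  have h3 : ∀ p : Fin d → Fin q → I, (Matrix.of fun i j => b i (p j)).det = 0 := fun p => congrFun h0 fun x => p x.1 x.2
  simp only [h3, mul_zero, sum_const_zero] at h1
  exact zero_ne_one h1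

omit [Fintype I] [DecidableEq I] in
lemma pl_ne_of {b : Fin d → (Fin q → I) → F} (h : plk b ≠ 0) : pl b ≠ 0 := by
  intro h0
  apply h
  funext p
  have h1 := congrFun h0 fun x => p (finProdFinEquiv.symm x)
  unfold pl at h1
  simpa using h1

omit [DecidableEq I] in
lemma der_plk_of {N : Matrix I I F} {b : Fin d → (Fin q → I) → F} (h : der N (pl b) = 0) : der N (plk b) = 0 := by
  classical
  funext p
  have h1 := congrFun h fun x => p (finProdFinEquiv.symm x)
  rw [der_pl] at h1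
  simpa using h1

omit [DecidableEq I] in
lemma der_pl_of {N : Matrix I I F} {b : Fin d → (Fin q → I) → F} {τ : F} (h : der N (plk b) = τ • plk b) :
    der N (pl b) = τ • pl b := by
  classical
  funext p
  rw [der_pl, h]
  rfl

end gen

section cx

variable {I : Type} [Fintype I] [DecidableEq I] {d q : ℕ}

omit [Fintype I] [DecidableEq I] in
lemma qc_pl (b : Fin d → (Fin q → I) → ℚ) : qc (pl b) = pl fun i => qc (b i) := by
  funext p
  exact RingHom.map_det (algebraMap ℚ ℂ) (Matrix.of fun i j => b i fun a => p (finProdFinEquiv (j, a)))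

omit [Fintype I] [DecidableEq I] in
lemma qc_li {b : Fin d → (Fin q → I) → ℚ} (hb : LinearIndependent ℚ b) : LinearIndependent ℂ fun i => qc (b i) := by
  rw [Fintype.linearIndependent_iff]
  intro z hz i
  refine Pool.Agent.Q195.HT.indepQ hb (z := z) (fun w => ?_) i
  have h1 := congrFun hz w
  rw [Finset.sum_apply] at h1
  exact h1

lemma eig_int {H : ℤ → Submodule ℂ (I → ℂ)} (hH : DirectSum.IsInternal H) {Φ : Matrix I I ℂ}
    (hΦ : ∀ p, ∀ v ∈ H p, v ᵥ* Φ = (p : ℂ) • v) {x : (Fin q → I) → ℂ} (hx : x ≠ 0) {τ : ℂ} (h : lieA Φᵀ x = τ • x) :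
    ∃ m : ℤ, τ = m := by
  obtain ⟨Z, lev, hZ, hmem⟩ := Pool.Agent.Q195.HT.adaptedI hH
  have hZ1 : Z * Z⁻¹ = 1 := Matrix.mul_nonsing_inv _ hZ
  have hZ2 : Z⁻¹ * Z = 1 := Matrix.nonsing_inv_mul _ hZ
  have h1 : x ᵥ* kp q Z⁻¹ = actM (fun _ => (Z⁻¹)ᵀ) x := by
    funext w
    rw [Q207.DB.actM_apply]
    refine sum_congr rfl fun y _ => ?_
    rw [mul_comm]
    rfl
  have h2 : lieA (Matrix.diagonal fun a => ((lev a : ℤ) : ℂ)) (actM (fun _ => (Z⁻¹)ᵀ) x) = actM (fun _ => (Z⁻¹)ᵀ) (lieA Φᵀ x) := by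
    refine Pool.Agent.Q195.HT.lieA_actM ?_ x
    intro _
    have h3 : Z * Φ = Matrix.diagonal (fun a => ((lev a : ℤ) : ℂ)) * Z := by
      ext a b
      rw [Matrix.diagonal_mul]
      exact congrFun (hΦ _ _ (hmem a)) b
    have h4 : Φ * Z⁻¹ = Z⁻¹ * Matrix.diagonal (fun a => ((lev a : ℤ) : ℂ)) := by
      calc Φ * Z⁻¹ = Z⁻¹ * (Z * Φ) * Z⁻¹ := by rw [← Matrix.mul_assoc, hZ2, Matrix.one_mul]
        _ = Z⁻¹ * Matrix.diagonal (fun a => ((lev a : ℤ) : ℂ)) * (Z * Z⁻¹) := by rw [h3]; simp only [Matrix.mul_assoc]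
        _ = _ := by rw [hZ1, Matrix.mul_one]
    have h5 := congrArg Matrix.transpose h4
    rw [Matrix.transpose_mul, Matrix.transpose_mul, Matrix.diagonal_transpose] at h5
    exact h5.symm
  rw [h, map_smul, ← h1] at h2
  have hy0 : x ᵥ* kp q Z⁻¹ ≠ 0 := by
    intro h0
    apply hx
    have h3 : (x ᵥ* kp q Z⁻¹) ᵥ* kp q Z = x := by
      rw [Matrix.vecMul_vecMul, ← kp_mul, hZ2, kp_one, Matrix.vecMul_one]
    rw [← h3, h0, Matrix.zero_vecMul]
  obtain ⟨w, hw⟩ := Function.ne_iff.1 hy0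
  have h3 := congrFun h2 w
  rw [Pool.Agent.Q195.HT.lieA_diagonal, Pi.smul_apply, smul_eq_mul] at h3
  refine ⟨∑ l, lev (w l), ?_⟩
  rw [← mul_right_cancel₀ hw h3]
  push_cast
  rfl

omit [DecidableEq I] in
lemma oper_conj {H : ℤ → Submodule ℂ (I → ℂ)} (hH : DirectSum.IsInternal H)
    (hHc : ∀ p, ∀ v ∈ H p, (fun a => (starRingEnd ℂ) (v a)) ∈ H (-p)) {Φ : Matrix I I ℂ}
    (hΦ : ∀ p, ∀ v ∈ H p, v ᵥ* Φ = (p : ℂ) • v) (a b : I) : (starRingEnd ℂ) (Φ a b) = -Φ a b := by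
  classical
  have h1 : ∀ v : I → ℂ, v ᵥ* Φ.map (starRingEnd ℂ) = v ᵥ* (-Φ) := by
    intro v
    have hv : v ∈ (⨆ p, H p) := by
      rw [hH.submodule_iSup_eq_top]
      exact Submodule.mem_top
    induction hv using Submodule.iSup_induction' with
    | mem p v hv =>
      have h2 := hΦ _ _ (hHc p v hv)
      rw [Matrix.vecMul_neg, hΦ p v hv]
      funext b
      have h3 := congrArg (starRingEnd ℂ) (congrFun h2 b)
      have h4 : (v ᵥ* Φ.map (starRingEnd ℂ)) b = (starRingEnd ℂ) (((fun a => (starRingEnd ℂ) (v a)) ᵥ* Φ) b) := by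
        simp only [Matrix.vecMul, dotProduct, map_sum, map_mul, Complex.conj_conj, Matrix.map_apply]
      rw [h4, h3]
      simp
    | zero => rw [Matrix.zero_vecMul, Matrix.zero_vecMul]
    | add v w _ _ h1 h2 => rw [Matrix.add_vecMul, Matrix.add_vecMul, h1, h2]
  have h2 := congrFun (h1 (Pi.single a 1)) b
  rw [Matrix.single_one_vecMul, Matrix.single_one_vecMul] at h2
  exact h2

/-- a rational eigenvector is a Hodge class -/
theorem eig_zero {H : ℤ → Submodule ℂ (I → ℂ)} (hH : DirectSum.IsInternal H)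
    (hHc : ∀ p, ∀ v ∈ H p, (fun a => (starRingEnd ℂ) (v a)) ∈ H (-p)) {Φ : Matrix I I ℂ}
    (hΦ : ∀ p, ∀ v ∈ H p, v ᵥ* Φ = (p : ℂ) • v) {u : (Fin q → I) → ℚ} (hu : u ≠ 0) {τ : ℂ}
    (h : lieA Φᵀ (qc u) = τ • qc u) : lieA Φᵀ (qc u) = 0 := by
  obtain ⟨p, hp⟩ := Function.ne_iff.1 hu
  have hp' : ((u p : ℚ) : ℂ) ≠ 0 := by exact_mod_cast hp
  have hx : qc u ≠ 0 := fun h0 => hp' (congrFun h0 p)
  obtain ⟨m, rfl⟩ := eig_int hH hΦ hx h
  have h2 := congrFun h p
  have h3 := congrArg (starRingEnd ℂ) h2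
  have h4 : (starRingEnd ℂ) (lieA Φᵀ (qc u) p) = -lieA Φᵀ (qc u) p := by
    rw [lieA_apply, map_sum, ← sum_neg_distrib]
    refine sum_congr rfl fun l _ => ?_
    rw [map_sum, ← sum_neg_distrib]
    refine sum_congr rfl fun y _ => ?_
    rw [map_mul, Matrix.transpose_apply, oper_conj hH hHc hΦ, neg_mul, neg_inj]
    congr 1
    exact map_ratCast (starRingEnd ℂ) _
  have h7 : (starRingEnd ℂ) (qc u p) = qc u p := map_ratCast (starRingEnd ℂ) _
  rw [h4, h2, Pi.smul_apply, smul_eq_mul, map_mul, map_intCast, h7] at h3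
  have h5 : (m : ℂ) * ((u p : ℚ) : ℂ) = 0 := self_eq_neg.1 h3.symm
  have h6 : (m : ℂ) = 0 := (mul_eq_zero.1 h5).resolve_right hp'
  rw [h, h6, zero_smul]

/-- the complex span of a rational subspace -/
def cs (U : Submodule ℚ ((Fin q → I) → ℚ)) : Submodule ℂ ((Fin q → I) → ℂ) := Submodule.span ℂ {x | ∃ u ∈ U, x = qc u}

omit [Fintype I] [DecidableEq I] in
lemma cs_span (b : Fin d → (Fin q → I) → ℚ) :
    cs (Submodule.span ℚ (Set.range b)) = Submodule.span ℂ (Set.range fun i => qc (b i)) := by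
  apply le_antisymm
  · unfold cs
    rw [Submodule.span_le]
    rintro _ ⟨u, hu, rfl⟩
    obtain ⟨c, rfl⟩ := (Submodule.mem_span_range_iff_exists_fun ℚ).1 hu
    refine (Submodule.mem_span_range_iff_exists_fun ℂ).2 ⟨fun i => (c i : ℂ), ?_⟩
    funext p
    show (∑ i, (c i : ℂ) • qc (b i)) p = (((∑ i, c i • b i : (Fin q → I) → ℚ) p : ℚ) : ℂ)
    simp only [Finset.sum_apply, Pi.smul_apply, smul_eq_mul]
    push_cast
    rfl
  · rw [Submodule.span_le]
    rintro _ ⟨i, rfl⟩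
    exact Submodule.subset_span ⟨b i, Submodule.subset_span ⟨i, rfl⟩, rfl⟩

/-- the Pluecker tensor of a sub-Hodge structure is a Hodge class -/
theorem sub_pl {H : ℤ → Submodule ℂ (I → ℂ)} (hH : DirectSum.IsInternal H)
    (hHc : ∀ p, ∀ v ∈ H p, (fun a => (starRingEnd ℂ) (v a)) ∈ H (-p)) {Φ : Matrix I I ℂ}
    (hΦ : ∀ p, ∀ v ∈ H p, v ᵥ* Φ = (p : ℂ) • v) {b : Fin d → (Fin q → I) → ℚ} (hb : LinearIndependent ℚ b)
    (hs : ∀ i, lieA Φᵀ (qc (b i)) ∈ Submodule.span ℂ (Set.range fun i => qc (b i))) : lieA Φᵀ (qc (pl b)) = 0 := by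
  choose m hm using fun i => (Submodule.mem_span_range_iff_exists_fun ℂ).1 (hs i)
  have h1 := der_pl_of (plk_eig (N := Φᵀ) (b := fun i => qc (b i)) (m := Matrix.of m) fun i => (hm i).symm)
  refine eig_zero hH hHc hΦ (u := pl b) (pl_ne_of (plk_ne hb)) (τ := (Matrix.of m).trace) ?_
  rw [qc_pl]
  exact h1

/-- a subspace with a Pluecker tensor which is a Hodge class is a sub-Hodge structure -/
theorem pl_sub {Φ : Matrix I I ℂ} {b : Fin d → (Fin q → I) → ℚ} (hb : LinearIndependent ℚ b)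
    (h : lieA Φᵀ (qc (pl b)) = 0) (i : Fin d) : lieA Φᵀ (qc (b i)) ∈ Submodule.span ℂ (Set.range fun i => qc (b i)) := by
  rw [qc_pl] at h
  exact stab_plk (qc_li hb) (der_plk_of h) i

/-- the action of an invertible matrix is injective -/
lemma trl_li {g : Matrix I I ℚ} (hg : IsUnit g.det) {b : Fin d → (Fin q → I) → ℚ} (hb : LinearIndependent ℚ b) :
    LinearIndependent ℚ fun i => trl g (b i) := by
  rw [Fintype.linearIndependent_iff] at hb ⊢
  intro c hc
  apply hb c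
  have hlin : ∀ (g : Matrix I I ℚ) (c : Fin d → ℚ) (b : Fin d → (Fin q → I) → ℚ), trl g (∑ i, c i • b i) = ∑ i, c i • trl g (b i) := by
    intro g c b
    funext p
    simp only [trl, Finset.sum_apply, Pi.smul_apply, smul_eq_mul, mul_sum]
    rw [sum_comm]
    exact sum_congr rfl fun i _ => sum_congr rfl fun y _ => by ring
  have hmul : ∀ (g g' : Matrix I I ℚ) (u : (Fin q → I) → ℚ), trl g (trl g' u) = trl (g * g') u := by
    intro g g' u
    funext p
    simp only [trl, mul_sum, Matrix.mul_apply]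
    rw [sum_comm]
    refine sum_congr rfl fun z _ => ?_
    rw [Finset.prod_univ_sum, Fintype.piFinset_univ, sum_mul]
    refine sum_congr rfl fun y _ => ?_
    rw [prod_mul_distrib]
    ring
  have hone : ∀ u : (Fin q → I) → ℚ, trl 1 u = u := by
    intro u
    funext p
    unfold trl
    rw [sum_eq_single p]
    · rw [prod_eq_one fun l _ => Matrix.one_apply_eq _, one_mul]
    · intro y _ hy
      obtain ⟨l, hl⟩ := Function.ne_iff.1 hy
      rw [prod_eq_zero (mem_univ l) (Matrix.one_apply_ne fun h => hl h.symm : (1 : Matrix I I ℚ) (p l) (y l) = 0), zero_mul]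
    · intro h
      exact absurd (mem_univ p) h
  have h1 : trl g⁻¹ (trl g (∑ i, c i • b i)) = 0 := by
    rw [hlin, hc]
    funext p
    simp [trl]
  rw [hmul, Matrix.nonsing_inv_mul _ hg, hone] at h1
  exact h1

end cx

end Q207.GH
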