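import Pool.Agent.Q207.GH.Plk2

/-!
# Project GH: sub-Hodge structures, transfer
-/

set_option autoImplicit false

open Matrix Finset

namespace Q207.GH

open Q207.HG (cmx)
open Q207.HT (lieA lieA_apply qc)

variable {I : Type} [Fintype I] [DecidableEq I] {d q : ℕ}

/-- sub-Hodge structures -/
def Sb (Φ : Matrix I I ℂ) (U : Submodule ℚ ((Fin q → I) → ℚ)) : Prop := ∀ u ∈ U, lieA Φᵀ (qc u) ∈ cs U

/-- the moved subspace -/
noncomputable def mvd (g : Matrix I I ℚ) (U : Submodule ℚ ((Fin q → I) → ℚ)) : Submodule ℚ ((Fin q → I) → ℚ) :=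
  Submodule.span ℚ {x | ∃ u ∈ U, x = trl g u}

omit [DecidableEq I] in
lemma sb_span {Φ : Matrix I I ℂ} {b : Fin d → (Fin q → I) → ℚ} :
    Sb Φ (Submodule.span ℚ (Set.range b)) ↔ ∀ i, lieA Φᵀ (qc (b i)) ∈ Submodule.span ℂ (Set.range fun i => qc (b i)) := by
  constructor
  · intro h i
    rw [← cs_span]
    exact h _ (Submodule.subset_span ⟨i, rfl⟩)
  · intro h u hu
    rw [cs_span]
    obtain ⟨c, rfl⟩ := (Submodule.mem_span_range_iff_exists_fun ℚ).1 hu
    have h1 : qc (∑ i, c i • b i) = ∑ i, (c i : ℂ) • qc (b i) := by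
      funext p
      show (((∑ i, c i • b i : (Fin q → I) → ℚ) p : ℚ) : ℂ) = (∑ i, (c i : ℂ) • qc (b i)) p
      simp only [Finset.sum_apply, Pi.smul_apply, smul_eq_mul]
      push_cast
      rfl
    rw [h1, map_sum]
    refine Submodule.sum_mem _ fun i _ => ?_
    rw [map_smul]
    exact Submodule.smul_mem _ _ (h i)

omit [DecidableEq I] in
lemma mvd_span (g : Matrix I I ℚ) (b : Fin d → (Fin q → I) → ℚ) :
    mvd g (Submodule.span ℚ (Set.range b)) = Submodule.span ℚ (Set.range fun i => trl g (b i)) := by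
  apply le_antisymm
  · unfold mvd
    rw [Submodule.span_le]
    rintro _ ⟨u, hu, rfl⟩
    obtain ⟨c, rfl⟩ := (Submodule.mem_span_range_iff_exists_fun ℚ).1 hu
    refine (Submodule.mem_span_range_iff_exists_fun ℚ).2 ⟨c, ?_⟩
    funext p
    simp only [trl, Finset.sum_apply, Pi.smul_apply, smul_eq_mul, mul_sum]
    rw [sum_comm]
    exact sum_congr rfl fun i _ => sum_congr rfl fun y _ => by ring
  · rw [Submodule.span_le]
    rintro _ ⟨i, rfl⟩
    exact Submodule.subset_span ⟨b i, Submodule.subset_span ⟨i, rfl⟩, rfl⟩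

omit [DecidableEq I] in
lemma ex_basis (U : Submodule ℚ ((Fin q → I) → ℚ)) :
    ∃ (d : ℕ) (b : Fin d → (Fin q → I) → ℚ), LinearIndependent ℚ b ∧ U = Submodule.span ℚ (Set.range b) := by
  classical
  refine ⟨_, fun i => ((Module.finBasis ℚ U i : U) : (Fin q → I) → ℚ), ?_, ?_⟩
  · exact (Module.finBasis ℚ U).linearIndependent.map' U.subtype (Submodule.ker_subtype U)
  · have h1 := congrArg (Submodule.map U.subtype) (Module.finBasis ℚ U).span_eq
    rw [Submodule.map_top, Submodule.range_subtype, Submodule.map_span, ← Set.range_comp] at h1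
    exact h1.symm

section
variable {H : ℤ → Submodule ℂ (I → ℂ)} (hH : DirectSum.IsInternal H)
  (hHc : ∀ p, ∀ v ∈ H p, (fun a => (starRingEnd ℂ) (v a)) ∈ H (-p)) {Φ : Matrix I I ℂ}
  (hΦ : ∀ p, ∀ v ∈ H p, v ᵥ* Φ = (p : ℂ) • v)
include hH hHc hΦ

/-- transfer of the stability -/
theorem sub_move {g : Matrix I I ℚ} (hg : IsUnit g.det)
    (hmove : ∀ (q' : ℕ) (u : (Fin q' → I) → ℚ), lieA Φᵀ (qc u) = 0 → lieA Φᵀ (qc (trl g u)) = 0)
    {U : Submodule ℚ ((Fin q → I) → ℚ)} (hU : Sb Φ U) : Sb Φ (mvd g U) := by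
  obtain ⟨d, b, hb, rfl⟩ := ex_basis U
  rw [mvd_span, sb_span]
  have h1 := sub_pl hH hHc hΦ hb (sb_span.1 hU)
  have h2 := hmove _ _ h1
  rw [trl_pl] at h2
  exact pl_sub (trl_li hg hb) h2

/-- transfer of the finiteness -/
theorem sub_fin {Γ : Set (Matrix I I ℚ)} (hΓ : ∀ g ∈ Γ, IsUnit g.det)
    (hfin : ∀ (q' : ℕ) (u : (Fin q' → I) → ℚ), lieA Φᵀ (qc u) = 0 → {x | ∃ g ∈ Γ, x = trl g u}.Finite)
    {U : Submodule ℚ ((Fin q → I) → ℚ)} (hU : Sb Φ U) : {U' | ∃ g ∈ Γ, U' = mvd g U}.Finite := by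
  classical
  obtain ⟨d, b, hb, rfl⟩ := ex_basis U
  have h1 := hfin _ _ (sub_pl hH hHc hΦ hb (sb_span.1 hU))
  set f : ((Fin (d * q) → I) → ℚ) → Submodule ℚ ((Fin q → I) → ℚ) := fun x =>
    if h : ∃ b' : Fin d → (Fin q → I) → ℚ, LinearIndependent ℚ b' ∧ pl b' = x then Submodule.span ℚ (Set.range h.choose) else ⊥
    with hf
  refine (h1.image f).subset ?_
  rintro _ ⟨g, hg, rfl⟩
  refine ⟨trl g (pl b), ⟨g, hg, rfl⟩, ?_⟩
  have hli := trl_li (hΓ g hg) hb
  have hex : ∃ b' : Fin d → (Fin q → I) → ℚ, LinearIndependent ℚ b' ∧ pl b' = trl g (pl b) :=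
    ⟨fun i => trl g (b i), hli, (trl_pl g b).symm⟩
  rw [hf]
  simp only [dif_pos hex]
  rw [mvd_span]
  have h2 : pl hex.choose = pl fun i => trl g (b i) := by rw [hex.choose_spec.2, trl_pl]
  exact le_antisymm (inj_plk hex.choose_spec.1 (pl_inj h2)) (inj_plk hli (pl_inj h2.symm))

/-- transfer of the infinitesimal stability, complex operators -/
theorem sub_stabC {N : Matrix I I ℂ}
    (hN : ∀ (q' : ℕ) (u : (Fin q' → I) → ℚ), lieA Φᵀ (qc u) = 0 → lieA N (qc u) = 0)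
    {U : Submodule ℚ ((Fin q → I) → ℚ)} (hU : Sb Φ U) : Sb Nᵀ U := by
  obtain ⟨d, b, hb, rfl⟩ := ex_basis U
  rw [sb_span]
  intro i
  rw [Matrix.transpose_transpose]
  exact pl_sub (Φ := Nᵀ) hb (by
    rw [Matrix.transpose_transpose]
    exact hN _ _ (sub_pl hH hHc hΦ hb (sb_span.1 hU))) i

/-- transfer of the infinitesimal stability -/
theorem sub_stab {N : Matrix I I ℚ}
    (hN : ∀ (q' : ℕ) (u : (Fin q' → I) → ℚ), lieA Φᵀ (qc u) = 0 → lieA (cmx N) (qc u) = 0)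
    {U : Submodule ℚ ((Fin q → I) → ℚ)} (hU : Sb Φ U) {u : (Fin q → I) → ℚ} (hu : u ∈ U) : der N u ∈ U := by
  obtain ⟨d, b, hb, rfl⟩ := ex_basis U
  have h1 := (lie_cast N (pl b)).1 (hN _ _ (sub_pl hH hHc hΦ hb (sb_span.1 hU)))
  have h2 : der N (pl b) = 0 := funext h1
  have h3 := stab_plk hb (der_plk_of h2)
  obtain ⟨c, rfl⟩ := (Submodule.mem_span_range_iff_exists_fun ℚ).1 hu
  have h4 : der N (∑ i, c i • b i) = ∑ i, c i • der N (b i) := by
    funext p
    simp only [der, Finset.sum_apply, Pi.smul_apply, smul_eq_mul, mul_sum]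
    refine (sum_congr rfl fun l _ => sum_comm).trans (sum_comm.trans ?_)
    exact sum_congr rfl fun i _ => sum_congr rfl fun l _ => sum_congr rfl fun y _ => by ring
  rw [h4]
  exact Submodule.sum_mem _ fun i _ => Submodule.smul_mem _ _ (h3 i)

end

end Q207.GH
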