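import Pool.Agent.Q207.GH.Sp2
import Pool.Agent.Q207.GH.Fin

/-!
# Project GH: generators in the symplectic case, the end
-/

set_option autoImplicit false

open Matrix Finset

namespace Q207.GH

open Q207.DB (BD Okf Dl)
open Q207.HG (cmx hB Grd lkL)
open Q207.HT (lieA lieA_apply lieA_add lieA_smul lieA_zero qc InvL GenL mix)

variable {k : ℕ} {n : Fin k → ℕ} {w : ℕ}

/-- an integral matrix as a complex matrix -/
def ic {m : ℕ} (Q : Matrix (Fin m) (Fin m) ℤ) : Matrix (Fin m) (Fin m) ℂ := Q.map (Int.cast : ℤ → ℂ)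

/-- an integral matrix as a rational matrix -/
def ir {m : ℕ} (Q : Matrix (Fin m) (Fin m) ℤ) : Matrix (Fin m) (Fin m) ℚ := Q.map (Int.cast : ℤ → ℚ)

lemma ic_T {m : ℕ} {Q : Matrix (Fin m) (Fin m) ℤ} (hQ : Qᵀ = -Q) : (ic Q)ᵀ = -ic Q := by
  ext a b
  have h1 := congrFun (congrFun hQ a) b
  rw [Matrix.transpose_apply, Matrix.neg_apply] at h1
  simp only [ic, Matrix.transpose_apply, Matrix.neg_apply, Matrix.map_apply]
  rw [h1, Int.cast_neg]

lemma ic_det {m : ℕ} {Q : Matrix (Fin m) (Fin m) ℤ} (hQ : Q.det ≠ 0) : IsUnit (ic Q).det := by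
  have h1 : (ic Q).det = ((Q.det : ℤ) : ℂ) := (RingHom.map_det (Int.castRingHom ℂ) Q).symm
  rw [h1, isUnit_iff_ne_zero]
  exact_mod_cast hQ

lemma ir_det {m : ℕ} {Q : Matrix (Fin m) (Fin m) ℤ} (hQ : Q.det ≠ 0) : IsUnit (ir Q).det := by
  have h1 : (ir Q).det = ((Q.det : ℤ) : ℚ) := (RingHom.map_det (Int.castRingHom ℚ) Q).symm
  rw [h1, isUnit_iff_ne_zero]
  exact_mod_cast hQ

lemma ir_inv {m : ℕ} {Q : Matrix (Fin m) (Fin m) ℤ} (hQ : Q.det ≠ 0) : ((ir Q)⁻¹).map (fun x : ℚ => (x : ℂ)) = (ic Q)⁻¹ := by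
  have h1 : (((ir Q)⁻¹).map (algebraMap ℚ ℂ)) * ic Q = 1 := by
    have h2 : ic Q = (ir Q).map (algebraMap ℚ ℂ) := by
      ext a b
      simp only [ic, ir, Matrix.map_apply]
      simp
    rw [h2, ← Matrix.map_mul, Matrix.nonsing_inv_mul _ (ir_det hQ)]
    exact Matrix.map_one _ (map_zero _) (map_one _)
  exact (Matrix.inv_eq_left_inv h1).symm

/-- the transvections preserve the form -/
lemma tv_iso {m : ℕ} {Q : Matrix (Fin m) (Fin m) ℤ} (hQ : Qᵀ = -Q) (z : Fin m → ℤ) (a : ℤ) :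
    (1 + a • tv Q z)ᵀ * Q * (1 + a • tv Q z) = Q := by
  have hz : z ⬝ᵥ (z ᵥ* Q) = 0 := by
    have h1 : z ⬝ᵥ (z ᵥ* Q) = -(z ⬝ᵥ (z ᵥ* Q)) := by
      conv_lhs => rw [dotProduct_comm, ← Matrix.dotProduct_mulVec, ← Matrix.vecMul_transpose, hQ, Matrix.vecMul_neg,
        dotProduct_neg]
    omega
  have hqz : Q *ᵥ z = -(z ᵥ* Q) := by
    rw [← Matrix.vecMul_transpose, hQ, Matrix.vecMul_neg]
  have e1 : (tv Q z)ᵀ * Q = vecMulVec (z ᵥ* Q) (z ᵥ* Q) := by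
    rw [tv, Matrix.transpose_vecMulVec, Matrix.vecMulVec_mul]
  have e2 : Q * tv Q z = -vecMulVec (z ᵥ* Q) (z ᵥ* Q) := by
    rw [tv, Matrix.mul_vecMulVec, hqz, Matrix.neg_vecMulVec]
  have e3 : vecMulVec (z ᵥ* Q) (z ᵥ* Q) * tv Q z = 0 := by
    rw [tv, Matrix.vecMulVec_mul_vecMulVec, dotProduct_comm, hz, zero_smul]
    ext a b
    simp [vecMulVec_apply]
  rw [Matrix.transpose_add, Matrix.transpose_one, Matrix.transpose_smul]
  calc (1 + a • (tv Q z)ᵀ) * Q * (1 + a • tv Q z) = Q + a • ((tv Q z)ᵀ * Q + Q * tv Q z) + (a * a) • ((tv Q z)ᵀ * Q * tv Q z) := by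
        simp only [Matrix.add_mul, Matrix.mul_add, Matrix.one_mul, Matrix.mul_one, Matrix.smul_mul, Matrix.mul_smul, smul_smul,
          smul_add, Matrix.mul_assoc]
        abel
    _ = Q := by rw [e1, e2, e3, add_neg_cancel, smul_zero, smul_zero, add_zero, add_zero]

/-- the operators which are trivial on the second summand -/
def em (w : ℕ) {R : Type} [Zero R] (X : ∀ i, Matrix (Fin (n i)) (Fin (n i)) R) :
    Matrix ((Σ i, Fin (n i)) ⊕ Fin w) ((Σ i, Fin (n i)) ⊕ Fin w) R := fromBlocks (blockDiagonal' X) 0 0 0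

lemma em_add (X Y : ∀ i, Matrix (Fin (n i)) (Fin (n i)) ℂ) : em w (X + Y) = em w X + em w Y := by
  unfold em
  rw [fromBlocks_add, blockDiagonal'_add, add_zero, add_zero, add_zero]

lemma em_smul (c : ℂ) (X : ∀ i, Matrix (Fin (n i)) (Fin (n i)) ℂ) : em w (c • X) = c • em w X := by
  unfold em
  rw [fromBlocks_smul, blockDiagonal'_smul, smul_zero, smul_zero, smul_zero]

lemma em_zero : em w (0 : ∀ i, Matrix (Fin (n i)) (Fin (n i)) ℂ) = 0 := by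
  unfold em
  rw [blockDiagonal'_zero]
  exact fromBlocks_zero

/-- the operators which kill a tensor -/
noncomputable def kil (w : ℕ) {q : ℕ} (u : (Fin q → (Σ i, Fin (n i)) ⊕ Fin w) → ℂ) :
    Submodule ℂ (∀ i, Matrix (Fin (n i)) (Fin (n i)) ℂ) where
  carrier := {X | lieA (em w X) u = 0}
  zero_mem' := by
    show lieA (em w 0) u = 0
    rw [em_zero, lieA_zero]
  add_mem' := by
    intro X Y hX hY
    show lieA (em w (X + Y)) u = 0
    rw [em_add, lieA_add, show lieA (em w X) u = 0 from hX, show lieA (em w Y) u = 0 from hY, add_zero]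
  smul_mem' := by
    intro c X hX
    show lieA (em w (c • X)) u = 0
    rw [em_smul, lieA_smul, show lieA (em w X) u = 0 from hX, smul_zero]

theorem killall {Q : ∀ i, Matrix (Fin (n i)) (Fin (n i)) ℤ} (hQ1 : ∀ i, (Q i)ᵀ = -Q i) (hQ2 : ∀ i, (Q i).det ≠ 0)
    {q : ℕ} {u : (Fin q → (Σ i, Fin (n i)) ⊕ Fin w) → ℂ}
    (h : ∀ i (z : Fin (n i) → ℤ), lieA (em w (Pi.single i (ic (tv (Q i) z)))) u = 0) :
    ∀ X ∈ Hs fun i => ic (Q i), lieA (fromBlocks X 0 0 (0 : Matrix (Fin w) (Fin w) ℂ)) u = 0 := by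
  rintro _ ⟨X, hX, rfl⟩
  show X ∈ kil w u
  have htv : ∀ i (z : Fin (n i) → ℤ), tvC (ic (Q i)) (fun a => (z a : ℂ)) ∈
      (kil w u).comap (LinearMap.single ℂ (fun i => Matrix (Fin (n i)) (Fin (n i)) ℂ) i) := by
    intro i z
    have h1 : tvC (ic (Q i)) (fun a => (z a : ℂ)) = ic (tv (Q i) z) := (tv_map (Q i) z (Int.castRingHom ℂ)).symm
    rw [h1]
    exact h i z
  have hX' : ∀ i, X i ∈ (kil w u).comap (LinearMap.single ℂ (fun i => Matrix (Fin (n i)) (Fin (n i)) ℂ) i) := by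
    intro i
    rw [sp_span (ic_T (hQ1 i)) (ic_det (hQ2 i)) (hX i).2]
    refine Submodule.sum_mem _ fun a _ => Submodule.sum_mem _ fun b _ => Submodule.smul_mem _ _ ?_
    have e1 : ∀ a : Fin (n i), (Pi.single a 1 : Fin (n i) → ℂ) = fun x => (((Pi.single a 1 : Fin (n i) → ℤ) x : ℤ) : ℂ) := by
      intro a
      funext x
      by_cases hx : x = a
      · subst hx
        simp
      · simp [hx]
    have e2 : (Pi.single a 1 + Pi.single b 1 : Fin (n i) → ℂ) =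
        fun x => (((Pi.single a 1 + Pi.single b 1 : Fin (n i) → ℤ) x : ℤ) : ℂ) := by
      rw [e1 a, e1 b]
      funext x
      simp only [Pi.add_apply, Int.cast_add]
    refine Submodule.sub_mem _ (Submodule.sub_mem _ ?_ ?_) ?_
    · rw [e2]
      exact htv i _
    · rw [e1 a]
      exact htv i _
    · rw [e1 b]
      exact htv i _
  rw [← Finset.univ_sum_single X]
  exact Submodule.sum_mem _ fun i _ => hX' i

/-- the class of the form -/
noncomputable def pcQ (Q : ∀ i, Matrix (Fin (n i)) (Fin (n i)) ℤ) (i : Fin k) (p : Fin 2 → Σ i, Fin (n i)) : ℚ :=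
  pcl (fun j => (ir (Q j))⁻¹) i (p 0) (p 1)

lemma pcQ_cast {Q : ∀ i, Matrix (Fin (n i)) (Fin (n i)) ℤ} (hQ2 : ∀ i, (Q i).det ≠ 0) (i : Fin k) (x y : Σ i, Fin (n i)) :
    ((pcl (fun j => (ir (Q j))⁻¹) i x y : ℚ) : ℂ) = pcl (fun j => (ic (Q j))⁻¹) i x y := by
  obtain ⟨j, a⟩ := x
  obtain ⟨j', b⟩ := y
  rw [pcl_apply, pcl_apply]
  by_cases h : j = i
  · rw [if_pos h, if_pos h]
    by_cases h2 : j = j'
    · subst h2
      rw [blockDiagonal'_apply_eq, blockDiagonal'_apply_eq, ← ir_inv (hQ2 j)]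
      rfl
    · rw [blockDiagonal'_apply_ne _ _ _ h2, blockDiagonal'_apply_ne _ _ _ h2, Rat.cast_zero]
  · rw [if_neg h, if_neg h, Rat.cast_zero]

/-- **Generators in the symplectic case.** -/
theorem gen_sp {Q : ∀ i, Matrix (Fin (n i)) (Fin (n i)) ℤ} (hn : ∀ i, 0 < n i) (hQ1 : ∀ i, (Q i)ᵀ = -Q i)
    (hQ2 : ∀ i, (Q i).det ≠ 0) {q : ℕ} {u : (Fin q → (Σ i, Fin (n i)) ⊕ Fin w) → ℚ}
    (h : ∀ i (z : Fin (n i) → ℤ), lieA (em w (Pi.single i (ic (tv (Q i) z)))) (qc u) = 0)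
    {ΦV : Matrix (Σ i, Fin (n i)) (Σ i, Fin (n i)) ℂ} {ΦW : Matrix (Fin w) (Fin w) ℂ}
    (hu : lieA (fromBlocks ΦV 0 0 ΦW) (qc u) = 0) (hpc : ∀ i, lieA ΦV (qc (pcQ Q i)) = 0) :
    u ∈ Submodule.span ℚ {x | ∃ (l : ℕ) (j : Fin l → Fin k) (s₀ : ℕ) (e : (Σ _ : Fin l, Fin 2) ⊕ Fin s₀ ≃ Fin q)
      (c : (Fin s₀ → Fin w) → ℚ), lieA ΦW (qc c) = 0 ∧ x = mix e (fun a => pcQ Q (j a)) c} := by
  have h1 := Pool.Agent.Q195.HT.mixed (Σ i, Fin (n i)) (Fin w) (Hs fun i => ic (Q i)) (fun s => s = 2)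
    (sy_gen (fun i => ic_T (hQ1 i)) (fun i => ic_det (hQ2 i)) hn)
    (fun s => {x | ∃ (i : Fin k) (hs : s = 2), x = fun p => pcQ Q i fun a => p (Fin.cast hs.symm a)}) (by
      rintro s rfl v hv
      obtain ⟨c, hc⟩ := inv2 (fun i => ic_T (hQ1 i)) (fun i => ic_det (hQ2 i)) hv
      rw [hc]
      refine Submodule.sum_mem _ fun i _ => Submodule.smul_mem _ _ (Submodule.subset_span ?_)
      refine ⟨_, ⟨i, rfl, rfl⟩, ?_⟩
      funext p
      exact pcQ_cast hQ2 i _ _) ΦV ΦW (by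
      rintro s rfl _ ⟨i, -, rfl⟩
      exact hpc i) q u (killall hQ1 hQ2 h) hu
  refine Submodule.span_mono ?_ h1
  rintro _ ⟨l, s, s₀, e, v, c, h2, h3, rfl⟩
  obtain rfl : s = fun _ => 2 := funext fun j => (h2 j).1
  choose j hs hj using fun a => (h2 a).2
  refine ⟨l, j, s₀, e, c, h3, ?_⟩
  congr 1
  funext a
  rw [hj a]
  rfl

end Q207.GH
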