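import Pool.Agent.Q207.GH.Cay
import Pool.Agent.Q207.GH.Sp3

/-!
# Project GH: hyperbolic elements of orthogonal groups
-/

set_option autoImplicit false

open Matrix Finset

namespace Q207.GH

open Q207.HG (cmx hB)
open Q207.HT (lieA qc)

section alg

variable {m : ℕ} {R : Type} [CommRing R]

/-- the bilinear form -/
def bf (B : Matrix (Fin m) (Fin m) R) (x y : Fin m → R) : R := x ⬝ᵥ (B *ᵥ y)

/-- the infinitesimal rotations -/
def hx (B : Matrix (Fin m) (Fin m) R) (v w : Fin m → R) : Matrix (Fin m) (Fin m) R := (vecMulVec v w - vecMulVec w v) * B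

lemma vv (B : Matrix (Fin m) (Fin m) R) (x y z t : Fin m → R) :
    vecMulVec x y * (B * vecMulVec z t) = bf B y z • vecMulVec x t := by
  rw [Matrix.mul_vecMulVec, Matrix.vecMulVec_mul_vecMulVec]
  ext a b
  simp only [vecMulVec_apply, Matrix.smul_apply, Pi.smul_apply, smul_eq_mul, bf]
  ring

lemma bf_comm {B : Matrix (Fin m) (Fin m) R} (hB : Bᵀ = B) (x y : Fin m → R) : bf B x y = bf B y x := by
  unfold bf
  rw [dotProduct_comm, ← Matrix.vecMul_transpose, hB, ← Matrix.dotProduct_mulVec]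

lemma hx_cube {B : Matrix (Fin m) (Fin m) R} (hB : Bᵀ = B) (v w : Fin m → R) :
    hx B v w * hx B v w * hx B v w = (bf B v w ^ 2 - bf B v v * bf B w w) • hx B v w := by
  set A := vecMulVec v w - vecMulVec w v with hA
  have h1 : A * (B * A) = bf B v w • vecMulVec v w - bf B w w • vecMulVec v v - bf B v v • vecMulVec w w + bf B v w • vecMulVec w v := by
    rw [hA]
    simp only [Matrix.mul_sub, Matrix.sub_mul, vv, bf_comm hB w v]
    abel
  have h2 : (A * (B * A)) * (B * A) = (bf B v w ^ 2 - bf B v v * bf B w w) • A := by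
    rw [h1, hA]
    simp only [Matrix.mul_sub, Matrix.sub_mul, Matrix.add_mul, Matrix.smul_mul, vv, bf_comm hB w v]
    module
  show A * B * (A * B) * (A * B) = _ • (A * B)
  rw [← Matrix.smul_mul, ← h2]
  simp only [Matrix.mul_assoc]

lemma hx_lie {B : Matrix (Fin m) (Fin m) R} (hB : Bᵀ = B) (v w : Fin m → R) : (hx B v w)ᵀ * B + B * hx B v w = 0 := by
  unfold hx
  rw [Matrix.transpose_mul, Matrix.transpose_sub, Matrix.transpose_vecMulVec, Matrix.transpose_vecMulVec, hB]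
  simp only [Matrix.mul_sub, Matrix.sub_mul, Matrix.mul_assoc]
  abel

end alg

section cayley

variable {m : ℕ}

lemma cy_iso {B N : Matrix (Fin m) (Fin m) ℚ} (hN : Nᵀ * B + B * N = 0) {d τ : ℚ} (hd : N * N * N = d • N)
    (hτ : 1 - d * τ ^ 2 ≠ 0) : (cy N d τ)ᵀ * B * cy N d τ = B := by
  have hNB : Nᵀ * B = -(B * N) := eq_neg_of_add_eq_zero_left hN
  have h1 : (cy N d τ)ᵀ * B = B * (1 + (2 * τ ^ 2 / (1 - d * τ ^ 2)) • (N * N) - (2 * τ / (1 - d * τ ^ 2)) • N) := by
    unfold cy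
    have h2 : Nᵀ * Nᵀ * B = B * (N * N) := by
      rw [Matrix.mul_assoc, hNB, Matrix.mul_neg, ← Matrix.mul_assoc, hNB, Matrix.neg_mul, neg_neg, Matrix.mul_assoc]
    rw [Matrix.transpose_add, Matrix.transpose_add, Matrix.transpose_one, Matrix.transpose_smul, Matrix.transpose_smul,
      Matrix.transpose_mul, Matrix.add_mul, Matrix.add_mul, Matrix.one_mul, Matrix.smul_mul, Matrix.smul_mul, h2, hNB,
      Matrix.mul_sub, Matrix.mul_add, Matrix.mul_one, Matrix.mul_smul, Matrix.mul_smul, smul_neg, ← sub_eq_add_neg]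
  have h4 : N * N * (N * N) = d • (N * N) := by
    rw [← Matrix.mul_assoc, hd, Matrix.smul_mul]
  have h5 : N * (N * N) = d • N := by rw [← Matrix.mul_assoc, hd]
  rw [h1, Matrix.mul_assoc]
  unfold cy
  set κ := 2 * τ ^ 2 / (1 - d * τ ^ 2) with hκ
  set σ := 2 * τ / (1 - d * τ ^ 2) with hσ
  have h3 : (1 + κ • (N * N) - σ • N) * (1 + κ • (N * N) + σ • N) = 1 := by
    have h6 : 2 * κ + d * κ ^ 2 - σ ^ 2 = 0 := by
      have he : (1 - d * τ ^ 2) * (1 - d * τ ^ 2)⁻¹ = 1 := mul_inv_cancel₀ hτ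
      rw [hκ, hσ, div_eq_mul_inv, div_eq_mul_inv]
      linear_combination (-4 * τ ^ 2 * (1 - d * τ ^ 2)⁻¹) * he
    simp only [Matrix.add_mul, Matrix.sub_mul, Matrix.mul_add, Matrix.one_mul, Matrix.mul_one, Matrix.smul_mul, Matrix.mul_smul, h4,
      h5, hd]
    have h7 : (1 : Matrix (Fin m) (Fin m) ℚ) + (2 * κ + d * κ ^ 2 - σ ^ 2) • (N * N) = 1 := by rw [h6, zero_smul, add_zero]
    refine Eq.trans ?_ h7
    module
  rw [h3, Matrix.mul_one]

lemma cy_det {B N : Matrix (Fin m) (Fin m) ℚ} (hB : IsUnit B.det) (hN : Nᵀ * B + B * N = 0) {d τ : ℚ} (hd : N * N * N = d • N)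
    (hτ : 1 - d * τ ^ 2 ≠ 0) : (cy N d τ).det = 1 := by
  have h5 : N * (N * N) = d • N := by rw [← Matrix.mul_assoc, hd]
  have h1 : cy N d τ * (1 - τ • N) = 1 + τ • N := by
    unfold cy
    simp only [Matrix.add_mul, Matrix.mul_sub, Matrix.one_mul, Matrix.mul_one, Matrix.smul_mul, Matrix.mul_smul, hd]
    have he : (1 - d * τ ^ 2) * (1 - d * τ ^ 2)⁻¹ = 1 := mul_inv_cancel₀ hτ
    have e1 : 2 * τ / (1 - d * τ ^ 2) - τ - 2 * τ ^ 2 / (1 - d * τ ^ 2) * τ * d = τ := by
      rw [div_eq_mul_inv, div_eq_mul_inv]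
      linear_combination (2 * τ) * he
    have e2 : 2 * τ ^ 2 / (1 - d * τ ^ 2) - 2 * τ / (1 - d * τ ^ 2) * τ = 0 := by
      rw [div_eq_mul_inv, div_eq_mul_inv]
      ring
    have e3 : (1 : Matrix (Fin m) (Fin m) ℚ) + τ • N = 1 + (2 * τ / (1 - d * τ ^ 2) - τ - 2 * τ ^ 2 / (1 - d * τ ^ 2) * τ * d) • N +
        (2 * τ ^ 2 / (1 - d * τ ^ 2) - 2 * τ / (1 - d * τ ^ 2) * τ) • (N * N) := by rw [e1, e2, zero_smul, add_zero]
    rw [e3]
    module
  have h2 : (1 - τ • N) * (1 + (τ / (1 - d * τ ^ 2)) • N + (τ ^ 2 / (1 - d * τ ^ 2)) • (N * N)) = 1 := by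
    simp only [Matrix.sub_mul, Matrix.mul_add, Matrix.one_mul, Matrix.mul_one, Matrix.smul_mul, Matrix.mul_smul, h5]
    have he : (1 - d * τ ^ 2) * (1 - d * τ ^ 2)⁻¹ = 1 := mul_inv_cancel₀ hτ
    have e1 : τ / (1 - d * τ ^ 2) - τ - τ ^ 2 / (1 - d * τ ^ 2) * τ * d = 0 := by
      rw [div_eq_mul_inv, div_eq_mul_inv]
      linear_combination τ * he
    have e2 : τ ^ 2 / (1 - d * τ ^ 2) - τ / (1 - d * τ ^ 2) * τ = 0 := by
      rw [div_eq_mul_inv, div_eq_mul_inv]
      ring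
    have e3 : (1 : Matrix (Fin m) (Fin m) ℚ) = 1 + (τ / (1 - d * τ ^ 2) - τ - τ ^ 2 / (1 - d * τ ^ 2) * τ * d) • N +
        (τ ^ 2 / (1 - d * τ ^ 2) - τ / (1 - d * τ ^ 2) * τ) • (N * N) := by rw [e1, e2, zero_smul, zero_smul, add_zero, add_zero]
    conv_rhs => rw [e3]
    module
  have h3 : (1 - τ • N).det ≠ 0 := by
    intro h
    have h4 := congrArg Matrix.det h2
    rw [Matrix.det_mul, h, zero_mul, Matrix.det_one] at h4
    exact zero_ne_one h4
  have h4 : (1 + τ • N).det = (1 - τ • N).det := by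
    have hNB : Nᵀ * B = -(B * N) := eq_neg_of_add_eq_zero_left hN
    have e1 : (1 - τ • N)ᵀ * B = B * (1 + τ • N) := by
      rw [Matrix.transpose_sub, Matrix.transpose_one, Matrix.transpose_smul, Matrix.sub_mul, Matrix.one_mul, Matrix.smul_mul, hNB,
        Matrix.mul_add, Matrix.mul_one, Matrix.mul_smul, smul_neg, sub_neg_eq_add]
    have e2 := congrArg Matrix.det e1
    rw [Matrix.det_mul, Matrix.det_mul, Matrix.det_transpose, mul_comm] at e2
    exact (mul_left_cancel₀ hB.ne_zero e2).symm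
  have h6 := congrArg Matrix.det h1
  rw [Matrix.det_mul, h4] at h6
  exact mul_right_cancel₀ h3 (by rw [h6, one_mul])

end cayley

section span

variable {n : ℕ}

/-- every element of the orthogonal Lie algebra is a combination of infinitesimal rotations -/
theorem so_span {B : Matrix (Fin n) (Fin n) ℂ} (hB1 : Bᵀ = B) (hB2 : IsUnit B.det) {X : Matrix (Fin n) (Fin n) ℂ}
    (hX : Xᵀ * B + B * X = 0) : X = ∑ a, ∑ b, ((X * B⁻¹) a b / 2) • hx B (Pi.single a 1) (Pi.single b 1) := by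
  set S := X * B⁻¹ with hS
  have hXS : X = S * B := by
    rw [hS, Matrix.mul_assoc, Matrix.nonsing_inv_mul _ hB2, Matrix.mul_one]
  have hsym : Sᵀ = -S := by
    have h1 : B * (S + Sᵀ) * B = 0 := by
      rw [hXS, Matrix.transpose_mul, hB1] at hX
      calc B * (S + Sᵀ) * B = B * Sᵀ * B + B * (S * B) := by
            simp only [Matrix.mul_add, Matrix.add_mul, Matrix.mul_assoc]
            abel
        _ = 0 := hX
    have h2 : S + Sᵀ = 0 := by
      calc S + Sᵀ = B⁻¹ * (B * (S + Sᵀ) * B) * B⁻¹ := by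
            rw [← Matrix.mul_assoc, ← Matrix.mul_assoc, Matrix.nonsing_inv_mul _ hB2, Matrix.one_mul, Matrix.mul_assoc,
              Matrix.mul_nonsing_inv _ hB2, Matrix.mul_one]
        _ = 0 := by rw [h1, Matrix.mul_zero, Matrix.zero_mul]
    exact eq_neg_of_add_eq_zero_right h2
  have key : S = ∑ a, ∑ b, (S a b / 2) • (vecMulVec (Pi.single a 1) (Pi.single b 1) -
      vecMulVec (Pi.single b 1) (Pi.single a 1) : Matrix (Fin n) (Fin n) ℂ) := by
    ext c d
    simp only [Matrix.sum_apply, Matrix.smul_apply, Matrix.sub_apply, vecMulVec_apply, smul_eq_mul]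
    have h1 : ∀ a b : Fin n, S a b / 2 * ((Pi.single a 1 : Fin n → ℂ) c * (Pi.single b 1 : Fin n → ℂ) d -
        (Pi.single b 1 : Fin n → ℂ) c * (Pi.single a 1 : Fin n → ℂ) d) =
        (if c = a then (if d = b then S a b / 2 else 0) else 0) - (if d = a then (if c = b then S a b / 2 else 0) else 0) := by
      intro a b
      simp only [Pi.single_apply]
      split_ifs <;> ring
    simp only [h1, sum_sub_distrib, sum_ite_irrel, sum_const_zero, sum_ite_eq, mem_univ, if_true]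
    have h2 := congrFun (congrFun hsym c) d
    rw [Matrix.transpose_apply, Matrix.neg_apply] at h2
    rw [h2]
    ring
  conv_lhs => rw [hXS, key, Finset.sum_mul]
  refine sum_congr rfl fun a _ => ?_
  rw [Finset.sum_mul]
  refine sum_congr rfl fun b _ => ?_
  rw [Matrix.smul_mul]
  rfl

end span

end Q207.GH
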