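import Pool.Agent.Q207.GH.Sp3

/-!
# Project GH: the transvections on a sum
-/

set_option autoImplicit false

open Matrix Finset

namespace Q207.GH

open Q207.HG (cmx)
open Q207.HT (lieA qc)

variable {k : ℕ} {n : Fin k → ℕ} {w : ℕ}

/-- the identity on all summands but one -/
def gam (i : Fin k) (T : Matrix (Fin (n i)) (Fin (n i)) ℤ) (m : ℤ) (j : Fin k) : Matrix (Fin (n j)) (Fin (n j)) ℤ :=
  1 + m • (Pi.single i T : ∀ j, Matrix (Fin (n j)) (Fin (n j)) ℤ) j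

lemma gam_iso {Q : ∀ i, Matrix (Fin (n i)) (Fin (n i)) ℤ} (hQ : ∀ i, (Q i)ᵀ = -Q i) (i : Fin k) (z : Fin (n i) → ℤ) (m : ℤ)
    (j : Fin k) : (gam i (tv (Q i) z) m j)ᵀ * Q j * gam i (tv (Q i) z) m j = Q j := by
  unfold gam
  by_cases h : j = i
  · subst h
    rw [Pi.single_eq_same]
    exact tv_iso (hQ j) z m
  · rw [Pi.single_eq_of_ne h, smul_zero, add_zero, Matrix.transpose_one, Matrix.one_mul, Matrix.mul_one]

lemma map_single {R : Type} [CommRing R] (f : ℤ →+* R) (i : Fin k) (T : Matrix (Fin (n i)) (Fin (n i)) ℤ) (j : Fin k) :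
    ((Pi.single i T : ∀ j, Matrix (Fin (n j)) (Fin (n j)) ℤ) j).map f =
      (Pi.single i (T.map f) : ∀ j, Matrix (Fin (n j)) (Fin (n j)) R) j := by
  by_cases h : j = i
  · subst h
    rw [Pi.single_eq_same, Pi.single_eq_same]
  · rw [Pi.single_eq_of_ne h, Pi.single_eq_of_ne h, Matrix.map_zero _ (map_zero _)]

lemma hat_gam (i : Fin k) (T : Matrix (Fin (n i)) (Fin (n i)) ℤ) (m : ℤ) :
    hat w (fun j => ir (gam i T m j)) = 1 + (m : ℚ) • em w (Pi.single i (ir T)) := by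
  have h1 : (fun j => ir (gam i T m j)) = (1 : ∀ j, Matrix (Fin (n j)) (Fin (n j)) ℚ) +
      (m : ℚ) • (Pi.single i (ir T) : ∀ j, Matrix (Fin (n j)) (Fin (n j)) ℚ) := by
    funext j
    have h2 := map_single (Int.castRingHom ℚ) i T j
    have h3 : ir (gam i T m j) = (1 : Matrix (Fin (n j)) (Fin (n j)) ℚ) +
        (m : ℚ) • ((Pi.single i T : ∀ j, Matrix (Fin (n j)) (Fin (n j)) ℤ) j).map (Int.castRingHom ℚ) := by
      ext a b
      simp only [ir, gam, Matrix.map_apply, Matrix.add_apply, Matrix.smul_apply, smul_eq_mul, Int.cast_add, Int.cast_mul,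
        Matrix.one_apply, eq_intCast, Int.cast_ite, Int.cast_one, Int.cast_zero]
    rw [h3, h2]
    rfl
  rw [h1]
  unfold hat em
  rw [blockDiagonal'_add, blockDiagonal'_smul, blockDiagonal'_one, ← fromBlocks_one, fromBlocks_smul, fromBlocks_add]
  simp

lemma cmx_em (i : Fin k) (T : Matrix (Fin (n i)) (Fin (n i)) ℤ) :
    cmx (em w (Pi.single i (ir T)) : Matrix ((Σ i, Fin (n i)) ⊕ Fin w) ((Σ i, Fin (n i)) ⊕ Fin w) ℚ) = em w (Pi.single i (ic T)) := by
  unfold em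
  show (fromBlocks _ _ _ _).map (algebraMap ℚ ℂ) = _
  rw [fromBlocks_map, blockDiagonal'_map _ _ (map_zero _), Matrix.map_zero _ (map_zero _), Matrix.map_zero _ (map_zero _),
    Matrix.map_zero _ (map_zero _)]
  congr 2
  funext j
  by_cases h : j = i
  · subst h
    rw [Pi.single_eq_same, Pi.single_eq_same]
    ext a b
    simp [ir, ic]
  · rw [Pi.single_eq_of_ne h, Pi.single_eq_of_ne h, Matrix.map_zero _ (map_zero _)]

/-- a tensor with finite orbits is killed by the transvections -/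
theorem kill_tv {Q : ∀ i, Matrix (Fin (n i)) (Fin (n i)) ℤ} (hQ : ∀ i, (Q i)ᵀ = -Q i) {q : ℕ}
    {u : (Fin q → (Σ i, Fin (n i)) ⊕ Fin w) → ℚ}
    (hfin : {x | ∃ γ : ∀ i, Matrix (Fin (n i)) (Fin (n i)) ℤ, (∀ i, (γ i)ᵀ * Q i * γ i = Q i) ∧
      x = trl (hat w fun i => ir (γ i)) u}.Finite) (i : Fin k) (z : Fin (n i) → ℤ) :
    lieA (em w (Pi.single i (ic (tv (Q i) z)))) (qc u) = 0 := by
  rw [← cmx_em]
  refine kill _ u (hfin.subset ?_)
  rintro _ ⟨m, rfl⟩
  exact ⟨gam i (tv (Q i) z) m, gam_iso hQ i z m, by rw [hat_gam]⟩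

end Q207.GH
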