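import Pool.Agent.Q207.GH.So0
import Pool.Agent.Q207.GH.Sp4
import Pool.Agent.Q207.GH.Bnd

/-!
# Project GH: generators for full symplectic and orthogonal groups
-/

set_option autoImplicit false

open Matrix Finset

namespace Q207.GH

open Q207.DB (BD Okf Dl)
open Q207.HG (cmx hB Grd lkL)
open Q207.HT (lieA lieA_apply lieA_add lieA_smul lieA_zero qc InvL GenL mix)

section bil

variable {m : ℕ}

lemma bf_cont (B : Matrix (Fin m) (Fin m) ℚ) (v v' w w' : Fin m → ℚ) :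
    Continuous fun δ : ℚ => bf B (v + δ • v') (w + δ • w') := by
  unfold bf Matrix.mulVec dotProduct
  simp only [Pi.add_apply, Pi.smul_apply, smul_eq_mul]
  fun_prop

lemma hx_add_left (B : Matrix (Fin m) (Fin m) ℚ) (v v' w : Fin m → ℚ) (δ : ℚ) :
    hx B (v + δ • v') w = hx B v w + δ • hx B v' w := by
  unfold hx
  rw [← Matrix.smul_mul, ← Matrix.add_mul]
  congr 1
  ext a b
  simp only [Matrix.sub_apply, Matrix.add_apply, Matrix.smul_apply, vecMulVec_apply, Pi.add_apply, Pi.smul_apply, smul_eq_mul]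
  ring

lemma hx_add_right (B : Matrix (Fin m) (Fin m) ℚ) (v w w' : Fin m → ℚ) (δ : ℚ) :
    hx B v (w + δ • w') = hx B v w + δ • hx B v w' := by
  unfold hx
  rw [← Matrix.smul_mul, ← Matrix.add_mul]
  congr 1
  ext a b
  simp only [Matrix.sub_apply, Matrix.add_apply, Matrix.smul_apply, vecMulVec_apply, Pi.add_apply, Pi.smul_apply, smul_eq_mul]
  ring

/-- an open set of infinitesimal rotations spans all -/
theorem hx_all {B : Matrix (Fin m) (Fin m) ℚ} {x y : Fin m → ℚ} (hx0 : 0 < bf B x x) (hy0 : bf B y y < 0)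
    (𝔨 : Submodule ℚ (Matrix (Fin m) (Fin m) ℚ)) (h : ∀ v w, 0 < bf B v w ^ 2 - bf B v v * bf B w w → hx B v w ∈ 𝔨)
    (v w : Fin m → ℚ) : hx B v w ∈ 𝔨 := by
  have h0 : 0 < bf B x y ^ 2 - bf B x x * bf B y y := by
    have : 0 < -(bf B x x * bf B y y) := neg_pos.2 (mul_neg_of_pos_of_neg hx0 hy0)
    have := sq_nonneg (bf B x y)
    linarith
  have hev : ∀ v' w' : Fin m → ℚ, ∀ᶠ δ in nhdsWithin (0 : ℚ) {0}ᶜ,
      0 < bf B (x + δ • v') (y + δ • w') ^ 2 - bf B (x + δ • v') (x + δ • v') * bf B (y + δ • w') (y + δ • w') := by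
    intro v' w'
    have hc : Continuous fun δ : ℚ => bf B (x + δ • v') (y + δ • w') ^ 2 -
        bf B (x + δ • v') (x + δ • v') * bf B (y + δ • w') (y + δ • w') :=
      ((bf_cont B x v' y w').pow 2).sub ((bf_cont B x v' x v').mul (bf_cont B y w' y w'))
    have h1 := hc.tendsto 0
    simp only [zero_smul, add_zero] at h1
    exact (h1.eventually (lt_mem_nhds h0)).filter_mono nhdsWithin_le_nhds
  obtain ⟨δ, ⟨⟨h1, h2⟩, h3⟩, hδ⟩ := (((hev v 0).and (hev 0 w)).and (hev v w)).and self_mem_nhdsWithin |>.exists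
  simp only [smul_zero, add_zero] at h1 h2
  have hδ0 : δ ≠ 0 := hδ
  have e0 := h _ _ h0
  have e1 := h _ _ h1
  have e2 := h _ _ h2
  have e3 := h _ _ h3
  rw [hx_add_left] at e1
  rw [hx_add_right] at e2
  rw [hx_add_left, hx_add_right, hx_add_right] at e3
  have f1 : δ • hx B v y ∈ 𝔨 := (Submodule.add_mem_iff_right _ e0).1 e1
  have f3 : δ • (hx B v y + δ • hx B v w) ∈ 𝔨 := (Submodule.add_mem_iff_right _ e2).1 e3
  rw [smul_add] at f3
  have f4 : δ • δ • hx B v w ∈ 𝔨 := (Submodule.add_mem_iff_right _ f1).1 f3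
  have f5 := Submodule.smul_mem 𝔨 δ⁻¹ (Submodule.smul_mem 𝔨 δ⁻¹ f4)
  simpa only [smul_smul, inv_mul_cancel₀ hδ0, mul_one, one_mul, one_smul, inv_mul_cancel_left₀ hδ0] using f5

end bil

variable {k : ℕ} {n : Fin k → ℕ} {w : ℕ}

lemma hat_cy (X : ∀ j, Matrix (Fin (n j)) (Fin (n j)) ℚ) (d τ : ℚ) :
    hat w (fun j => cy (X j) d τ) = cy (em w X) d τ := by
  have h1 : (fun j => cy (X j) d τ) = (1 : ∀ j, Matrix (Fin (n j)) (Fin (n j)) ℚ) + (2 * τ ^ 2 / (1 - d * τ ^ 2)) • (X * X) +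
      (2 * τ / (1 - d * τ ^ 2)) • X := rfl
  rw [h1]
  unfold hat cy em
  rw [blockDiagonal'_add, blockDiagonal'_add, blockDiagonal'_smul, blockDiagonal'_smul, blockDiagonal'_one]
  have h2 : blockDiagonal' (X * X) = blockDiagonal' X * blockDiagonal' X := blockDiagonal'_mul _ _
  rw [h2, fromBlocks_multiply, ← fromBlocks_one, fromBlocks_smul, fromBlocks_smul, fromBlocks_add, fromBlocks_add]
  simp

/-- the rational matrices which kill a tensor -/
noncomputable def kiq (w : ℕ) {q : ℕ} (u : (Fin q → (Σ i, Fin (n i)) ⊕ Fin w) → ℂ) (i : Fin k) :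
    Submodule ℚ (Matrix (Fin (n i)) (Fin (n i)) ℚ) where
  carrier := {N | lieA (em w (Pi.single i (cmx N))) u = 0}
  zero_mem' := by
    show lieA (em w (Pi.single i (cmx 0))) u = 0
    rw [Q207.HG.cmx_zero, Pi.single_zero, em_zero, lieA_zero]
  add_mem' := by
    intro X Y hX hY
    show lieA (em w (Pi.single i (cmx (X + Y)))) u = 0
    rw [Q207.HG.cmx_add, Pi.single_add, em_add, lieA_add, show lieA (em w (Pi.single i (cmx X))) u = 0 from hX,
      show lieA (em w (Pi.single i (cmx Y))) u = 0 from hY, add_zero]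
  smul_mem' := by
    intro c X hX
    show lieA (em w (Pi.single i (cmx (c • X)))) u = 0
    rw [Q207.HG.cmx_smul, Pi.single_smul, em_smul, lieA_smul, show lieA (em w (Pi.single i (cmx X))) u = 0 from hX, smul_zero]

lemma cmx_em' (i : Fin k) (N : Matrix (Fin (n i)) (Fin (n i)) ℚ) :
    cmx (em w (Pi.single i N) : Matrix ((Σ i, Fin (n i)) ⊕ Fin w) ((Σ i, Fin (n i)) ⊕ Fin w) ℚ) = em w (Pi.single i (cmx N)) := by
  unfold em
  show (fromBlocks _ _ _ _).map (algebraMap ℚ ℂ) = _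
  rw [fromBlocks_map, blockDiagonal'_map _ _ (map_zero _), Matrix.map_zero _ (map_zero _), Matrix.map_zero _ (map_zero _),
    Matrix.map_zero _ (map_zero _)]
  congr 2
  funext j
  by_cases h : j = i
  · subst h
    rw [Pi.single_eq_same, Pi.single_eq_same]
  · rw [Pi.single_eq_of_ne h, Pi.single_eq_of_ne h, Matrix.map_zero _ (map_zero _)]

/-- the isometries of determinant one -/
def Iso1 (Q : ∀ i, Matrix (Fin (n i)) (Fin (n i)) ℤ) (γ : ∀ i, Matrix (Fin (n i)) (Fin (n i)) ℚ) : Prop :=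
  ∀ i, (γ i)ᵀ * ir (Q i) * γ i = ir (Q i) ∧ (γ i).det = 1

/-- a bounded tensor is killed by the infinitesimal rotations -/
theorem kill_hx {Q : ∀ i, Matrix (Fin (n i)) (Fin (n i)) ℤ} (hQd : ∀ i, (Q i).det ≠ 0) {q : ℕ}
    {u : (Fin q → (Σ i, Fin (n i)) ⊕ Fin w) → ℚ} {K : ℝ}
    (hK : ∀ γ : ∀ i, Matrix (Fin (n i)) (Fin (n i)) ℚ, Iso1 Q γ → ∀ p, ‖qc (trl (hat w γ) u) p‖ ≤ K)
    (i : Fin k) (hQ : (Q i)ᵀ = Q i) {x y : Fin (n i) → ℚ} (hx0 : 0 < bf (ir (Q i)) x x) (hy0 : bf (ir (Q i)) y y < 0)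
    (v z : Fin (n i) → ℚ) : hx (ir (Q i)) v z ∈ kiq w (qc u) i := by
  refine hx_all hx0 hy0 _ (fun v z hd => ?_) v z
  have hB : (ir (Q i))ᵀ = ir (Q i) := by
    have h1 := congrArg (fun M : Matrix (Fin (n i)) (Fin (n i)) ℤ => M.map (Int.cast : ℤ → ℚ)) hQ
    exact h1
  set N := hx (ir (Q i)) v z with hN
  set d := bf (ir (Q i)) v z ^ 2 - bf (ir (Q i)) v v * bf (ir (Q i)) z z with hddef
  have hN1 : Nᵀ * ir (Q i) + ir (Q i) * N = 0 := hx_lie hB v z
  have hN2 : N * N * N = d • N := hx_cube hB v z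
  show lieA (em w (Pi.single i (cmx N))) (qc u) = 0
  rw [← cmx_em']
  refine cay (em w (Pi.single i N)) hd u K fun τ hτ p => ?_
  rw [← hat_cy]
  refine hK _ (fun j => ?_) p
  by_cases h : j = i
  · subst h
    rw [Pi.single_eq_same]
    exact ⟨cy_iso hN1 hN2 hτ, cy_det (ir_det (hQd j)) hN1 hN2 hτ⟩
  · rw [Pi.single_eq_of_ne h]
    exact ⟨cy_iso (by simp) (by simp) hτ, cy_det (ir_det (hQd j)) (by simp) (by simp) hτ⟩

end Q207.GH
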