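import Pool.Agent.Q207.GH.So1

/-!
# Project GH: generators for full symplectic and orthogonal groups, continued
-/

set_option autoImplicit false

open Matrix Finset

namespace Q207.GH

open Q207.DB (BD Okf Dl)
open Q207.HG (cmx hB Grd lkL)
open Q207.HT (lieA lieA_apply lieA_add lieA_smul lieA_zero qc InvL GenL mix)

/-- a tensor with bounded translates under the matrices `1 + m N` is killed by `N` -/
theorem killb {I : Type} [Fintype I] [DecidableEq I] {q : ℕ} (N : Matrix I I ℚ) (u : (Fin q → I) → ℚ) (K : ℝ)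
    (hK : ∀ m : ℕ, ∀ p, ‖qc (trl (1 + (m : ℚ) • N) u) p‖ ≤ K) : lieA (cmx N) (qc u) = 0 := by
  have h1 : ∀ p, Polynomial.derivative (mp N u p) = 0 := by
    intro p
    have hdeg : (mp N u p).degree ≤ 0 := by
      by_contra hc
      push Not at hc
      have h2 := Polynomial.abs_tendsto_atTop (mp N u p) hc
      have h3 := h2.comp (tendsto_natCast_atTop_atTop (R := ℚ))
      obtain ⟨m, hm⟩ := (h3.eventually (Filter.eventually_gt_atTop (⌈|K|⌉₊ : ℚ))).exists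
      have h4 := hK m p
      have h5 : ‖qc (trl (1 + (m : ℚ) • N) u) p‖ = |((trl (1 + (m : ℚ) • N) u p : ℚ) : ℝ)| := by
        show ‖((trl (1 + (m : ℚ) • N) u p : ℚ) : ℂ)‖ = _
        rw [← Complex.ofReal_ratCast, Complex.norm_real, Real.norm_eq_abs]
      have h6 : (⌈|K|⌉₊ : ℚ) < |trl (1 + (m : ℚ) • N) u p| := by
        have h7 := mp_eval N u p (m : ℚ)
        rw [← h7]
        exact hm
      have h7 : (⌈|K|⌉₊ : ℝ) < |((trl (1 + (m : ℚ) • N) u p : ℚ) : ℝ)| := by exact_mod_cast h6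
      rw [h5] at h4
      have h8 := Nat.le_ceil |K|
      have h9 := le_abs_self K
      linarith
    rw [Polynomial.eq_C_of_degree_le_zero hdeg, Polynomial.derivative_C]
  funext p
  have h2 := mp_deriv N u p
  rw [h1 p, Polynomial.eval_zero] at h2
  have h3 := congrArg (fun x : ℚ => (x : ℂ)) h2.symm
  simp only [Rat.cast_sum, Rat.cast_mul, Rat.cast_zero] at h3
  exact h3

section tvq

variable {m : ℕ}

/-- rational transvections -/
def tq (B : Matrix (Fin m) (Fin m) ℚ) (z : Fin m → ℚ) : Matrix (Fin m) (Fin m) ℚ := vecMulVec z (z ᵥ* B)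

lemma tq_zero {B : Matrix (Fin m) (Fin m) ℚ} (hB : Bᵀ = -B) (z : Fin m → ℚ) : z ⬝ᵥ (z ᵥ* B) = 0 := by
  have h1 : z ⬝ᵥ (z ᵥ* B) = -(z ⬝ᵥ (z ᵥ* B)) := by
    conv_lhs => rw [dotProduct_comm, ← Matrix.dotProduct_mulVec, ← Matrix.vecMul_transpose, hB, Matrix.vecMul_neg,
      dotProduct_neg]
  exact self_eq_neg.1 h1

lemma tq_sq {B : Matrix (Fin m) (Fin m) ℚ} (hB : Bᵀ = -B) (z : Fin m → ℚ) : tq B z * tq B z = 0 := by
  rw [tq, Matrix.vecMulVec_mul_vecMulVec, dotProduct_comm, tq_zero hB, zero_smul]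
  ext a b
  simp [vecMulVec_apply]

lemma tq_iso {B : Matrix (Fin m) (Fin m) ℚ} (hB : Bᵀ = -B) (z : Fin m → ℚ) (a : ℚ) :
    (1 + a • tq B z)ᵀ * B * (1 + a • tq B z) = B := by
  have hqz : B *ᵥ z = -(z ᵥ* B) := by
    rw [← Matrix.vecMul_transpose, hB, Matrix.vecMul_neg]
  have e1 : (tq B z)ᵀ * B = vecMulVec (z ᵥ* B) (z ᵥ* B) := by
    rw [tq, Matrix.transpose_vecMulVec, Matrix.vecMulVec_mul]
  have e2 : B * tq B z = -vecMulVec (z ᵥ* B) (z ᵥ* B) := by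
    rw [tq, Matrix.mul_vecMulVec, hqz, Matrix.neg_vecMulVec]
  have e3 : vecMulVec (z ᵥ* B) (z ᵥ* B) * tq B z = 0 := by
    rw [tq, Matrix.vecMulVec_mul_vecMulVec, dotProduct_comm, tq_zero hB, zero_smul]
    ext a b
    simp [vecMulVec_apply]
  rw [Matrix.transpose_add, Matrix.transpose_one, Matrix.transpose_smul]
  calc (1 + a • (tq B z)ᵀ) * B * (1 + a • tq B z) = B + a • ((tq B z)ᵀ * B + B * tq B z) + (a * a) • ((tq B z)ᵀ * B * tq B z) := by
        simp only [Matrix.add_mul, Matrix.mul_add, Matrix.one_mul, Matrix.mul_one, Matrix.smul_mul, Matrix.mul_smul, smul_smul,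
          smul_add, Matrix.mul_assoc]
        abel
    _ = B := by rw [e1, e2, e3, add_neg_cancel, smul_zero, smul_zero, add_zero, add_zero]

lemma tq_det {B : Matrix (Fin m) (Fin m) ℚ} (hB : Bᵀ = -B) (hd : IsUnit B.det) (z : Fin m → ℚ) (a : ℚ) :
    (1 + a • tq B z).det = 1 := by
  have h1 : (1 + a • tq B z) = (1 + (a / 2) • tq B z) * (1 + (a / 2) • tq B z) := by
    simp only [Matrix.add_mul, Matrix.mul_add, Matrix.one_mul, Matrix.mul_one, Matrix.smul_mul, Matrix.mul_smul, tq_sq hB, smul_zero,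
      add_zero]
    rw [add_assoc, ← add_smul]
    congr 2
    ring
  have h2 := congrArg Matrix.det (tq_iso hB z (a / 2))
  rw [Matrix.det_mul, Matrix.det_mul, Matrix.det_transpose] at h2
  rw [h1, Matrix.det_mul]
  have h3 : (1 + (a / 2) • tq B z).det * (1 + (a / 2) • tq B z).det * B.det = 1 * B.det := by
    rw [one_mul]
    conv_rhs => rw [← h2]
    ring
  exact mul_right_cancel₀ hd.ne_zero h3

end tvq

variable {k : ℕ} {n : Fin k → ℕ} {w : ℕ}

lemma hat_tq (X : ∀ j, Matrix (Fin (n j)) (Fin (n j)) ℚ) (a : ℚ) : hat w (fun j => 1 + a • X j) = 1 + a • em w X := by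
  have h1 : (fun j => 1 + a • X j) = (1 : ∀ j, Matrix (Fin (n j)) (Fin (n j)) ℚ) + a • X := rfl
  rw [h1]
  unfold hat em
  rw [blockDiagonal'_add, blockDiagonal'_smul, blockDiagonal'_one, ← fromBlocks_one, fromBlocks_smul, fromBlocks_add]
  simp

/-- a bounded tensor is killed by the transvections -/
theorem kill_tq {Q : ∀ i, Matrix (Fin (n i)) (Fin (n i)) ℤ} (hQd : ∀ i, (Q i).det ≠ 0) {q : ℕ}
    {u : (Fin q → (Σ i, Fin (n i)) ⊕ Fin w) → ℚ} {K : ℝ}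
    (hK : ∀ γ : ∀ i, Matrix (Fin (n i)) (Fin (n i)) ℚ, Iso1 Q γ → ∀ p, ‖qc (trl (hat w γ) u) p‖ ≤ K)
    (i : Fin k) (hQ : (Q i)ᵀ = -Q i) (z : Fin (n i) → ℚ) : tq (ir (Q i)) z ∈ kiq w (qc u) i := by
  have hB : (ir (Q i))ᵀ = -ir (Q i) := by
    ext a b
    have h1 := congrFun (congrFun hQ a) b
    rw [Matrix.transpose_apply, Matrix.neg_apply] at h1
    simp only [ir, Matrix.transpose_apply, Matrix.neg_apply, Matrix.map_apply]
    rw [h1, Int.cast_neg]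
  show lieA (em w (Pi.single i (cmx (tq (ir (Q i)) z)))) (qc u) = 0
  rw [← cmx_em']
  refine killb _ u K fun m p => ?_
  rw [← hat_tq]
  refine hK _ (fun j => ?_) p
  by_cases h : j = i
  · subst h
    rw [Pi.single_eq_same]
    exact ⟨tq_iso hB z _, tq_det hB (ir_det (hQd j)) z _⟩
  · rw [Pi.single_eq_of_ne h, smul_zero, add_zero]
    exact ⟨by simp, by simp⟩

/-- the conditions on the forms -/
def Cl {m : ℕ} (Q : Matrix (Fin m) (Fin m) ℤ) : Prop :=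
  0 < m ∧ Q.det ≠ 0 ∧ (Qᵀ = -Q ∨ (Qᵀ = Q ∧ ∃ x y : Fin m → ℤ, 0 < x ⬝ᵥ (Q *ᵥ x) ∧ y ⬝ᵥ (Q *ᵥ y) < 0))

lemma bf_ir {m : ℕ} (Q : Matrix (Fin m) (Fin m) ℤ) (x : Fin m → ℤ) :
    bf (ir Q) (fun a => (x a : ℚ)) (fun a => (x a : ℚ)) = ((x ⬝ᵥ (Q *ᵥ x) : ℤ) : ℚ) := by
  unfold bf ir Matrix.mulVec dotProduct
  push_cast
  rfl

lemma single_cast {m : ℕ} (a : Fin m) : (Pi.single a 1 : Fin m → ℂ) = fun x => (((Pi.single a 1 : Fin m → ℚ) x : ℚ) : ℂ) := by
  funext x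
  by_cases hx : x = a
  · subst hx
    simp
  · simp [hx]

lemma ic_ir {m : ℕ} (Q : Matrix (Fin m) (Fin m) ℤ) : cmx (ir Q) = ic Q := by
  ext a b
  show (((Q a b : ℤ) : ℚ) : ℂ) = ((Q a b : ℤ) : ℂ)
  push_cast
  rfl

lemma tvC_cast {m : ℕ} (Q : Matrix (Fin m) (Fin m) ℤ) (z : Fin m → ℚ) :
    tvC (ic Q) (fun a => (z a : ℂ)) = cmx (tq (ir Q) z) := by
  rw [← ic_ir]
  ext a b
  show (z a : ℂ) * ∑ c, (z c : ℂ) * ((ir Q c b : ℚ) : ℂ) = ((z a * ∑ c, z c * ir Q c b : ℚ) : ℂ)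
  push_cast
  rfl

lemma hx_cast {m : ℕ} (Q : Matrix (Fin m) (Fin m) ℤ) (v z : Fin m → ℚ) :
    hx (ic Q) (fun a => (v a : ℂ)) (fun a => (z a : ℂ)) = cmx (hx (ir Q) v z) := by
  rw [← ic_ir]
  ext a b
  show ∑ c, ((v a : ℂ) * (z c : ℂ) - (z a : ℂ) * (v c : ℂ)) * ((ir Q c b : ℚ) : ℂ) =
    ((∑ c, (v a * z c - z a * v c) * ir Q c b : ℚ) : ℂ)
  push_cast
  rfl

theorem kill_cl {Q : ∀ i, Matrix (Fin (n i)) (Fin (n i)) ℤ} (hQ : ∀ i, Cl (Q i)) {q : ℕ}
    {u : (Fin q → (Σ i, Fin (n i)) ⊕ Fin w) → ℚ} {K : ℝ}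
    (hK : ∀ γ : ∀ i, Matrix (Fin (n i)) (Fin (n i)) ℚ, Iso1 Q γ → ∀ p, ‖qc (trl (hat w γ) u) p‖ ≤ K) :
    ∀ X ∈ Hs fun i => ic (Q i), lieA (fromBlocks X 0 0 (0 : Matrix (Fin w) (Fin w) ℂ)) (qc u) = 0 := by
  rintro _ ⟨X, hX, rfl⟩
  show X ∈ kil w (qc u)
  have hX' : ∀ i, X i ∈ (kil w (qc u)).comap (LinearMap.single ℂ (fun i => Matrix (Fin (n i)) (Fin (n i)) ℂ) i) := by
    intro i
    obtain ⟨-, hd, h1 | ⟨h1, x, y, hx0, hy0⟩⟩ := hQ i
    · rw [sp_span (ic_T h1) (ic_det hd) (hX i).2]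
      refine Submodule.sum_mem _ fun a _ => Submodule.sum_mem _ fun b _ => Submodule.smul_mem _ _ ?_
      have htv : ∀ z : Fin (n i) → ℚ, tvC (ic (Q i)) (fun a => (z a : ℂ)) ∈
          (kil w (qc u)).comap (LinearMap.single ℂ (fun i => Matrix (Fin (n i)) (Fin (n i)) ℂ) i) := by
        intro z
        rw [tvC_cast]
        exact kill_tq (fun i => (hQ i).2.1) hK i h1 z
      have e2 : (Pi.single a 1 + Pi.single b 1 : Fin (n i) → ℂ) =
          fun x => (((Pi.single a 1 + Pi.single b 1 : Fin (n i) → ℚ) x : ℚ) : ℂ) := by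
        rw [single_cast a, single_cast b]
        funext x
        simp only [Pi.add_apply, Rat.cast_add]
      refine Submodule.sub_mem _ (Submodule.sub_mem _ ?_ ?_) ?_
      · rw [e2]
        exact htv _
      · rw [single_cast a]
        exact htv _
      · rw [single_cast b]
        exact htv _
    · have hB : (ic (Q i))ᵀ = ic (Q i) := congrArg (fun M : Matrix (Fin (n i)) (Fin (n i)) ℤ => M.map (Int.cast : ℤ → ℂ)) h1
      rw [so_span hB (ic_det hd) (hX i).2]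
      refine Submodule.sum_mem _ fun a _ => Submodule.sum_mem _ fun b _ => Submodule.smul_mem _ _ ?_
      rw [single_cast a, single_cast b, hx_cast]
      refine kill_hx (fun i => (hQ i).2.1) hK i h1 (x := fun a => (x a : ℚ)) (y := fun a => (y a : ℚ)) ?_ ?_ _ _
      · rw [bf_ir]
        exact_mod_cast hx0
      · rw [bf_ir]
        exact_mod_cast hy0
  rw [← Finset.univ_sum_single X]
  exact Submodule.sum_mem _ fun i _ => hX' i

end Q207.GH
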