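import Pool.Agent.Q207.GH.So2

/-!
# Project GH: generators for full symplectic and orthogonal groups, the end
-/

set_option autoImplicit false

open Matrix Finset

namespace Q207.GH

open Q207.DB (BD Okf Dl)
open Q207.HG (cmx hB Grd lkL)
open Q207.HT (lieA lieA_apply lieA_add lieA_smul lieA_zero qc InvL GenL mix)

variable {k : ℕ} {n : Fin k → ℕ} {w : ℕ}

lemma Cl.okf {m : ℕ} {Q : Matrix (Fin m) (Fin m) ℤ} (hQ : Cl Q) : (ic Q)ᵀ = -ic Q ∨ (ic Q)ᵀ = ic Q := by
  obtain ⟨-, -, h1 | ⟨h1, -⟩⟩ := hQ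
  · exact Or.inl (ic_T h1)
  · exact Or.inr (congrArg (fun M : Matrix (Fin m) (Fin m) ℤ => M.map (Int.cast : ℤ → ℂ)) h1)

/-- the degrees of the generators -/
def Dc (Q : ∀ i, Matrix (Fin (n i)) (Fin (n i)) ℤ) (s : ℕ) : Prop := s = 2 ∨ ∃ i, (Q i)ᵀ = Q i ∧ s = n i

/-- the first fundamental theorem -/
theorem cl_gen {Q : ∀ i, Matrix (Fin (n i)) (Fin (n i)) ℤ} (hQ : ∀ i, Cl (Q i)) : GenL (Hs fun i => ic (Q i)) (Dc Q) := by
  have hu : ∀ i, IsUnit (ic (Q i)) := fun i => (Matrix.isUnit_iff_isUnit_det _).2 (ic_det (hQ i).2.1)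
  have h1 := Pool.Agent.Q195.HT.stB (Q162.HT.stA Q149.HT.fft Pool.Agent.Q195.HT.trbd) (Fin k) n (fun i => ic (Q i))
    (fun i _ => ⟨hu i, (hQ i).okf⟩) (fun i => (hQ i).1) (Fin k) n (fun i => i) (fun _ => false)
    (fun j => (1 : Matrix (Fin (n j)) (Fin (n j)) ℂ)) (fun j => (1 : Matrix (Fin (n j)) (Fin (n j)) ℂ))
    (fun _ => Matrix.one_mul 1) (fun _ => Matrix.one_mul 1)
  have h2 : BD (Q207.HT.WL (fun i => ic (Q i)) (fun i => i) (fun _ => false) (fun j => (1 : Matrix (Fin (n j)) (Fin (n j)) ℂ))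
      fun j => (1 : Matrix (Fin (n j)) (Fin (n j)) ℂ)) = Hs fun i => ic (Q i) := by
    unfold Hs
    congr 1
    ext X
    constructor
    · rintro ⟨Y, hY, hXY⟩ i
      have h3 := hXY i
      simp only [lkL, Bool.false_eq_true, if_false, Matrix.one_mul, Matrix.mul_one] at h3
      rw [h3]
      exact hY i
    · intro hX
      refine ⟨X, hX, fun i => ?_⟩
      simp only [lkL, Bool.false_eq_true, if_false, Matrix.one_mul, Matrix.mul_one]
  rw [h2] at h1
  refine h1.mono fun s hs => ?_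
  rcases hs with h3 | ⟨i, h3, h4⟩
  · exact Or.inl h3
  · refine Or.inr ⟨i, ?_, h4⟩
    obtain ⟨-, -, h5 | ⟨h5, -⟩⟩ := hQ i
    · exact absurd ⟨hu i, ic_T h5⟩ h3
    · exact h5

/-- flat tensors: killed by all rational infinitesimal isometries -/
def Fl (Q : ∀ i, Matrix (Fin (n i)) (Fin (n i)) ℤ) {s : ℕ} (v : (Fin s → Σ i, Fin (n i)) → ℂ) : Prop :=
  ∀ X : ∀ i, Matrix (Fin (n i)) (Fin (n i)) ℚ, (∀ i, (X i)ᵀ * ir (Q i) + ir (Q i) * X i = 0) →
    lieA (cmx (blockDiagonal' X)) v = 0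

/-- trace zero is automatic -/
lemma mem_hB_of {m : ℕ} {B X : Matrix (Fin m) (Fin m) ℂ} (hu : IsUnit B.det) (h : Xᵀ * B + B * X = 0) : X ∈ hB B := by
  refine ⟨?_, h⟩
  have h1 : X = -(B⁻¹ * Xᵀ * B) := by
    have h2 : B * X = -(Xᵀ * B) := eq_neg_of_add_eq_zero_right h
    calc X = B⁻¹ * (B * X) := by rw [← Matrix.mul_assoc, Matrix.nonsing_inv_mul _ hu, Matrix.one_mul]
      _ = _ := by rw [h2, Matrix.mul_neg, Matrix.mul_assoc]
  have h2 : X.trace = -X.trace := by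
    conv_lhs => rw [h1]
    rw [Matrix.trace_neg, Matrix.trace_mul_cycle, Matrix.mul_nonsing_inv _ hu, Matrix.one_mul, Matrix.trace_transpose]
  exact self_eq_neg.1 h2

/-- the operators which kill a tensor on the first summand -/
noncomputable def kiV {s : ℕ} (v : (Fin s → Σ i, Fin (n i)) → ℂ) : Submodule ℂ (∀ i, Matrix (Fin (n i)) (Fin (n i)) ℂ) where
  carrier := {X | lieA (blockDiagonal' X) v = 0}
  zero_mem' := by
    show lieA (blockDiagonal' 0) v = 0
    rw [blockDiagonal'_zero, lieA_zero]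
  add_mem' := by
    intro X Y hX hY
    show lieA (blockDiagonal' (X + Y)) v = 0
    rw [blockDiagonal'_add, lieA_add, show lieA (blockDiagonal' X) v = 0 from hX, show lieA (blockDiagonal' Y) v = 0 from hY,
      add_zero]
  smul_mem' := by
    intro c X hX
    show lieA (blockDiagonal' (c • X)) v = 0
    rw [blockDiagonal'_smul, lieA_smul, show lieA (blockDiagonal' X) v = 0 from hX, smul_zero]

theorem fl_iff {Q : ∀ i, Matrix (Fin (n i)) (Fin (n i)) ℤ} (hQ : ∀ i, Cl (Q i)) {s : ℕ} (v : (Fin s → Σ i, Fin (n i)) → ℂ) :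
    Fl Q v ↔ InvL (Hs fun i => ic (Q i)) v := by
  constructor
  · rintro h _ ⟨X, hX, rfl⟩
    show X ∈ kiV v
    have hgen : ∀ i (N : Matrix (Fin (n i)) (Fin (n i)) ℚ), Nᵀ * ir (Q i) + ir (Q i) * N = 0 →
        cmx N ∈ (kiV v).comap (LinearMap.single ℂ (fun i => Matrix (Fin (n i)) (Fin (n i)) ℂ) i) := by
      intro i N hN
      show lieA (blockDiagonal' (Pi.single i (cmx N) : ∀ j, Matrix (Fin (n j)) (Fin (n j)) ℂ)) v = 0
      have h1 := h (Pi.single i N) (fun j => by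
        by_cases hj : j = i
        · subst hj
          rw [Pi.single_eq_same]
          exact hN
        · rw [Pi.single_eq_of_ne hj]
          simp)
      have h2 : cmx (blockDiagonal' (Pi.single i N : ∀ j, Matrix (Fin (n j)) (Fin (n j)) ℚ)) =
          blockDiagonal' (Pi.single i (cmx N) : ∀ j, Matrix (Fin (n j)) (Fin (n j)) ℂ) := by
        show (blockDiagonal' _).map (algebraMap ℚ ℂ) = _
        rw [blockDiagonal'_map _ _ (map_zero _)]
        congr 1
        funext j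
        by_cases hj : j = i
        · subst hj
          rw [Pi.single_eq_same, Pi.single_eq_same]
        · rw [Pi.single_eq_of_ne hj, Pi.single_eq_of_ne hj, Matrix.map_zero _ (map_zero _)]
      rw [← h2]
      exact h1
    have hX' : ∀ i, X i ∈ (kiV v).comap (LinearMap.single ℂ (fun i => Matrix (Fin (n i)) (Fin (n i)) ℂ) i) := by
      intro i
      obtain ⟨-, hd, h1 | ⟨h1, -⟩⟩ := hQ i
      · have hB : (ir (Q i))ᵀ = -ir (Q i) := by
          ext a b
          have h2 := congrFun (congrFun h1 a) b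
          rw [Matrix.transpose_apply, Matrix.neg_apply] at h2
          simp only [ir, Matrix.transpose_apply, Matrix.neg_apply, Matrix.map_apply]
          rw [h2, Int.cast_neg]
        have htv : ∀ z : Fin (n i) → ℚ, tvC (ic (Q i)) (fun a => (z a : ℂ)) ∈
            (kiV v).comap (LinearMap.single ℂ (fun i => Matrix (Fin (n i)) (Fin (n i)) ℂ) i) := by
          intro z
          rw [tvC_cast]
          refine hgen i _ ?_
          have hqz : ir (Q i) *ᵥ z = -(z ᵥ* ir (Q i)) := by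
            rw [← Matrix.vecMul_transpose, hB, Matrix.vecMul_neg]
          rw [tq, Matrix.transpose_vecMulVec, Matrix.vecMulVec_mul, Matrix.mul_vecMulVec, hqz, Matrix.neg_vecMulVec, add_neg_cancel]
        rw [sp_span (ic_T h1) (ic_det hd) (hX i).2]
        refine Submodule.sum_mem _ fun a _ => Submodule.sum_mem _ fun b _ => Submodule.smul_mem _ _ ?_
        have e2 : (Pi.single a 1 + Pi.single b 1 : Fin (n i) → ℂ) =
            fun x => (((Pi.single a 1 + Pi.single b 1 : Fin (n i) → ℚ) x : ℚ) : ℂ) := by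
          rw [single_cast a, single_cast b]
          funext x
          simp only [Pi.add_apply, Rat.cast_add]
        refine Submodule.sub_mem _ (Submodule.sub_mem _ ?_ ?_) ?_
        · rw [e2]
          exact htv _
        · rw [single_cast a]
          exact htv _
        · rw [single_cast b]
          exact htv _
      · have hB : (ic (Q i))ᵀ = ic (Q i) := congrArg (fun M : Matrix (Fin (n i)) (Fin (n i)) ℤ => M.map (Int.cast : ℤ → ℂ)) h1
        have hB' : (ir (Q i))ᵀ = ir (Q i) := congrArg (fun M : Matrix (Fin (n i)) (Fin (n i)) ℤ => M.map (Int.cast : ℤ → ℚ)) h1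
        rw [so_span hB (ic_det hd) (hX i).2]
        refine Submodule.sum_mem _ fun a _ => Submodule.sum_mem _ fun b _ => Submodule.smul_mem _ _ ?_
        rw [single_cast a, single_cast b, hx_cast]
        exact hgen i _ (hx_lie hB' _ _)
    rw [← Finset.univ_sum_single X]
    exact Submodule.sum_mem _ fun i _ => hX' i
  · intro h X hX
    refine h _ ⟨fun i => cmx (X i), fun i => mem_hB_of (ic_det (hQ i).2.1) ?_, ?_⟩
    · have h1 := congrArg (fun M : Matrix (Fin (n i)) (Fin (n i)) ℚ => cmx M) (hX i)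
      simp only [Q207.HG.cmx_add, Q207.HG.cmx_zero] at h1
      show (cmx (X i))ᵀ * ic (Q i) + ic (Q i) * cmx (X i) = 0
      rw [← ic_ir]
      have h2 : ∀ A B : Matrix (Fin (n i)) (Fin (n i)) ℚ, cmx (A * B) = cmx A * cmx B := fun A B => Matrix.map_mul
      rw [h2, h2] at h1
      exact h1
    · show (blockDiagonal' _).map (algebraMap ℚ ℂ) = _
      rw [blockDiagonal'_map _ _ (map_zero _)]

/-- invariants of rational operators are combinations of rational ones -/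
theorem rat_span {K : Type} [Fintype K] [DecidableEq K] {s : ℕ} (𝒩 : Set (Matrix K K ℚ)) (v : (Fin s → K) → ℂ)
    (hv : ∀ N ∈ 𝒩, lieA (cmx N) v = 0) :
    v ∈ Submodule.span ℂ ((fun (x : (Fin s → K) → ℚ) p => ((x p : ℚ) : ℂ)) '' {x | ∀ N ∈ 𝒩, lieA (cmx N) (qc x) = 0}) := by
  classical
  set S : Submodule ℚ ℂ := Submodule.span ℚ (Set.range v) with hS
  have hfin : Module.Finite ℚ S := Module.Finite.iff_fg.2 (Submodule.fg_span (Set.finite_range _))
  let e := Module.finBasis ℚ S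
  have hmem : ∀ p, v p ∈ S := fun p => Submodule.subset_span ⟨p, rfl⟩
  set x : Fin (Module.finrank ℚ S) → (Fin s → K) → ℚ := fun i p => e.repr ⟨v p, hmem p⟩ i with hx
  have hsum : v = ∑ i, ((e i : S) : ℂ) • qc (x i) := by
    funext p
    rw [Finset.sum_apply]
    have h1 := e.sum_repr ⟨v p, hmem p⟩
    have h2 := congrArg (fun s : S => (s : ℂ)) h1
    simp only [Submodule.coe_sum, Submodule.coe_smul] at h2
    rw [← h2]
    refine sum_congr rfl fun i _ => ?_
    rw [Pi.smul_apply, smul_eq_mul, Algebra.smul_def, mul_comm]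
    rfl
  have hlin : LinearIndependent ℚ fun i => ((e i : S) : ℂ) :=
    e.linearIndependent.map' S.subtype (Submodule.ker_subtype S)
  have hzero : ∀ i, ∀ N ∈ 𝒩, lieA (cmx N) (qc (x i)) = 0 := by
    intro i N hN
    funext p
    have h0 : ∀ i, lieA (cmx N) (qc (x i)) p = ((∑ l, ∑ y, N (p l) y * x i (Function.update p l y) : ℚ) : ℂ) := fun i =>
      Pool.Agent.Q195.HT.lieA_rat N (x i) p
    have h1 : ∑ i, (∑ l, ∑ y, N (p l) y * x i (Function.update p l y)) • ((e i : S) : ℂ) = 0 := by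
      have h2 := congrFun (hv N hN) p
      rw [hsum, map_sum, Finset.sum_apply] at h2
      rw [Pi.zero_apply] at h2
      rw [← h2]
      refine sum_congr rfl fun i _ => ?_
      rw [map_smul, Pi.smul_apply, h0, smul_eq_mul, Algebra.smul_def, mul_comm]
      rfl
    have h3 := Fintype.linearIndependent_iff.1 hlin _ h1 i
    rw [h0, h3]
    simp
  rw [hsum]
  refine Submodule.sum_mem _ fun i _ => Submodule.smul_mem _ _ (Submodule.subset_span ⟨x i, hzero i, rfl⟩)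

/-- flat rational tensors are Hodge classes -/
theorem fl_hodge {Q : ∀ i, Matrix (Fin (n i)) (Fin (n i)) ℤ} (hQ : ∀ i, Cl (Q i)) {c : Fin k → ℂ} (hc : ∀ i, c i ≠ 0)
    {H : ℤ → Submodule ℂ ((Σ i, Fin (n i)) → ℂ)} (hH : DirectSum.IsInternal H)
    (hHc : ∀ p, ∀ v ∈ H p, (fun a => (starRingEnd ℂ) (v a)) ∈ H (-p)) {lev : (Σ i, Fin (n i)) → ℤ}
    {Z : Matrix (Σ i, Fin (n i)) (Σ i, Fin (n i)) ℂ} (hZ : IsUnit Z.det) (hZb : ∀ x y, x.1 ≠ y.1 → Z x y = 0)
    (hfil : ∀ p, (⨆ q : {q : ℤ // p ≤ q}, H q) = Submodule.span ℂ {v | ∃ a, p ≤ lev a ∧ v = Z a})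
    {Φ : Matrix (Σ i, Fin (n i)) (Σ i, Fin (n i)) ℂ} (hΦ : ∀ p, ∀ v ∈ H p, v ᵥ* Φ = (p : ℂ) • v)
    (hS : Pol H (blockDiagonal' fun i => c i • ic (Q i))) {s : ℕ} (v : (Fin s → Σ i, Fin (n i)) → ℚ)
    (hv : Fl Q (qc v)) : lieA Φᵀ (qc v) = 0 := by
  have hR := form_oper hH hHc hΦ hS
  set S := blockDiagonal' fun i => c i • ic (Q i) with hSdef
  have hSb : ∀ x y : (Σ i, Fin (n i)), x.1 ≠ y.1 → S x y = 0 := by
    rintro ⟨i, a⟩ ⟨j, b⟩ h
    exact blockDiagonal'_apply_ne _ _ _ h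
  set T := dgb Φ with hT
  have h1 : T * S + S * Tᵀ = 0 := by
    rw [hT, dgb_T, dgb_mul _ hSb, mul_dgb _ hSb]
    have h2 : dgb (Φ * S) + dgb (S * Φᵀ) = dgb (Φ * S + S * Φᵀ) := by
      ext x y
      rw [Matrix.add_apply, dgb_apply, dgb_apply, dgb_apply, Matrix.add_apply]
      by_cases h : x.1 = y.1
      · rw [if_pos h, if_pos h, if_pos h]
      · rw [if_neg h, if_neg h, if_neg h, add_zero]
    rw [h2, hR]
    ext x y
    rw [dgb_apply, Matrix.zero_apply, ite_self]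
  have hgrd : Grd lev (Z * T * Z⁻¹) := by
    have h3 := Q249.HG.grd _ lev Z Φ H hZ hfil hΦ
    have h4 : Z * T * Z⁻¹ = dgb (Z * Φ * Z⁻¹) := by
      rw [hT, mul_dgb _ hZb, dgb_mul _ (inv_block hZb hZ)]
    rw [h4]
    intro a b hab
    rw [dgb_apply]
    by_cases h : a.1 = b.1
    · rw [if_pos h]
      exact h3 a b hab
    · rw [if_neg h, if_neg fun h5 => h (by rw [h5])]
  refine Pool.Agent.Q195.HT.real _ lev Z T Φ H hZ hH hHc hfil hΦ hgrd s _ (fun p => map_ratCast (starRingEnd ℂ) _) ?_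
  -- the blocks
  set X : ∀ i, Matrix (Fin (n i)) (Fin (n i)) ℂ := fun i => Matrix.of fun a b => Φ ⟨i, b⟩ ⟨i, a⟩ with hX
  have hTX : Tᵀ = blockDiagonal' X := by
    rw [hT, dgb_T]
    ext ⟨i, a⟩ ⟨j, b⟩
    rw [dgb_apply]
    by_cases h : i = j
    · subst h
      rw [if_pos rfl, blockDiagonal'_apply_eq]
      rfl
    · rw [if_neg h, blockDiagonal'_apply_ne _ _ _ h]
  rw [hTX]
  refine (fl_iff hQ _).1 hv _ ⟨X, fun i => mem_hB_of (ic_det (hQ i).2.1) ?_, rfl⟩
  have h2 : T = blockDiagonal' fun i => (X i)ᵀ := by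
    rw [← Matrix.transpose_transpose T, hTX, blockDiagonal'_transpose]
  rw [hTX, h2, hSdef, ← blockDiagonal'_mul, ← blockDiagonal'_mul, ← blockDiagonal'_add] at h1
  have h3 := blockDiagonal'_injective (h1.trans blockDiagonal'_zero.symm)
  have h4 := congrFun h3 i
  simp only [Pi.add_apply, Pi.zero_apply, Matrix.mul_smul, Matrix.smul_mul, ← smul_add] at h4
  exact (smul_eq_zero.1 h4).resolve_left (hc i)

/-- **Generators for full symplectic and orthogonal groups.** -/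
theorem gen_cl {Q : ∀ i, Matrix (Fin (n i)) (Fin (n i)) ℤ} (hQ : ∀ i, Cl (Q i)) {q : ℕ}
    {u : (Fin q → (Σ i, Fin (n i)) ⊕ Fin w) → ℚ} {K : ℝ}
    (hK : ∀ γ : ∀ i, Matrix (Fin (n i)) (Fin (n i)) ℚ, Iso1 Q γ → ∀ p, ‖qc (trl (hat w γ) u) p‖ ≤ K)
    {ΦV : Matrix (Σ i, Fin (n i)) (Σ i, Fin (n i)) ℂ} {ΦW : Matrix (Fin w) (Fin w) ℂ}
    (hu : lieA (fromBlocks ΦV 0 0 ΦW) (qc u) = 0)
    (hfl : ∀ (s : ℕ) (v : (Fin s → Σ i, Fin (n i)) → ℚ), Fl Q (qc v) → lieA ΦV (qc v) = 0) :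
    u ∈ Submodule.span ℚ {x | ∃ (l : ℕ) (s : Fin l → ℕ) (s₀ : ℕ) (e : (Σ j, Fin (s j)) ⊕ Fin s₀ ≃ Fin q)
      (v : ∀ j, (Fin (s j) → Σ i, Fin (n i)) → ℚ) (c : (Fin s₀ → Fin w) → ℚ), (∀ j, Dc Q (s j) ∧ Fl Q (qc (v j))) ∧
      lieA ΦW (qc c) = 0 ∧ x = mix e v c} :=
  Pool.Agent.Q195.HT.mixed (Σ i, Fin (n i)) (Fin w) (Hs fun i => ic (Q i)) (Dc Q) (cl_gen hQ)
    (fun s => {x | Fl Q (qc x)}) (fun s _ v hv => by
      have h1 := rat_span {N : Matrix (Σ i, Fin (n i)) (Σ i, Fin (n i)) ℚ | ∃ X : ∀ i, Matrix (Fin (n i)) (Fin (n i)) ℚ,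
        (∀ i, (X i)ᵀ * ir (Q i) + ir (Q i) * X i = 0) ∧ N = blockDiagonal' X} v (by
          rintro _ ⟨X, hX, rfl⟩
          exact (fl_iff hQ v).2 hv X hX)
      refine Submodule.span_mono (Set.image_mono ?_) h1
      intro x hx X hX
      exact hx _ ⟨X, hX, rfl⟩) ΦV ΦW (fun s _ v hv => hfl s v hv) q u (kill_cl hQ hK) hu

end Q207.GH
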