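import Pool.Agent.Q207.GH.Stm
import Pool.Agent.Q198.HG.Spn

/-!
# Project GH: transfer of the solvability of a linear system
-/

set_option autoImplicit false

open Matrix Finset

namespace Q207.GH

open Q207.HG (Grd Dt)

lemma li_of_minor {K : Type} {r : ℕ} {A : Fin r → K → ℂ} {p : Fin r → K} (h : Dt A p ≠ 0) : LinearIndependent ℂ A := by
  rw [Fintype.linearIndependent_iff]
  intro c hc
  by_contra h1
  push Not at h1
  apply h
  unfold Dt
  rw [← Matrix.exists_vecMul_eq_zero_iff]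
  refine ⟨c, fun h2 => ?_, ?_⟩
  · obtain ⟨i, hi⟩ := h1
    exact hi (congrFun h2 i)
  · funext l
    have h3 := congrFun hc (p l)
    rw [Finset.sum_apply] at h3
    refine Eq.trans ?_ h3
    rfl

section

variable {I : Type} [Fintype I] [DecidableEq I] {lev : I → ℤ}

/-- the linear map -/
noncomputable def vecL (lev : I → ℤ) (Z : Matrix I I ℂ) : Matrix I I ℂ →ₗ[ℂ] ({x : I × I // lev x.2 ≤ lev x.1} → ℂ) where
  toFun T := vec lev (Z * T * Z⁻¹)
  map_add' T T' := by
    funext x
    show (Z * (T + T') * Z⁻¹) x.1.1 x.1.2 = (Z * T * Z⁻¹) x.1.1 x.1.2 + (Z * T' * Z⁻¹) x.1.1 x.1.2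
    rw [Matrix.mul_add, Matrix.add_mul, Matrix.add_apply]
  map_smul' c T := by
    funext x
    show (Z * (c • T) * Z⁻¹) x.1.1 x.1.2 = c * (Z * T * Z⁻¹) x.1.1 x.1.2
    rw [Matrix.mul_smul, Matrix.smul_mul, Matrix.smul_apply, smul_eq_mul]

omit [Fintype I] in
lemma grd_iff {M : Matrix I I ℂ} : Grd lev M ↔ vec lev M = vec lev (La lev) := by
  constructor
  · intro h
    funext x
    show M x.1.1 x.1.2 = Matrix.diagonal (fun a => ((lev a : ℤ) : ℂ)) x.1.1 x.1.2
    rw [h _ _ x.2, Matrix.diagonal_apply]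
  · intro h a b hab
    have h1 := congrFun h ⟨(a, b), hab⟩
    have h2 : M a b = Matrix.diagonal (fun a => ((lev a : ℤ) : ℂ)) a b := h1
    rw [h2, Matrix.diagonal_apply]

end

/-- **GH4.** -/
theorem solv : S_Solv := by
  classical
  intro I _ _ lev Z Z' hZ hZ' h1 h2 𝔪 hex
  obtain ⟨T, hT, hgrd⟩ := hex
  set d := Module.finrank ℚ 𝔪 with hd
  set b := Module.finBasis ℚ 𝔪 with hb
  set X : Fin d → Matrix I I ℚ := fun u => (b u : Matrix I I ℚ) with hX
  set m : Matrix I I ℚ → Matrix I I ℂ := fun X => X.map (algebraMap ℚ ℂ) with hm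
  have hspan : T ∈ Submodule.span ℂ (Set.range fun u => m (X u)) := by
    refine (Submodule.span_le.2 ?_ : Submodule.span ℂ (m '' (𝔪 : Set (Matrix I I ℚ))) ≤ _) hT
    rintro _ ⟨x, hx, rfl⟩
    have h3 := b.sum_repr ⟨x, hx⟩
    have h4 := congrArg (fun y : 𝔪 => m (y : Matrix I I ℚ)) h3
    have h5 : m x = ∑ u, ((b.repr ⟨x, hx⟩ u : ℚ) : ℂ) • m (X u) := by
      refine h4.symm.trans ?_
      ext i j
      rw [Matrix.sum_apply]
      show algebraMap ℚ ℂ (((∑ u, b.repr ⟨x, hx⟩ u • b u : 𝔪) : Matrix I I ℚ) i j) = _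
      rw [Submodule.coe_sum, Matrix.sum_apply, map_sum]
      refine Finset.sum_congr rfl fun u _ => ?_
      rw [Submodule.coe_smul, Matrix.smul_apply, Matrix.smul_apply, smul_eq_mul, smul_eq_mul, map_mul]
      rfl
    rw [SetLike.mem_coe, h5]
    exact Submodule.sum_mem _ fun u _ => Submodule.smul_mem _ _ (Submodule.subset_span ⟨u, rfl⟩)
  have hL : vec lev (La lev) ∈ Submodule.span ℂ (Set.range fun u => vec lev (Z * m (X u) * Z⁻¹)) := by
    rw [← grd_iff.1 hgrd]
    have h3 := Submodule.mem_map_of_mem (f := vecL lev Z) hspan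
    rw [Submodule.map_span, ← Set.range_comp] at h3
    exact h3
  obtain ⟨κ, a, hinj, hsp, hli⟩ := exists_linearIndependent' ℂ (fun u : Fin d => vec lev (Z * m (X u) * Z⁻¹))
  have : Finite κ := Finite.of_injective a hinj
  have := Fintype.ofFinite κ
  set s := Fintype.card κ with hs
  set e : Fin s ≃ κ := (Fintype.equivFin κ).symm with he
  have hsd : s ≤ Fintype.card I ^ 2 := by
    have h3 : s ≤ Fintype.card (Fin d) := Fintype.card_le_of_injective a hinj
    rw [Fintype.card_fin] at h3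
    refine h3.trans ((Submodule.finrank_le 𝔪).trans ?_)
    rw [Module.finrank_matrix, Module.finrank_self, mul_one, sq]
  set X' : Fin s → Matrix I I ℚ := fun u => X (a (e u)) with hX'
  have hli' : LinearIndependent ℂ fun u => vec lev (Z * m (X' u) * Z⁻¹) := hli.comp e e.injective
  have hL' : vec lev (La lev) ∈ Submodule.span ℂ (Set.range fun u => vec lev (Z * m (X' u) * Z⁻¹)) := by
    have h3 : Set.range (fun u => vec lev (Z * m (X' u) * Z⁻¹)) =
        Set.range ((fun u : Fin d => vec lev (Z * m (X u) * Z⁻¹)) ∘ a) := by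
      ext y
      constructor
      · rintro ⟨u, rfl⟩
        exact ⟨e u, rfl⟩
      · rintro ⟨u, rfl⟩
        refine ⟨e.symm u, ?_⟩
        show vec lev (Z * m (X (a (e (e.symm u)))) * Z⁻¹) = _
        rw [Equiv.apply_symm_apply]
        rfl
    rw [h3, hsp]
    exact hL
  -- independence at the second point
  have hli2 : LinearIndependent ℂ fun u => vec lev (Z' * m (X' u) * Z'⁻¹) := by
    obtain ⟨p, hp⟩ := Pool.Agent.Q198.HG.exists_minor _ hli'
    refine li_of_minor (p := p) fun h0 => hp ?_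
    exact (h2 s X' hsd).1 p h0
  have hL2 : vec lev (La lev) ∈ Submodule.span ℂ (Set.range fun u => vec lev (Z' * m (X' u) * Z'⁻¹)) := by
    by_contra hne
    have h3 : LinearIndependent ℂ (Fin.snoc (fun u => vec lev (Z' * m (X' u) * Z'⁻¹)) (vec lev (La lev)) : Fin (s + 1) → _ → ℂ) :=
      linearIndependent_finSnoc.2 ⟨hli2, hne⟩
    obtain ⟨p, hp⟩ := Pool.Agent.Q198.HG.exists_minor _ h3
    apply hp
    refine (h1 s X' hsd).2 p ?_
    by_contra h4
    exact (linearIndependent_finSnoc.1 (li_of_minor h4)).2 hL'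
  obtain ⟨c, hc⟩ := (Submodule.mem_span_range_iff_exists_fun ℂ).1 hL2
  refine ⟨∑ u, c u • m (X' u), ?_, ?_⟩
  · refine Submodule.sum_mem _ fun u _ => Submodule.smul_mem _ _ (Submodule.subset_span ⟨X' u, ?_, rfl⟩)
    exact (b (a (e u))).2
  · rw [grd_iff, ← hc]
    have h3 := map_sum (vecL lev Z') (fun u => c u • m (X' u)) Finset.univ
    refine h3.trans ?_
    refine Finset.sum_congr rfl fun u _ => ?_
    rw [map_smul]
    rfl

end Q207.GH
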