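import Pool.Agent.Q207.GH.Stm
import Pool.Agent.Q207.HT.Asm

/-!
# Project GH: transvections, the derivative of the action
-/

set_option autoImplicit false

open Matrix Finset

namespace Q207.GH

open Q207.HG (cmx hB)
open Q207.HT (lieA qc)

section kill

variable {I : Type} [Fintype I] [DecidableEq I] {q : ℕ}

/-- the coordinate of the moved tensor as a polynomial -/
noncomputable def mp (N : Matrix I I ℚ) (u : (Fin q → I) → ℚ) (p : Fin q → I) : Polynomial ℚ :=
  ∑ y : Fin q → I, (∏ l, (Polynomial.C ((1 : Matrix I I ℚ) (p l) (y l)) + Polynomial.X * Polynomial.C (N (p l) (y l)))) *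
    Polynomial.C (u y)

lemma mp_eval (N : Matrix I I ℚ) (u : (Fin q → I) → ℚ) (p : Fin q → I) (m : ℚ) : (mp N u p).eval m = trl (1 + m • N) u p := by
  unfold mp trl
  rw [Polynomial.eval_finsetSum]
  refine sum_congr rfl fun y _ => ?_
  rw [Polynomial.eval_mul, Polynomial.eval_prod, Polynomial.eval_C]
  congr 1
  refine prod_congr rfl fun l _ => ?_
  rw [Polynomial.eval_add, Polynomial.eval_mul, Polynomial.eval_C, Polynomial.eval_X, Polynomial.eval_C, Matrix.add_apply,
    Matrix.smul_apply, smul_eq_mul]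

lemma mp_deriv (N : Matrix I I ℚ) (u : (Fin q → I) → ℚ) (p : Fin q → I) :
    (Polynomial.derivative (mp N u p)).eval 0 = ∑ l, ∑ x, N (p l) x * u (Function.update p l x) := by
  unfold mp
  rw [map_sum, Polynomial.eval_finsetSum]
  have h1 : ∀ y : Fin q → I, (Polynomial.derivative ((∏ l, (Polynomial.C ((1 : Matrix I I ℚ) (p l) (y l)) +
      Polynomial.X * Polynomial.C (N (p l) (y l)))) * Polynomial.C (u y))).eval 0 =
      ∑ l, (∏ l' ∈ univ.erase l, (1 : Matrix I I ℚ) (p l') (y l')) * N (p l) (y l) * u y := by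
    intro y
    rw [Polynomial.derivative_mul, Polynomial.derivative_C, mul_zero, add_zero, Polynomial.derivative_prod_finset, Polynomial.eval_mul,
      Polynomial.eval_finsetSum, Polynomial.eval_C, sum_mul]
    refine sum_congr rfl fun l _ => ?_
    rw [Polynomial.eval_mul, Polynomial.eval_prod]
    simp
  simp only [h1]
  rw [sum_comm]
  refine sum_congr rfl fun l _ => ?_
  symm
  refine sum_of_injOn (fun x => Function.update p l x) ?_ (fun _ _ => mem_univ _) ?_ ?_
  · intro x _ x' _ h
    have := congrFun h l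
    simpa using this
  · intro y _ hy
    have h2 : ∃ l' ≠ l, p l' ≠ y l' := by
      by_contra h3
      push Not at h3
      apply hy
      refine ⟨y l, mem_univ _, ?_⟩
      funext l'
      by_cases h4 : l' = l
      · subst h4
        simp
      · simp only [Function.update_of_ne h4]
        exact h3 l' h4
    obtain ⟨l', h3, h4⟩ := h2
    have h5 : (∏ l' ∈ univ.erase l, (1 : Matrix I I ℚ) (p l') (y l')) = 0 :=
      prod_eq_zero (mem_erase.2 ⟨h3, mem_univ l'⟩) (Matrix.one_apply_ne h4)
    rw [h5, zero_mul, zero_mul]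
  · intro x _
    have h2 : (∏ l' ∈ univ.erase l, (1 : Matrix I I ℚ) (p l') (Function.update p l x l')) = 1 := by
      refine prod_eq_one fun l' hl' => ?_
      rw [Function.update_of_ne (ne_of_mem_erase hl'), Matrix.one_apply_eq]
    simp only [h2, Function.update_self, one_mul]

/-- a tensor with a finite orbit under the matrices `1 + m N` is killed by `N` -/
theorem kill (N : Matrix I I ℚ) (u : (Fin q → I) → ℚ) (hfin : {x | ∃ m : ℤ, x = trl (1 + (m : ℚ) • N) u}.Finite) :
    lieA (cmx N) (qc u) = 0 := by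
  have h1 : ∀ p, Polynomial.derivative (mp N u p) = 0 := by
    intro p
    by_cases hc : ∃ c : ℚ, mp N u p = Polynomial.C c
    · obtain ⟨c, hc⟩ := hc
      rw [hc, Polynomial.derivative_C]
    · exfalso
      push Not at hc
      have hF : {c : ℚ | ∃ m : ℤ, c = (mp N u p).eval (m : ℚ)}.Finite := by
        refine (hfin.image fun x => x p).subset ?_
        rintro _ ⟨m, rfl⟩
        exact ⟨_, ⟨m, rfl⟩, (mp_eval N u p m).symm⟩
      have hR : (⋃ c ∈ {c : ℚ | ∃ m : ℤ, c = (mp N u p).eval (m : ℚ)}, {x : ℚ | (mp N u p - Polynomial.C c).IsRoot x}).Finite := by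
        refine hF.biUnion fun c _ => ?_
        exact Polynomial.finite_setOfPred_isRoot (sub_ne_zero.2 (hc c))
      have hZ : (Set.range fun m : ℤ => (m : ℚ)).Finite := by
        refine hR.subset ?_
        rintro _ ⟨m, rfl⟩
        rw [Set.mem_iUnion₂]
        refine ⟨(mp N u p).eval (m : ℚ), ⟨m, rfl⟩, ?_⟩
        show (mp N u p - Polynomial.C ((mp N u p).eval (m : ℚ))).eval (m : ℚ) = 0
        rw [Polynomial.eval_sub, Polynomial.eval_C, sub_self]
      exact Set.infinite_range_of_injective Int.cast_injective hZ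
  funext p
  have h2 := mp_deriv N u p
  rw [h1 p, Polynomial.eval_zero] at h2
  have h3 := congrArg (fun x : ℚ => (x : ℂ)) h2.symm
  simp only [Rat.cast_sum, Rat.cast_mul, Rat.cast_zero] at h3
  exact h3

end kill

section span

variable {n : ℕ}

/-- the transvections -/
def tv (Q : Matrix (Fin n) (Fin n) ℤ) (z : Fin n → ℤ) : Matrix (Fin n) (Fin n) ℤ := vecMulVec z (z ᵥ* Q)

/-- the complex version of the transvections -/
def tvC (B : Matrix (Fin n) (Fin n) ℂ) (z : Fin n → ℂ) : Matrix (Fin n) (Fin n) ℂ := vecMulVec z (z ᵥ* B)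

lemma tv_map (Q : Matrix (Fin n) (Fin n) ℤ) (z : Fin n → ℤ) {R : Type} [CommRing R] (f : ℤ →+* R) :
    (tv Q z).map f = vecMulVec (fun a => f (z a)) ((fun a => f (z a)) ᵥ* Q.map f) := by
  ext a b
  simp only [tv, Matrix.map_apply, vecMulVec_apply, Matrix.vecMul, dotProduct, map_mul, map_sum]

lemma tvC_eq (B : Matrix (Fin n) (Fin n) ℂ) (z : Fin n → ℂ) : tvC B z = vecMulVec z z * B := by
  unfold tvC
  ext a b
  simp only [Matrix.mul_apply, vecMulVec_apply, Matrix.vecMul, dotProduct, mul_sum]
  exact sum_congr rfl fun c _ => by ring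

/-- every element of the symplectic Lie algebra is a combination of transvections -/
theorem sp_span {B : Matrix (Fin n) (Fin n) ℂ} (hB1 : Bᵀ = -B) (hB2 : IsUnit B.det) {X : Matrix (Fin n) (Fin n) ℂ}
    (hX : Xᵀ * B + B * X = 0) :
    X = ∑ a, ∑ b, ((X * B⁻¹) a b / 2) • (tvC B (Pi.single a 1 + Pi.single b 1) - tvC B (Pi.single a 1) - tvC B (Pi.single b 1)) := by
  set S := X * B⁻¹ with hS
  have hXS : X = S * B := by
    rw [hS, Matrix.mul_assoc, Matrix.nonsing_inv_mul _ hB2, Matrix.mul_one]
  have hsym : Sᵀ = S := by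
    have h1 : B * (S - Sᵀ) * B = 0 := by
      rw [hXS, Matrix.transpose_mul, hB1] at hX
      calc B * (S - Sᵀ) * B = -B * Sᵀ * B + B * (S * B) := by
            simp only [Matrix.mul_sub, Matrix.sub_mul, Matrix.neg_mul, Matrix.mul_assoc]
            abel
        _ = 0 := hX
    have h2 : S - Sᵀ = 0 := by
      calc S - Sᵀ = B⁻¹ * (B * (S - Sᵀ) * B) * B⁻¹ := by
            rw [← Matrix.mul_assoc, ← Matrix.mul_assoc, Matrix.nonsing_inv_mul _ hB2, Matrix.one_mul, Matrix.mul_assoc,
              Matrix.mul_nonsing_inv _ hB2, Matrix.mul_one]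
        _ = 0 := by rw [h1, Matrix.mul_zero, Matrix.zero_mul]
    exact (sub_eq_zero.1 h2).symm
  have key : S = ∑ a, ∑ b, (S a b / 2) • (vecMulVec (Pi.single a 1 + Pi.single b 1) (Pi.single a 1 + Pi.single b 1) -
      vecMulVec (Pi.single a 1) (Pi.single a 1) - vecMulVec (Pi.single b 1) (Pi.single b 1) : Matrix (Fin n) (Fin n) ℂ) := by
    ext c d
    simp only [Matrix.sum_apply, Matrix.smul_apply, Matrix.sub_apply, vecMulVec_apply, Pi.add_apply, smul_eq_mul]
    have h1 : ∀ a b : Fin n, S a b / 2 * (((Pi.single a 1 : Fin n → ℂ) c + (Pi.single b 1 : Fin n → ℂ) c) *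
        ((Pi.single a 1 : Fin n → ℂ) d + (Pi.single b 1 : Fin n → ℂ) d) -
        (Pi.single a 1 : Fin n → ℂ) c * (Pi.single a 1 : Fin n → ℂ) d - (Pi.single b 1 : Fin n → ℂ) c * (Pi.single b 1 : Fin n → ℂ) d) =
        (if c = a then (if d = b then S a b / 2 else 0) else 0) + (if d = a then (if c = b then S a b / 2 else 0) else 0) := by
      intro a b
      simp only [Pi.single_apply]
      split_ifs <;> ring
    simp only [h1, sum_add_distrib, sum_ite_irrel, sum_const_zero, sum_ite_eq, mem_univ, if_true]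
    have h2 := congrFun (congrFun hsym c) d
    rw [Matrix.transpose_apply] at h2
    rw [h2]
    ring
  conv_lhs => rw [hXS, key, Finset.sum_mul]
  refine sum_congr rfl fun a _ => ?_
  rw [Finset.sum_mul]
  refine sum_congr rfl fun b _ => ?_
  rw [Matrix.smul_mul, Matrix.sub_mul, Matrix.sub_mul, tvC_eq, tvC_eq, tvC_eq]

end span

end Q207.GH
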