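import Pool.Agent.Q207.GH.Solv
import Pool.Agent.Q207.HT.Asm
import Pool.Agent.Q249.HG.Grd
import Pool.Agent.Q195.HT.Real
import Pool.Agent.Q195.HT.Rat

/-!
# Project GH: Hodge classes are stable under the rational matrices which preserve the relations
-/

set_option autoImplicit false

open Matrix Finset

namespace Q207.GH

open Q207.HG (Grd Dt cmx)
open Q207.HT (lieA qc ann ann_mem ann_span)

section mv

variable {I : Type} [Fintype I] [DecidableEq I]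

/-- the decomposition moved by an invertible matrix -/
noncomputable def mv (g : Matrix I I ℂ) (H : ℤ → Submodule ℂ (I → ℂ)) (p : ℤ) : Submodule ℂ (I → ℂ) :=
  (H p).map (Matrix.vecMulLinear g)

omit [DecidableEq I] in
lemma mem_mv {g : Matrix I I ℂ} {H : ℤ → Submodule ℂ (I → ℂ)} {p : ℤ} {v : I → ℂ} :
    v ∈ mv g H p ↔ ∃ w ∈ H p, w ᵥ* g = v := Submodule.mem_map

lemma mv_inj {g : Matrix I I ℂ} (hg : IsUnit g.det) : Function.Injective (Matrix.vecMulLinear g) := by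
  intro v w h
  have h1 : v ᵥ* g = w ᵥ* g := h
  have h2 := congrArg (fun x => x ᵥ* g⁻¹) h1
  simp only [Matrix.vecMul_vecMul, Matrix.mul_nonsing_inv _ hg, Matrix.vecMul_one] at h2
  exact h2

lemma mv_int {g : Matrix I I ℂ} (hg : IsUnit g.det) {H : ℤ → Submodule ℂ (I → ℂ)} (hH : DirectSum.IsInternal H) :
    DirectSum.IsInternal (mv g H) := by
  rw [DirectSum.isInternal_submodule_iff_iSupIndep_and_iSup_eq_top] at hH ⊢
  refine ⟨LinearMap.iSupIndep_map _ (mv_inj hg) hH.1, ?_⟩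
  have h1 : (⨆ p, mv g H p) = (⨆ p, H p).map (Matrix.vecMulLinear g) := (Submodule.map_iSup _ _).symm
  rw [h1, hH.2, Submodule.map_top, LinearMap.range_eq_top]
  intro v
  refine ⟨v ᵥ* g⁻¹, ?_⟩
  show (v ᵥ* g⁻¹) ᵥ* g = v
  rw [Matrix.vecMul_vecMul, Matrix.nonsing_inv_mul _ hg, Matrix.vecMul_one]

/-- **Stability.** -/
theorem stab (hCnj : S_Cnj) {lev : I → ℤ} {Z : Matrix I I ℂ} (hZ : IsUnit Z.det) {H : ℤ → Submodule ℂ (I → ℂ)}
    (hH : DirectSum.IsInternal H) (hconj : ∀ p, ∀ v ∈ H p, (fun a => (starRingEnd ℂ) (v a)) ∈ H (-p))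
    (hfil : ∀ p, (⨆ q : {q : ℤ // p ≤ q}, H q) = Submodule.span ℂ {v | ∃ a, p ≤ lev a ∧ v = Z a})
    {Φ : Matrix I I ℂ} (hΦ : ∀ p, ∀ v ∈ H p, v ᵥ* Φ = (p : ℂ) • v) {γ : Matrix I I ℚ} (hγ : IsUnit γ.det)
    (h1 : Le lev Z (Z * (cmx γ)ᵀ)) (h2 : Le lev (Z * (cmx γ)ᵀ) Z) {q : ℕ} {u : (Fin q → I) → ℚ}
    (hu : lieA Φᵀ (qc u) = 0) : lieA Φᵀ (qc (trl γ⁻¹ u)) = 0 := by
  have hg : IsUnit (cmx γ).det := by
    have h3 : (cmx γ).det = algebraMap ℚ ℂ γ.det := (RingHom.map_det (algebraMap ℚ ℂ) γ).symm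
    rw [h3]
    exact hγ.map (algebraMap ℚ ℂ)
  have hgT : IsUnit ((cmx γ)ᵀ).det := by rw [Matrix.det_transpose]; exact hg
  have hZ' : IsUnit (Z * (cmx γ)ᵀ).det := by rw [Matrix.det_mul]; exact hZ.mul hgT
  set g := (cmx γ)ᵀ with hgdef
  obtain ⟨T, hT, hgrd⟩ := solv I lev Z (Z * g) hZ hZ' h1 h2 (ann u)
    ⟨Φ, ann_mem Pool.Agent.Q195.HT.rat u hu, Q249.HG.grd I lev Z Φ H hZ hfil hΦ⟩
  have hTu : lieA Tᵀ (qc u) = 0 := ann_span u hT
  have hgconj : ∀ v : I → ℂ, (fun a => (starRingEnd ℂ) ((v ᵥ* g) a)) = (fun a => (starRingEnd ℂ) (v a)) ᵥ* g := by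
    intro v
    funext a
    simp only [Matrix.vecMul, dotProduct, map_sum, map_mul]
    refine Finset.sum_congr rfl fun b _ => ?_
    congr 1
    rw [hgdef, Matrix.transpose_apply]
    exact map_ratCast (starRingEnd ℂ) (γ a b)
  have hreal := Pool.Agent.Q195.HT.real I lev (Z * g) T (g⁻¹ * Φ * g) (mv g H) hZ' (mv_int hgT hH) (by
      intro p v hv
      obtain ⟨w, hw, rfl⟩ := mem_mv.1 hv
      rw [hgconj]
      exact mem_mv.2 ⟨_, hconj p w hw, rfl⟩) (by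
      intro p
      have h3 : (⨆ q : {q : ℤ // p ≤ q}, mv g H q) = (⨆ q : {q : ℤ // p ≤ q}, H q).map (Matrix.vecMulLinear g) :=
        (Submodule.map_iSup _ _).symm
      rw [h3, hfil p, Submodule.map_span]
      congr 1
      ext v
      constructor
      · rintro ⟨_, ⟨a, ha, rfl⟩, rfl⟩
        refine ⟨a, ha, ?_⟩
        funext b
        rfl
      · rintro ⟨a, ha, rfl⟩
        refine ⟨Z a, ⟨a, ha, rfl⟩, ?_⟩
        funext b
        rfl) (by
      intro p v hv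
      obtain ⟨w, hw, rfl⟩ := mem_mv.1 hv
      rw [Matrix.vecMul_vecMul, ← Matrix.mul_assoc, ← Matrix.mul_assoc, Matrix.mul_nonsing_inv _ hgT, Matrix.one_mul,
        ← Matrix.vecMul_vecMul, hΦ p w hw, Matrix.smul_vecMul]) hgrd q (qc u)
    (fun p => map_ratCast (starRingEnd ℂ) _) hTu
  have hcast : qc (trl γ⁻¹ u) = trl (cmx γ)⁻¹ (qc u) := by
    have hinv : (cmx γ)⁻¹ = cmx γ⁻¹ := by
      have e1 : cmx γ⁻¹ * cmx γ = 1 := by
        have e2 : cmx (γ⁻¹ * γ) = cmx γ⁻¹ * cmx γ := Matrix.map_mul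
        rw [← e2, Matrix.nonsing_inv_mul _ hγ]
        exact Matrix.map_one _ (map_zero _) (map_one _)
      exact Matrix.inv_eq_left_inv e1
    rw [hinv]
    funext p
    show ((trl γ⁻¹ u p : ℚ) : ℂ) = trl (cmx γ⁻¹) (qc u) p
    unfold trl
    rw [Rat.cast_sum]
    refine Finset.sum_congr rfl fun y _ => ?_
    rw [Rat.cast_mul, Rat.cast_prod]
    rfl
  rw [hcast, hCnj I (cmx γ)⁻¹ Φᵀ (Matrix.isUnit_nonsing_inv_det _ hg) q (qc u), Matrix.nonsing_inv_nonsing_inv _ hg]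
  have h3 : cmx γ * Φᵀ * (cmx γ)⁻¹ = (g⁻¹ * Φ * g)ᵀ := by
    rw [Matrix.transpose_mul, Matrix.transpose_mul, hgdef, Matrix.transpose_nonsing_inv, Matrix.transpose_transpose,
      Matrix.mul_assoc]
  rw [h3, hreal]
  funext p
  show ∑ y : Fin q → I, (∏ l, (cmx γ)⁻¹ (p l) (y l)) * (0 : (Fin q → I) → ℂ) y = 0
  simp

end mv

end Q207.GH
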