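import Pool.Agent.Q207.GH.Sp0
import Pool.Agent.Q207.GH.Stab
import Pool.Agent.Q195.HT.Mix
import Pool.Agent.Q149.HT.Fgen
import Pool.Agent.Q162.HT.StA

/-!
# Project GH: generators in the symplectic case
-/

set_option autoImplicit false

open Matrix Finset

namespace Q207.GH

open Q207.DB (BD Okf Dl)
open Q207.HG (cmx hB Grd lkL)
open Q207.HT (lieA lieA_apply qc InvL GenL mix)

variable {k : ℕ} {n : Fin k → ℕ} {w : ℕ}

/-- the product of the symplectic Lie algebras -/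
def Hs (B : ∀ i, Matrix (Fin (n i)) (Fin (n i)) ℂ) : Set (Matrix (Σ i, Fin (n i)) (Σ i, Fin (n i)) ℂ) :=
  BD {X | ∀ i, X i ∈ hB (B i)}

/-- the first fundamental theorem -/
theorem sy_gen {B : ∀ i, Matrix (Fin (n i)) (Fin (n i)) ℂ} (hB1 : ∀ i, (B i)ᵀ = -B i) (hB2 : ∀ i, IsUnit (B i).det)
    (hn : ∀ i, 0 < n i) : GenL (Hs B) fun s => s = 2 := by
  have hu : ∀ i, IsUnit (B i) := fun i => (Matrix.isUnit_iff_isUnit_det _).2 (hB2 i)
  have h1 := Pool.Agent.Q195.HT.stB (Q162.HT.stA Q149.HT.fft Pool.Agent.Q195.HT.trbd) (Fin k) n B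
    (fun i _ => ⟨hu i, Or.inl (hB1 i)⟩) hn (Fin k) n (fun i => i) (fun _ => false)
    (fun j => (1 : Matrix (Fin (n j)) (Fin (n j)) ℂ)) (fun j => (1 : Matrix (Fin (n j)) (Fin (n j)) ℂ))
    (fun _ => Matrix.one_mul 1) (fun _ => Matrix.one_mul 1)
  have h2 : BD (Q207.HT.WL B (fun i => i) (fun _ => false) (fun j => (1 : Matrix (Fin (n j)) (Fin (n j)) ℂ))
      fun j => (1 : Matrix (Fin (n j)) (Fin (n j)) ℂ)) = Hs B := by
    unfold Hs
    congr 1
    ext X
    constructor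
    · rintro ⟨Y, hY, hXY⟩ i
      have h3 := hXY i
      simp only [lkL, Bool.false_eq_true, if_false, Matrix.one_mul, Matrix.mul_one] at h3
      rw [h3]
      exact hY i
    · intro hX
      refine ⟨X, hX, fun i => ?_⟩
      simp only [lkL, Bool.false_eq_true, if_false, Matrix.one_mul, Matrix.mul_one]
  rw [h2] at h1
  refine h1.mono fun s hs => ?_
  rcases hs with h3 | ⟨i, h3, -⟩
  · exact h3
  · exact absurd ⟨hu i, hB1 i⟩ h3

lemma lieA_two {K : Type} [Fintype K] (X : Matrix K K ℂ) (U : Matrix K K ℂ) (p : Fin 2 → K) :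
    lieA X (fun p : Fin 2 → K => U (p 0) (p 1)) p = (X * U + U * Xᵀ) (p 0) (p 1) := by
  rw [lieA_apply, Fin.sum_univ_two, Matrix.add_apply, Matrix.mul_apply, Matrix.mul_apply]
  congr 1
  refine sum_congr rfl fun y _ => ?_
  rw [Function.update_self, Function.update_of_ne (by decide), Matrix.transpose_apply, mul_comm]

/-- one block -/
def pcl {R : Type} [Zero R] (M : ∀ i, Matrix (Fin (n i)) (Fin (n i)) R) (i : Fin k) :
    Matrix (Σ i, Fin (n i)) (Σ i, Fin (n i)) R := blockDiagonal' fun j => if j = i then M j else 0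

lemma pcl_apply {R : Type} [Zero R] (M : ∀ i, Matrix (Fin (n i)) (Fin (n i)) R) (i : Fin k) (x y : Σ i, Fin (n i)) :
    pcl M i x y = if x.1 = i then blockDiagonal' M x y else 0 := by
  obtain ⟨j, a⟩ := x
  obtain ⟨j', b⟩ := y
  unfold pcl
  by_cases h : j = j'
  · subst h
    rw [blockDiagonal'_apply_eq, blockDiagonal'_apply_eq]
    by_cases h2 : j = i
    · simp [h2]
    · simp [h2]
  · rw [blockDiagonal'_apply_ne _ _ _ h, blockDiagonal'_apply_ne _ _ _ h, ite_self]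

lemma single_tv {B : ∀ i, Matrix (Fin (n i)) (Fin (n i)) ℂ} (i : Fin k) (z : Fin (n i) → ℂ) :
    blockDiagonal' (Pi.single i (tvC (B i) z) : ∀ j, Matrix (Fin (n j)) (Fin (n j)) ℂ) =
      vecMulVec (fun x : Σ i, Fin (n i) => (Pi.single i z : ∀ j, Fin (n j) → ℂ) x.1 x.2)
        (fun x : Σ i, Fin (n i) => (Pi.single i z : ∀ j, Fin (n j) → ℂ) x.1 x.2) * blockDiagonal' B := by
  have h1 : vecMulVec (fun x : Σ i, Fin (n i) => (Pi.single i z : ∀ j, Fin (n j) → ℂ) x.1 x.2)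
      (fun x : Σ i, Fin (n i) => (Pi.single i z : ∀ j, Fin (n j) → ℂ) x.1 x.2) =
      blockDiagonal' (Pi.single i (vecMulVec z z) : ∀ j, Matrix (Fin (n j)) (Fin (n j)) ℂ) := by
    ext ⟨j, a⟩ ⟨j', b⟩
    rw [vecMulVec_apply]
    by_cases h : j = j'
    · subst h
      rw [blockDiagonal'_apply_eq]
      by_cases h2 : j = i
      · subst h2
        simp only [Pi.single_eq_same, vecMulVec_apply]
      · simp only [Pi.single_eq_of_ne h2, Pi.zero_apply, Matrix.zero_apply, mul_zero]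
    · rw [blockDiagonal'_apply_ne _ _ _ h]
      by_cases h2 : j = i
      · have h3 : j' ≠ i := fun h4 => h (h2.trans h4.symm)
        simp only [Pi.single_eq_of_ne h3, Pi.zero_apply, mul_zero]
      · simp only [Pi.single_eq_of_ne h2, Pi.zero_apply, zero_mul]
  rw [h1, ← blockDiagonal'_mul]
  refine congrArg blockDiagonal' (funext fun j => ?_)
  by_cases h2 : j = i
  · subst h2
    rw [Pi.single_eq_same, Pi.single_eq_same, tvC_eq]
  · rw [Pi.single_eq_of_ne h2, Pi.single_eq_of_ne h2, Matrix.zero_mul]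

lemma tvC_mem {m : ℕ} {B : Matrix (Fin m) (Fin m) ℂ} (hB1 : Bᵀ = -B) (z : Fin m → ℂ) : tvC B z ∈ hB B := by
  have hz : z ⬝ᵥ (z ᵥ* B) = 0 := by
    have h1 : z ⬝ᵥ (z ᵥ* B) = -(z ⬝ᵥ (z ᵥ* B)) := by
      conv_lhs => rw [dotProduct_comm, ← Matrix.dotProduct_mulVec, ← Matrix.vecMul_transpose, hB1, Matrix.vecMul_neg,
        dotProduct_neg]
    exact self_eq_neg.1 h1
  refine ⟨?_, ?_⟩
  · unfold tvC
    rw [Matrix.trace_vecMulVec]
    exact hz
  · rw [tvC_eq, Matrix.transpose_mul, Matrix.transpose_vecMulVec, hB1]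
    simp only [Matrix.neg_mul, Matrix.mul_assoc, neg_add_cancel]

/-- the invariants of degree two -/
theorem inv2 {B : ∀ i, Matrix (Fin (n i)) (Fin (n i)) ℂ} (hB1 : ∀ i, (B i)ᵀ = -B i) (hB2 : ∀ i, IsUnit (B i).det)
    {v : (Fin 2 → Σ i, Fin (n i)) → ℂ} (hv : InvL (Hs B) v) :
    ∃ c : Fin k → ℂ, v = ∑ i, c i • fun p : Fin 2 → Σ i, Fin (n i) => pcl (fun i => (B i)⁻¹) i (p 0) (p 1) := by
  classical
  set M : Matrix (Σ i, Fin (n i)) (Σ i, Fin (n i)) ℂ := Matrix.of fun a b => v ![a, b] with hM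
  have hvM : v = fun p => M (p 0) (p 1) := by
    funext p
    show v p = v ![p 0, p 1]
    congr 1
    funext i
    fin_cases i <;> rfl
  set Bh := blockDiagonal' B with hBh
  have hBhT : Bhᵀ = -Bh := by
    rw [hBh, blockDiagonal'_transpose, ← blockDiagonal'_neg]
    exact congrArg blockDiagonal' (funext hB1)
  set D := M * Bh with hD
  have key : ∀ (i : Fin k) (z : Fin (n i) → ℂ) (c d : Σ i, Fin (n i)),
      (Pi.single i z : ∀ j, Fin (n j) → ℂ) c.1 c.2 *
        ((fun x : Σ i, Fin (n i) => (Pi.single i z : ∀ j, Fin (n j) → ℂ) x.1 x.2) ᵥ* (Bh * M)) d =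
      (D *ᵥ fun x : Σ i, Fin (n i) => (Pi.single i z : ∀ j, Fin (n j) → ℂ) x.1 x.2) c *
        (Pi.single i z : ∀ j, Fin (n j) → ℂ) d.1 d.2 := by
    intro i z c d
    set zh := fun x : Σ i, Fin (n i) => (Pi.single i z : ∀ j, Fin (n j) → ℂ) x.1 x.2 with hz
    have h1 : blockDiagonal' (Pi.single i (tvC (B i) z) : ∀ j, Matrix (Fin (n j)) (Fin (n j)) ℂ) ∈ Hs B := by
      refine ⟨_, fun j => ?_, rfl⟩
      by_cases h2 : j = i
      · subst h2
        rw [Pi.single_eq_same]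
        exact tvC_mem (hB1 _) z
      · rw [Pi.single_eq_of_ne h2]
        exact Submodule.zero_mem _
    have h2 := congrFun (hv _ h1) ![c, d]
    rw [hvM, lieA_two, single_tv, ← hBh, Matrix.transpose_mul, Matrix.transpose_vecMulVec, hBhT] at h2
    have h3 : vecMulVec zh zh * Bh * M + M * (-Bh * vecMulVec zh zh) = vecMulVec zh (zh ᵥ* (Bh * M)) - vecMulVec (D *ᵥ zh) zh := by
      rw [Matrix.mul_assoc, Matrix.vecMulVec_mul, Matrix.neg_mul, Matrix.mul_neg, ← Matrix.mul_assoc, Matrix.mul_vecMulVec,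
        sub_eq_add_neg]
    rw [h3, Matrix.sub_apply, vecMulVec_apply, vecMulVec_apply] at h2
    exact sub_eq_zero.1 h2
  have hsg : ∀ (i : Fin k) (a : Fin (n i)), (fun x : Σ i, Fin (n i) => (Pi.single i (Pi.single a 1) : ∀ j, Fin (n j) → ℂ) x.1 x.2) =
      Pi.single ⟨i, a⟩ 1 := by
    intro i a
    funext ⟨j, b⟩
    by_cases h : j = i
    · subst h
      by_cases h2 : b = a
      · subst h2
        simp
      · have h3 : (⟨j, b⟩ : Σ i, Fin (n i)) ≠ ⟨j, a⟩ := by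
          intro h4
          exact h2 (eq_of_heq (Sigma.mk.inj_iff.1 h4).2)
        simp [h2, h3]
    · have h3 : (⟨j, b⟩ : Σ i, Fin (n i)) ≠ ⟨i, a⟩ := by
        intro h4
        exact h (Sigma.mk.inj_iff.1 h4).1
      rw [Pi.single_eq_of_ne h3]
      simp [h]
  have hoff : ∀ c x : Σ i, Fin (n i), c ≠ x → D c x = 0 := by
    rintro c ⟨i, a⟩ hc
    have h1 := key i (Pi.single a 1) c ⟨i, a⟩
    have h2 := congrFun (hsg i a) c
    have h3 := congrFun (hsg i a) ⟨i, a⟩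
    simp only at h2 h3
    rw [h2, h3, hsg, Pi.single_eq_of_ne hc, zero_mul, Pi.single_eq_same, mul_one, Matrix.mulVec_single_one] at h1
    exact h1.symm
  have hdiag : ∀ (i : Fin k) (a b : Fin (n i)), D ⟨i, a⟩ ⟨i, a⟩ = D ⟨i, b⟩ ⟨i, b⟩ := by
    intro i a b
    by_cases hab : a = b
    · rw [hab]
    have hne : (⟨i, a⟩ : Σ i, Fin (n i)) ≠ ⟨i, b⟩ := fun h4 => hab (eq_of_heq (Sigma.mk.inj_iff.1 h4).2)
    have hz : (fun x : Σ i, Fin (n i) => (Pi.single i (Pi.single a 1 + Pi.single b 1) : ∀ j, Fin (n j) → ℂ) x.1 x.2) =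
        Pi.single ⟨i, a⟩ 1 + Pi.single ⟨i, b⟩ 1 := by
      rw [← hsg, ← hsg, Pi.single_add]
      rfl
    have h1 := key i (Pi.single a 1 + Pi.single b 1) ⟨i, a⟩ ⟨i, b⟩
    have h2 := key i (Pi.single a 1 + Pi.single b 1) ⟨i, b⟩ ⟨i, b⟩
    have h3 := congrFun hz ⟨i, a⟩
    have h4 := congrFun hz ⟨i, b⟩
    simp only at h3 h4
    rw [h3, h4, hz] at h1
    rw [h4, hz] at h2
    simp only [Pi.add_apply, Pi.single_eq_same, Pi.single_eq_of_ne hne, Pi.single_eq_of_ne hne.symm, add_zero, zero_add, one_mul,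
      mul_one, Matrix.mulVec_add, Matrix.mulVec_single_one, Matrix.col_apply] at h1 h2
    rw [hoff _ _ hne, add_zero] at h1
    rw [hoff _ _ hne.symm, zero_add] at h2
    exact h1.symm.trans h2
  set c : Fin k → ℂ := fun i => if h : 0 < n i then D ⟨i, ⟨0, h⟩⟩ ⟨i, ⟨0, h⟩⟩ else 0 with hc
  have hDc : D = Matrix.diagonal fun x : Σ i, Fin (n i) => c x.1 := by
    ext x y
    by_cases hxy : x = y
    · subst hxy
      obtain ⟨i, a⟩ := x
      have hpos : 0 < n i := a.pos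
      rw [Matrix.diagonal_apply_eq, hc]
      simp only [dif_pos hpos]
      exact hdiag i a _
    · rw [Matrix.diagonal_apply_ne _ hxy]
      exact hoff x y hxy
  refine ⟨c, ?_⟩
  have hinv : Bh * blockDiagonal' (fun i => (B i)⁻¹) = 1 := by
    rw [hBh, ← blockDiagonal'_mul]
    refine Eq.trans (congrArg blockDiagonal' (funext fun i => ?_)) blockDiagonal'_one
    exact Matrix.mul_nonsing_inv _ (hB2 i)
  have hMD : M = Matrix.diagonal (fun x : Σ i, Fin (n i) => c x.1) * blockDiagonal' (fun i => (B i)⁻¹) := by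
    rw [← hDc, hD, Matrix.mul_assoc, hinv, Matrix.mul_one]
  rw [hvM]
  funext p
  rw [Finset.sum_apply, hMD, Matrix.diagonal_mul]
  simp only [Pi.smul_apply, smul_eq_mul, pcl_apply, mul_ite, mul_zero]
  rw [sum_ite_eq, if_pos (mem_univ _)]

end Q207.GH
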