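import Pool.Agent.Q207.GH.Sp1

/-!
# Project GH: generators in the symplectic case, continued
-/

set_option autoImplicit false

open Matrix Finset

namespace Q207.GH

open Q207.DB (BD Okf Dl)
open Q207.HG (cmx hB Grd lkL)
open Q207.HT (lieA lieA_apply lieA_add lieA_smul lieA_zero qc InvL GenL mix)

variable {k : ℕ} {n : Fin k → ℕ} {w : ℕ}

section dgb

/-- the diagonal blocks -/
def dgb (M : Matrix (Σ i, Fin (n i)) (Σ i, Fin (n i)) ℂ) : Matrix (Σ i, Fin (n i)) (Σ i, Fin (n i)) ℂ :=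
  Matrix.of fun x y => if x.1 = y.1 then M x y else 0

lemma dgb_apply (M : Matrix (Σ i, Fin (n i)) (Σ i, Fin (n i)) ℂ) (x y : Σ i, Fin (n i)) :
    dgb M x y = if x.1 = y.1 then M x y else 0 := rfl

lemma dgb_mul (M : Matrix (Σ i, Fin (n i)) (Σ i, Fin (n i)) ℂ) {S : Matrix (Σ i, Fin (n i)) (Σ i, Fin (n i)) ℂ}
    (hS : ∀ x y, x.1 ≠ y.1 → S x y = 0) : dgb M * S = dgb (M * S) := by
  ext x y
  rw [dgb_apply, Matrix.mul_apply, Matrix.mul_apply]
  by_cases h : x.1 = y.1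
  · rw [if_pos h]
    refine sum_congr rfl fun z _ => ?_
    rw [dgb_apply]
    by_cases h2 : z.1 = y.1
    · rw [if_pos (h.trans h2.symm)]
    · rw [hS z y h2, mul_zero, mul_zero]
  · rw [if_neg h]
    refine sum_eq_zero fun z _ => ?_
    rw [dgb_apply]
    by_cases h2 : z.1 = y.1
    · rw [if_neg fun h3 => h (h3.trans h2), zero_mul]
    · rw [hS z y h2, mul_zero]

lemma dgb_T (M : Matrix (Σ i, Fin (n i)) (Σ i, Fin (n i)) ℂ) : (dgb M)ᵀ = dgb Mᵀ := by
  ext x y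
  rw [Matrix.transpose_apply, dgb_apply, dgb_apply, Matrix.transpose_apply]
  by_cases h : x.1 = y.1
  · rw [if_pos h, if_pos h.symm]
  · rw [if_neg h, if_neg fun h2 => h h2.symm]

lemma mul_dgb (M : Matrix (Σ i, Fin (n i)) (Σ i, Fin (n i)) ℂ) {S : Matrix (Σ i, Fin (n i)) (Σ i, Fin (n i)) ℂ}
    (hS : ∀ x y, x.1 ≠ y.1 → S x y = 0) : S * dgb M = dgb (S * M) := by
  have h1 := dgb_mul Mᵀ (S := Sᵀ) fun x y h => hS y x fun h2 => h h2.symm
  have h2 := congrArg Matrix.transpose h1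
  rw [Matrix.transpose_mul, Matrix.transpose_transpose, dgb_T, dgb_T, Matrix.transpose_transpose, Matrix.transpose_mul,
    Matrix.transpose_transpose, Matrix.transpose_transpose] at h2
  exact h2

lemma dgb_one : dgb (1 : Matrix (Σ i, Fin (n i)) (Σ i, Fin (n i)) ℂ) = 1 := by
  ext x y
  rw [dgb_apply]
  by_cases h : x = y
  · rw [if_pos (by rw [h])]
  · rw [Matrix.one_apply_ne h, ite_self]

lemma inv_block {S : Matrix (Σ i, Fin (n i)) (Σ i, Fin (n i)) ℂ} (hS : ∀ x y, x.1 ≠ y.1 → S x y = 0) (hu : IsUnit S.det)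
    (x y : Σ i, Fin (n i)) (h : x.1 ≠ y.1) : S⁻¹ x y = 0 := by
  have h1 : S * dgb S⁻¹ = 1 := by rw [mul_dgb _ hS, Matrix.mul_nonsing_inv _ hu, dgb_one]
  rw [Matrix.inv_eq_right_inv h1, dgb_apply, if_neg h]

end dgb

/-- the form is invariant under the Hodge operator -/
lemma form_oper {I : Type} [Fintype I] [DecidableEq I] {H : ℤ → Submodule ℂ (I → ℂ)} (hH : DirectSum.IsInternal H)
    (hHc : ∀ p, ∀ v ∈ H p, (fun a => (starRingEnd ℂ) (v a)) ∈ H (-p)) {Φ S : Matrix I I ℂ}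
    (hΦ : ∀ p, ∀ v ∈ H p, v ᵥ* Φ = (p : ℂ) • v) (hS : Pol H S) : Φ * S + S * Φᵀ = 0 := by
  have htop := hH.submodule_iSup_eq_top
  have h1 : ∀ p, ∀ v ∈ H p, ∀ q, ∀ w ∈ H q, v ⬝ᵥ ((Φ * S + S * Φᵀ) *ᵥ star w) = 0 := by
    intro p v hv q w hw
    have e1 : v ⬝ᵥ ((Φ * S) *ᵥ star w) = (p : ℂ) * (v ⬝ᵥ (S *ᵥ star w)) := by
      rw [← Matrix.mulVec_mulVec, Matrix.dotProduct_mulVec, hΦ p v hv, smul_dotProduct, smul_eq_mul]
    have e2 : star w ᵥ* Φ = ((-q : ℤ) : ℂ) • star w := hΦ (-q) (star w) (hHc q w hw)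
    have e3 : v ⬝ᵥ ((S * Φᵀ) *ᵥ star w) = -(q : ℂ) * (v ⬝ᵥ (S *ᵥ star w)) := by
      rw [← Matrix.mulVec_mulVec, Matrix.mulVec_transpose, e2, Matrix.mulVec_smul, dotProduct_smul, smul_eq_mul]
      push_cast
      rfl
    rw [Matrix.add_mulVec, dotProduct_add, e1, e3]
    by_cases hpq : p = q
    · rw [hpq]
      ring
    · rw [hS.orth p q hpq v hv w hw, mul_zero, mul_zero, add_zero]
  have h2 : ∀ v w : I → ℂ, v ⬝ᵥ ((Φ * S + S * Φᵀ) *ᵥ star w) = 0 := by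
    intro v w
    have hv : v ∈ (⨆ p, H p) := by rw [htop]; exact Submodule.mem_top
    have hw : w ∈ (⨆ p, H p) := by rw [htop]; exact Submodule.mem_top
    induction hv using Submodule.iSup_induction' with
    | mem p v hv =>
      induction hw using Submodule.iSup_induction' with
      | mem q w hw => exact h1 p v hv q w hw
      | zero => rw [star_zero, Matrix.mulVec_zero, dotProduct_zero]
      | add w w' _ _ h3 h4 => rw [star_add, Matrix.mulVec_add, dotProduct_add, h3, h4, add_zero]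
    | zero => rw [zero_dotProduct]
    | add v v' _ _ h3 h4 => rw [add_dotProduct, h3, h4, add_zero]
  ext a b
  have h3 := h2 (Pi.single a 1) (Pi.single b 1)
  have h4 : star (Pi.single b 1 : I → ℂ) = Pi.single b 1 := by
    funext x
    by_cases hx : x = b
    · subst hx
      simp
    · simp [hx]
  rw [h4, Matrix.mulVec_single_one, single_one_dotProduct] at h3
  exact h3

/-- the classes of the forms are Hodge classes -/
theorem pc_hodge {B : ∀ i, Matrix (Fin (n i)) (Fin (n i)) ℂ} (hB2 : ∀ i, IsUnit (B i).det) {c : Fin k → ℂ} (hc : ∀ i, c i ≠ 0)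
    {H : ℤ → Submodule ℂ ((Σ i, Fin (n i)) → ℂ)} (hH : DirectSum.IsInternal H)
    (hHc : ∀ p, ∀ v ∈ H p, (fun a => (starRingEnd ℂ) (v a)) ∈ H (-p)) {lev : (Σ i, Fin (n i)) → ℤ}
    {Z : Matrix (Σ i, Fin (n i)) (Σ i, Fin (n i)) ℂ} (hZ : IsUnit Z.det) (hZb : ∀ x y, x.1 ≠ y.1 → Z x y = 0)
    (hfil : ∀ p, (⨆ q : {q : ℤ // p ≤ q}, H q) = Submodule.span ℂ {v | ∃ a, p ≤ lev a ∧ v = Z a})
    {Φ : Matrix (Σ i, Fin (n i)) (Σ i, Fin (n i)) ℂ} (hΦ : ∀ p, ∀ v ∈ H p, v ᵥ* Φ = (p : ℂ) • v)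
    (hS : Pol H (blockDiagonal' fun i => c i • B i)) (i : Fin k)
    (hr : ∀ x y, (starRingEnd ℂ) (pcl (fun j => (B j)⁻¹) i x y) = pcl (fun j => (B j)⁻¹) i x y) :
    lieA Φᵀ (fun p : Fin 2 → Σ i, Fin (n i) => pcl (fun j => (B j)⁻¹) i (p 0) (p 1)) = 0 := by
  have hR := form_oper hH hHc hΦ hS
  set S := blockDiagonal' fun i => c i • B i with hSdef
  set S' := blockDiagonal' fun i => (c i)⁻¹ • (B i)⁻¹ with hS'def
  have hSb : ∀ x y : (Σ i, Fin (n i)), x.1 ≠ y.1 → S x y = 0 := by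
    rintro ⟨i, a⟩ ⟨j, b⟩ h
    exact blockDiagonal'_apply_ne _ _ _ h
  have hSS' : S * S' = 1 := by
    rw [hSdef, hS'def, ← blockDiagonal'_mul]
    refine Eq.trans (congrArg blockDiagonal' (funext fun j => ?_)) blockDiagonal'_one
    rw [Matrix.smul_mul, Matrix.mul_smul, Matrix.mul_nonsing_inv _ (hB2 j), smul_smul, mul_inv_cancel₀ (hc j), one_smul]
    rfl
  have hS'S : S' * S = 1 := mul_eq_one_comm.1 hSS'
  set T := dgb Φ with hT
  have h1 : T * S + S * Tᵀ = 0 := by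
    rw [hT, dgb_T, dgb_mul _ hSb, mul_dgb _ hSb]
    have h2 : dgb (Φ * S) + dgb (S * Φᵀ) = dgb (Φ * S + S * Φᵀ) := by
      ext x y
      rw [Matrix.add_apply, dgb_apply, dgb_apply, dgb_apply, Matrix.add_apply]
      by_cases h : x.1 = y.1
      · rw [if_pos h, if_pos h, if_pos h]
      · rw [if_neg h, if_neg h, if_neg h, add_zero]
    rw [h2, hR]
    ext x y
    rw [dgb_apply, Matrix.zero_apply, ite_self]
  have h2 : Tᵀ * S' + S' * T = 0 := by
    have e1 : S' * (T * S + S * Tᵀ) * S' = S' * T + Tᵀ * S' := by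
      rw [Matrix.mul_add, Matrix.add_mul]
      congr 1
      · rw [Matrix.mul_assoc, Matrix.mul_assoc, hSS', Matrix.mul_one]
      · rw [← Matrix.mul_assoc, hS'S, Matrix.one_mul]
    rw [h1, Matrix.mul_zero, Matrix.zero_mul] at e1
    rw [add_comm]
    exact e1.symm
  have hgrd : Grd lev (Z * T * Z⁻¹) := by
    have h3 := Q249.HG.grd _ lev Z Φ H hZ hfil hΦ
    have h4 : Z * T * Z⁻¹ = dgb (Z * Φ * Z⁻¹) := by
      rw [hT, mul_dgb _ hZb, dgb_mul _ (inv_block hZb hZ)]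
    rw [h4]
    intro a b hab
    rw [dgb_apply]
    by_cases h : a.1 = b.1
    · rw [if_pos h]
      exact h3 a b hab
    · rw [if_neg h, if_neg fun h5 => h (by rw [h5])]
  refine Pool.Agent.Q195.HT.real _ lev Z T Φ H hZ hH hHc hfil hΦ hgrd 2 _ (fun p => hr _ _) ?_
  funext p
  rw [lieA_two, Matrix.transpose_transpose]
  set E : Matrix (Σ i, Fin (n i)) (Σ i, Fin (n i)) ℂ := Matrix.diagonal fun x => if x.1 = i then c i else 0 with hE
  have hU : pcl (fun j => (B j)⁻¹) i = E * S' := by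
    ext ⟨j, a⟩ ⟨j', b⟩
    rw [pcl_apply, hE, Matrix.diagonal_mul, hS'def]
    by_cases h : j = i
    · subst h
      simp only [if_true]
      by_cases h2 : j = j'
      · subst h2
        rw [blockDiagonal'_apply_eq, blockDiagonal'_apply_eq, Matrix.smul_apply, smul_eq_mul, ← mul_assoc, mul_inv_cancel₀ (hc j),
          one_mul]
      · rw [blockDiagonal'_apply_ne _ _ _ h2, blockDiagonal'_apply_ne _ _ _ h2, mul_zero]
    · simp only [if_neg h, zero_mul]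
  have hTE : Tᵀ * E = E * Tᵀ := by
    ext x y
    rw [hE, Matrix.mul_diagonal, Matrix.diagonal_mul, hT, dgb_T, dgb_apply]
    by_cases h : x.1 = y.1
    · rw [if_pos h, h, mul_comm]
    · rw [if_neg h, zero_mul, mul_zero]
  have h3 : Tᵀ * pcl (fun j => (B j)⁻¹) i + pcl (fun j => (B j)⁻¹) i * T = 0 := by
    rw [hU, ← Matrix.mul_assoc, hTE, Matrix.mul_assoc, Matrix.mul_assoc, ← Matrix.mul_add, h2, Matrix.mul_zero]
  rw [h3]
  rfl

end Q207.GH
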