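import Pool.Agent.Q207.HT.Stm

/-!
# Project GH: Hodge classes on almost all fibres of arbitrary families; statements of the lemmas
-/

set_option autoImplicit false

open Matrix Finset

namespace Q207.GH

open Q207.HT (lieA)
open Q207.HG (Grd)

/-- the action of a matrix on tensors -/
noncomputable def trl {R I κ : Type} [CommRing R] [Fintype I] [Fintype κ] [DecidableEq κ] (g : Matrix I I R) (u : (κ → I) → R) :
    (κ → I) → R := fun p => ∑ y : κ → I, (∏ l, g (p l) (y l)) * u y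

/-- a sesquilinear form polarises the decomposition -/
structure Pol {I : Type} [Fintype I] (H : ℤ → Submodule ℂ (I → ℂ)) (S : Matrix I I ℂ) : Prop where
  orth : ∀ p q, p ≠ q → ∀ v ∈ H p, ∀ w ∈ H q, v ⬝ᵥ (S *ᵥ star w) = 0
  pos : ∀ p, ∀ v ∈ H p, v ≠ 0 → ∃ x : ℝ, 0 < x ∧ Complex.I ^ p * (v ⬝ᵥ (S *ᵥ star v)) = x

/-- GH1: the orbit of a Hodge class is finite if it consists of Hodge classes -/
def S_Orb : Prop := ∀ (I : Type) [Fintype I] [DecidableEq I] (H : ℤ → Submodule ℂ (I → ℂ)) (S Φ : Matrix I I ℂ),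
  DirectSum.IsInternal H → (∀ p, ∀ v ∈ H p, v ᵥ* Φ = (p : ℂ) • v) → Pol H S →
  ∀ (q : ℕ) (u : (Fin q → I) → ℚ) (Γ : Set (Matrix I I ℤ)),
  (∀ γ ∈ Γ, (γ.map (Int.cast : ℤ → ℂ))ᵀ * S * γ.map (Int.cast : ℤ → ℂ) = S) →
  (∀ γ ∈ Γ, lieA Φᵀ (fun p => ((trl (γ.map (Int.cast : ℤ → ℚ)) u p : ℚ) : ℂ)) = 0) →
  {x | ∃ γ ∈ Γ, x = trl (γ.map (Int.cast : ℤ → ℚ)) u}.Finite

/-- GH2: every decomposition is polarised by some form -/
def S_Form : Prop := ∀ (I : Type) [Fintype I] [DecidableEq I] (H : ℤ → Submodule ℂ (I → ℂ)),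
  DirectSum.IsInternal H → ∃ S : Matrix I I ℂ, Pol H S

/-- GH3: transport of the derivation action -/
def S_Cnj : Prop := ∀ (I : Type) [Fintype I] [DecidableEq I] (g Φ : Matrix I I ℂ), IsUnit g.det →
  ∀ (q : ℕ) (u : (Fin q → I) → ℂ), lieA Φ (trl g u) = trl g (lieA (g⁻¹ * Φ * g) u)

/-- the vectors of the linear system -/
def vec {I : Type} [DecidableEq I] (lev : I → ℤ) (M : Matrix I I ℂ) (x : {x : I × I // lev x.2 ≤ lev x.1}) : ℂ := M x.1.1 x.1.2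

/-- the diagonal matrix of the levels -/
def La {I : Type} [DecidableEq I] (lev : I → ℤ) : Matrix I I ℂ := Matrix.diagonal fun a => ((lev a : ℤ) : ℂ)

/-- the minors agree: every minor which is zero at `Z` is zero at `Z'` -/
def Le {I : Type} [Fintype I] [DecidableEq I] (lev : I → ℤ) (Z Z' : Matrix I I ℂ) : Prop :=
  ∀ (s : ℕ) (X : Fin s → Matrix I I ℚ), s ≤ Fintype.card I ^ 2 →
    (∀ p, Q207.HG.Dt (fun u => vec lev (Z * (X u).map (algebraMap ℚ ℂ) * Z⁻¹)) p = 0 →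
      Q207.HG.Dt (fun u => vec lev (Z' * (X u).map (algebraMap ℚ ℂ) * Z'⁻¹)) p = 0) ∧
    ∀ p, Q207.HG.Dt (Fin.snoc (fun u => vec lev (Z * (X u).map (algebraMap ℚ ℂ) * Z⁻¹)) (vec lev (La lev)) :
        Fin (s + 1) → _ → ℂ) p = 0 →
      Q207.HG.Dt (Fin.snoc (fun u => vec lev (Z' * (X u).map (algebraMap ℚ ℂ) * Z'⁻¹)) (vec lev (La lev)) :
        Fin (s + 1) → _ → ℂ) p = 0

/-- GH4: transfer of the solvability of the linear system -/
def S_Solv : Prop := ∀ (I : Type) [Fintype I] [DecidableEq I] (lev : I → ℤ) (Z Z' : Matrix I I ℂ), IsUnit Z.det → IsUnit Z'.det →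
  Le lev Z Z' → Le lev Z' Z → ∀ 𝔪 : Submodule ℚ (Matrix I I ℚ),
  (∃ T ∈ Submodule.span ℂ ((fun X : Matrix I I ℚ => X.map (algebraMap ℚ ℂ)) '' (𝔪 : Set (Matrix I I ℚ))), Grd lev (Z * T * Z⁻¹)) →
  ∃ T ∈ Submodule.span ℂ ((fun X : Matrix I I ℚ => X.map (algebraMap ℚ ℂ)) '' (𝔪 : Set (Matrix I I ℚ))), Grd lev (Z' * T * Z'⁻¹)

end Q207.GH
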