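import Pool.Agent.Q207.GH.Stm
import Pool.Agent.Q207.HG.RTra
import Pool.Agent.Y120.R.Gx

/-!
# Project GH: the minors at all points with the same functional relations
-/

set_option autoImplicit false

open Matrix Finset

namespace Q207.GH

open Q207.HG (PQ W1 W1_one W1_pow_mono W1_pow_fin conj_mem adj_eqI ex ex_det Dt)

variable {k : ℕ} {n : Fin k → ℕ} {J : Type} [Fintype J] [DecidableEq J]

/-- the index set of the sum of the families -/
abbrev Ig (n : Fin k → ℕ) : Type := Σ i : Fin k, Fin (n i)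

/-- the variables -/
abbrev Vg (n : Fin k → ℕ) : Type := Σ i : Fin k, Fin (n i) × Fin (n i)

/-- the block matrix with the rows in the de Rham basis -/
noncomputable def Gv (v : Vg n → ℂ) : Matrix (Ig n) (Ig n) ℂ := blockDiagonal' fun i => Matrix.of fun a b => v ⟨i, (b, a)⟩

/-- the generic block matrix -/
noncomputable def Gg (n : Fin k → ℕ) (J : Type) [Fintype J] [DecidableEq J] :
    Matrix (Ig n ⊕ J) (Ig n ⊕ J) (MvPolynomial (Vg n) ℂ) :=
  fromBlocks (blockDiagonal' fun i => Matrix.of fun a b => MvPolynomial.X ⟨i, (b, a)⟩) 0 0 1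

lemma Gg_eval (v : Vg n → ℂ) : (Gg n J).map (MvPolynomial.eval v) = ex J (Gv v) := by
  unfold Gg
  rw [fromBlocks_map]
  have h1 : (blockDiagonal' fun i : Fin k => (Matrix.of fun a b => MvPolynomial.X (⟨i, (b, a)⟩ : Vg n) :
      Matrix (Fin (n i)) (Fin (n i)) (MvPolynomial (Vg n) ℂ))).map (MvPolynomial.eval v) = Gv v := by
    unfold Gv
    rw [blockDiagonal'_map _ _ (map_zero _)]
    refine congrArg blockDiagonal' (funext fun i => ?_)
    ext a b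
    show MvPolynomial.eval v (MvPolynomial.X (⟨i, (b, a)⟩ : Vg n)) = _
    rw [MvPolynomial.eval_X]
    rfl
  rw [h1, Matrix.map_zero _ (map_zero _), Matrix.map_zero _ (map_zero _), Matrix.map_one _ (map_zero _) (map_one _)]

lemma Gg_PQ (a b : Ig n ⊕ J) : PQ 1 1 (Gg n J a b) := by
  unfold Gg
  rcases a with a | a <;> rcases b with b | b
  · rw [fromBlocks_apply₁₁, blockDiagonal'_apply]
    split_ifs with h
    · exact PQ.X _
    · exact PQ.zero
  · exact PQ.zero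
  · exact PQ.zero
  · rw [fromBlocks_apply₂₂, Matrix.one_apply]
    split_ifs
    · rw [← MvPolynomial.C_1]
      exact (PQ.C Q207.HG.one_mem1).mono le_rfl (Nat.zero_le _)
    · exact PQ.zero

/-- the generic conjugate -/
noncomputable def Mg (C : Matrix (Ig n ⊕ J) (Ig n ⊕ J) ℂ) (X : Matrix (Ig n ⊕ J) (Ig n ⊕ J) ℚ) :
    Matrix (Ig n ⊕ J) (Ig n ⊕ J) (MvPolynomial (Vg n) ℂ) :=
  Gg n J * (C * X.map (algebraMap ℚ ℂ) * C⁻¹).map (MvPolynomial.C : ℂ →+* MvPolynomial (Vg n) ℂ) * (Gg n J).adjugate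

lemma Mg_PQ (C : Matrix (Ig n ⊕ J) (Ig n ⊕ J) ℂ) (X : Matrix (Ig n ⊕ J) (Ig n ⊕ J) ℚ) (a b : Ig n ⊕ J) :
    PQ (W1 C ^ 2) (1 + Fintype.card (Ig n ⊕ J)) (Mg C X a b) := by
  have h2 := PQ.mulM (W := 1 * W1 C ^ 2) (W' := 1) (d := 1 + 0) (d' := Fintype.card (Ig n ⊕ J))
    (PQ.mulM (fun a b => Gg_PQ (n := n) (J := J) a b) (M' := (C * X.map (algebraMap ℚ ℂ) * C⁻¹).map (MvPolynomial.C : ℂ →+* MvPolynomial (Vg n) ℂ)) (W' := W1 C ^ 2) (d' := 0)
      fun a b => PQ.C (conj_mem C X a b)) (fun a b => PQ.adj (fun a b => Gg_PQ (n := n) (J := J) a b) a b) a b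
  rw [one_mul, mul_one, Nat.add_zero] at h2
  exact h2

lemma Mg_eval (C : Matrix (Ig n ⊕ J) (Ig n ⊕ J) ℂ) (X : Matrix (Ig n ⊕ J) (Ig n ⊕ J) ℚ) {v : Vg n → ℂ}
    (hv : IsUnit (ex J (Gv v)).det) (a b : Ig n ⊕ J) :
    MvPolynomial.eval v (Mg C X a b) =
      (ex J (Gv v)).det * (ex J (Gv v) * (C * X.map (algebraMap ℚ ℂ) * C⁻¹) * (ex J (Gv v))⁻¹) a b := by
  set φ : MvPolynomial (Vg n) ℂ →+* ℂ := MvPolynomial.eval v with hφ
  have hmap : ∀ {a : Type} [Fintype a] [DecidableEq a] (M M' : Matrix a a (MvPolynomial (Vg n) ℂ)),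
      (M * M').map φ = M.map φ * M'.map φ := fun M M' => Matrix.map_mul
  have hC : ∀ M : Matrix (Ig n ⊕ J) (Ig n ⊕ J) ℂ, (M.map (MvPolynomial.C : ℂ →+* MvPolynomial (Vg n) ℂ)).map φ = M := by
    intro M
    ext a b
    rw [Matrix.map_apply, Matrix.map_apply, hφ, MvPolynomial.eval_C]
  have hG : (Gg n J).map φ = ex J (Gv v) := Gg_eval v
  have hA : ((Gg n J).adjugate).map φ = (ex J (Gv v)).det • (ex J (Gv v))⁻¹ := by
    have h1 := RingHom.map_adjugate φ (Gg n J)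
    rw [RingHom.mapMatrix_apply, RingHom.mapMatrix_apply, hG, adj_eqI hv] at h1
    exact h1
  have h2 : φ (Mg C X a b) = ((Mg C X).map φ) a b := rfl
  rw [h2]
  unfold Mg
  rw [hmap, hmap, hC, hG, hA, Matrix.mul_smul, Matrix.smul_apply, smul_eq_mul]

lemma Gg_det (v : Vg n → ℂ) : MvPolynomial.eval v (Gg n J).det = (ex J (Gv v)).det := by
  rw [RingHom.map_det, RingHom.mapMatrix_apply, Gg_eval]

/-- the polynomial of a minor -/
noncomputable def PA (C : Matrix (Ig n ⊕ J) (Ig n ⊕ J) ℂ) {s : ℕ} (X : Fin s → Matrix (Ig n ⊕ J) (Ig n ⊕ J) ℚ)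
    (p : Fin s → (Ig n ⊕ J) × (Ig n ⊕ J)) : MvPolynomial (Vg n) ℂ := (Matrix.of fun u l => Mg C (X u) (p l).1 (p l).2).det

/-- the polynomial of a minor with the levels -/
noncomputable def PB (lev : Ig n ⊕ J → ℤ) (C : Matrix (Ig n ⊕ J) (Ig n ⊕ J) ℂ) {s : ℕ} (X : Fin s → Matrix (Ig n ⊕ J) (Ig n ⊕ J) ℚ)
    (p : Fin (s + 1) → (Ig n ⊕ J) × (Ig n ⊕ J)) : MvPolynomial (Vg n) ℂ :=
  (Matrix.of fun u l => (Fin.snoc (fun u x => Mg C (X u) x.1 x.2) (fun x => (Gg n J).det * MvPolynomial.C (La lev x.1 x.2)) :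
    Fin (s + 1) → (Ig n ⊕ J) × (Ig n ⊕ J) → MvPolynomial (Vg n) ℂ) u (p l)).det

lemma PA_PQ (C : Matrix (Ig n ⊕ J) (Ig n ⊕ J) ℂ) {s : ℕ} (X : Fin s → Matrix (Ig n ⊕ J) (Ig n ⊕ J) ℚ)
    (p : Fin s → (Ig n ⊕ J) × (Ig n ⊕ J)) :
    PQ (W1 C ^ (2 * s)) (s * (1 + Fintype.card (Ig n ⊕ J))) (PA C X p) := by
  unfold PA
  have h2 := PQ.det (M := (Matrix.of fun u l => Mg C (X u) (p l).1 (p l).2 : Matrix (Fin s) (Fin s) (MvPolynomial (Vg n) ℂ)))
    fun u l => Mg_PQ C (X u) (p l).1 (p l).2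
  rw [Fintype.card_fin, ← pow_mul] at h2
  exact h2

lemma PB_PQ (lev : Ig n ⊕ J → ℤ) (C : Matrix (Ig n ⊕ J) (Ig n ⊕ J) ℂ) {s : ℕ} (X : Fin s → Matrix (Ig n ⊕ J) (Ig n ⊕ J) ℚ)
    (p : Fin (s + 1) → (Ig n ⊕ J) × (Ig n ⊕ J)) :
    PQ (W1 C ^ (2 * (s + 1))) ((s + 1) * (1 + Fintype.card (Ig n ⊕ J))) (PB lev C X p) := by
  unfold PB
  have h1 : ∀ (u : Fin (s + 1)) (x : (Ig n ⊕ J) × (Ig n ⊕ J)), PQ (W1 C ^ 2) (1 + Fintype.card (Ig n ⊕ J))
      ((Fin.snoc (fun u x => Mg C (X u) x.1 x.2) (fun x => (Gg n J).det * MvPolynomial.C (La lev x.1 x.2)) :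
        Fin (s + 1) → (Ig n ⊕ J) × (Ig n ⊕ J) → MvPolynomial (Vg n) ℂ) u x) := by
    intro u x
    induction u using Fin.lastCases with
    | last =>
      rw [Fin.snoc_last]
      have h2 := PQ.det (M := Gg n J) fun a b => Gg_PQ (n := n) (J := J) a b
      rw [one_pow, mul_one] at h2
      have h3 : La lev x.1 x.2 ∈ W1 C ^ 2 := by
        have h4 : (1 : ℂ) ∈ W1 C ^ 2 := by
          rw [pow_two, ← mul_one (1 : ℂ)]
          exact Submodule.mul_mem_mul (W1_one C) (W1_one C)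
        unfold La
        rw [Matrix.diagonal_apply]
        split_ifs
        · have h5 : ((lev x.1 : ℤ) : ℂ) = ((lev x.1 : ℤ) : ℚ) • (1 : ℂ) := by
            rw [Algebra.smul_def, mul_one]
            simp
          rw [h5]
          exact Submodule.smul_mem _ _ h4
        · exact Submodule.zero_mem _
      have h4 := h2.mul (PQ.C (σ := Vg n) h3)
      rw [one_mul, Nat.add_zero] at h4
      exact h4.mono le_rfl (Nat.le_add_left _ _)
    | cast u =>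
      rw [Fin.snoc_castSucc]
      exact Mg_PQ C (X u) x.1 x.2
  have h2 := PQ.det (M := (Matrix.of fun u l => (Fin.snoc (fun u x => Mg C (X u) x.1 x.2) (fun x => (Gg n J).det * MvPolynomial.C (La lev x.1 x.2)) :
    Fin (s + 1) → (Ig n ⊕ J) × (Ig n ⊕ J) → MvPolynomial (Vg n) ℂ) u (p l) : Matrix (Fin (s + 1)) (Fin (s + 1)) (MvPolynomial (Vg n) ℂ)))
    fun u l => h1 u (p l)
  rw [Fintype.card_fin, ← pow_mul] at h2
  exact h2

/-- the conjugate -/
noncomputable abbrev cj (C : Matrix (Ig n ⊕ J) (Ig n ⊕ J) ℂ) (v : Vg n → ℂ) (X : Matrix (Ig n ⊕ J) (Ig n ⊕ J) ℚ) :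
    Matrix (Ig n ⊕ J) (Ig n ⊕ J) ℂ := ex J (Gv v) * (C * X.map (algebraMap ℚ ℂ) * C⁻¹) * (ex J (Gv v))⁻¹

lemma PA_eval (C : Matrix (Ig n ⊕ J) (Ig n ⊕ J) ℂ) {s : ℕ} (X : Fin s → Matrix (Ig n ⊕ J) (Ig n ⊕ J) ℚ)
    (p : Fin s → (Ig n ⊕ J) × (Ig n ⊕ J)) {v : Vg n → ℂ} (hv : IsUnit (ex J (Gv v)).det) :
    MvPolynomial.eval v (PA C X p) = (ex J (Gv v)).det ^ s *
      (Matrix.of fun u l => cj C v (X u) (p l).1 (p l).2).det := by
  unfold PA
  rw [RingHom.map_det]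
  have h1 : (MvPolynomial.eval v).mapMatrix (Matrix.of fun u l => Mg C (X u) (p l).1 (p l).2 : Matrix (Fin s) (Fin s) (MvPolynomial (Vg n) ℂ)) =
      (ex J (Gv v)).det • (Matrix.of fun u l => cj C v (X u) (p l).1 (p l).2) := by
    ext u l
    rw [RingHom.mapMatrix_apply, Matrix.map_apply, Matrix.of_apply, Matrix.smul_apply, Matrix.of_apply, Mg_eval C (X u) hv]
    rfl
  rw [h1, Matrix.det_smul, Fintype.card_fin]

lemma PB_eval (lev : Ig n ⊕ J → ℤ) (C : Matrix (Ig n ⊕ J) (Ig n ⊕ J) ℂ) {s : ℕ} (X : Fin s → Matrix (Ig n ⊕ J) (Ig n ⊕ J) ℚ)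
    (p : Fin (s + 1) → (Ig n ⊕ J) × (Ig n ⊕ J)) {v : Vg n → ℂ} (hv : IsUnit (ex J (Gv v)).det) :
    MvPolynomial.eval v (PB lev C X p) = (ex J (Gv v)).det ^ (s + 1) *
      (Matrix.of fun u l => (Fin.snoc (fun u x => cj C v (X u) x.1 x.2) (fun x => La lev x.1 x.2) :
        Fin (s + 1) → (Ig n ⊕ J) × (Ig n ⊕ J) → ℂ) u (p l)).det := by
  unfold PB
  rw [RingHom.map_det]
  have h1 : (MvPolynomial.eval v).mapMatrix (Matrix.of fun u l => (Fin.snoc (fun u x => Mg C (X u) x.1 x.2)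
      (fun x => (Gg n J).det * MvPolynomial.C (La lev x.1 x.2)) :
      Fin (s + 1) → (Ig n ⊕ J) × (Ig n ⊕ J) → MvPolynomial (Vg n) ℂ) u (p l) : Matrix (Fin (s + 1)) (Fin (s + 1)) (MvPolynomial (Vg n) ℂ)) =
      (ex J (Gv v)).det • (Matrix.of fun u l => (Fin.snoc (fun u x => cj C v (X u) x.1 x.2) (fun x => La lev x.1 x.2) :
        Fin (s + 1) → (Ig n ⊕ J) × (Ig n ⊕ J) → ℂ) u (p l)) := by
    ext u l
    rw [RingHom.mapMatrix_apply, Matrix.map_apply, Matrix.of_apply, Matrix.smul_apply, Matrix.of_apply, smul_eq_mul]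
    induction u using Fin.lastCases with
    | last =>
      rw [Fin.snoc_last, Fin.snoc_last, map_mul, Gg_det, MvPolynomial.eval_C]
    | cast u =>
      rw [Fin.snoc_castSucc, Fin.snoc_castSucc, Mg_eval C (X u) hv]
  rw [h1, Matrix.det_smul, Fintype.card_fin]

/-- the degree -/
def dg (n : Fin k → ℕ) (J : Type) [Fintype J] : ℕ := (Fintype.card (Ig n ⊕ J) ^ 2 + 1) * (1 + Fintype.card (Ig n ⊕ J))

/-- the space -/
noncomputable def Vc (C : Matrix (Ig n ⊕ J) (Ig n ⊕ J) ℂ) : Submodule ℚ ℂ := W1 C ^ (2 * (Fintype.card (Ig n ⊕ J) ^ 2 + 1))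

/-- every relation of the first point is a relation of the second point -/
def Rl (δ : ℕ) (V : Submodule ℚ ℂ) (v v' : Vg n → ℂ) : Prop :=
  ∀ F : MvPolynomial (Vg n) ℂ, PQ V δ F → MvPolynomial.eval v F = 0 → MvPolynomial.eval v' F = 0

/-- **Transfer of the vanishing of minors.** -/
theorem le_of {lev : Ig n ⊕ J → ℤ} {C : Matrix (Ig n ⊕ J) (Ig n ⊕ J) ℂ} (hC : IsUnit C.det) {v v' : Vg n → ℂ}
    (hv : IsUnit (Gv v).det) (hv' : IsUnit (Gv v').det) (h : Rl (dg n J) (Vc C) v v') :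
    Le lev (ex J (Gv v) * C) (ex J (Gv v') * C) := by
  have hx : IsUnit (ex J (Gv v)).det := by rw [ex_det]; exact hv
  have hx' : IsUnit (ex J (Gv v')).det := by rw [ex_det]; exact hv'
  have hcj : ∀ (v : Vg n → ℂ) (X : Matrix (Ig n ⊕ J) (Ig n ⊕ J) ℚ), (ex J (Gv v) * C) * X.map (algebraMap ℚ ℂ) * (ex J (Gv v) * C)⁻¹ = cj C v X := by
    intro v X
    rw [Matrix.mul_inv_rev]
    simp only [Matrix.mul_assoc]
  intro s X hs
  refine ⟨fun p h0 => ?_, fun p h0 => ?_⟩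
  · have h1 := h (PA C X fun l => (p l).1) ((PA_PQ C X _).mono (W1_pow_mono C (by omega)) (Nat.mul_le_mul_right _ (by omega))) (by
      rw [PA_eval C X _ hx]
      have h2 : (Matrix.of fun u l => cj C v (X u) ((p l).1).1 ((p l).1).2).det = 0 := by
        refine Eq.trans ?_ h0
        unfold Dt
        congr 1
        ext u l
        show cj C v (X u) (p l).1.1 (p l).1.2 = (ex J (Gv v) * C * (X u).map (algebraMap ℚ ℂ) * (ex J (Gv v) * C)⁻¹) (p l).1.1 (p l).1.2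
        rw [hcj]
      rw [h2, mul_zero])
    rw [PA_eval C X _ hx'] at h1
    refine Eq.trans ?_ ((mul_eq_zero.1 h1).resolve_left (pow_ne_zero _ hx'.ne_zero))
    unfold Dt
    congr 1
    ext u l
    show (ex J (Gv v') * C * (X u).map (algebraMap ℚ ℂ) * (ex J (Gv v') * C)⁻¹) (p l).1.1 (p l).1.2 = cj C v' (X u) (p l).1.1 (p l).1.2
    rw [hcj]
  · have hsn : ∀ v : Vg n → ℂ, (Matrix.of fun (u : Fin (s + 1)) l => (Fin.snoc (fun u => vec lev ((ex J (Gv v) * C) * (X u).map (algebraMap ℚ ℂ) * (ex J (Gv v) * C)⁻¹))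
        (vec lev (La lev)) : Fin (s + 1) → _ → ℂ) u (p l)) =
        (Matrix.of fun u l => (Fin.snoc (fun u x => cj C v (X u) x.1 x.2) (fun x => La lev x.1 x.2) :
          Fin (s + 1) → (Ig n ⊕ J) × (Ig n ⊕ J) → ℂ) u ((p l).1)) := by
      intro v
      ext u l
      rw [Matrix.of_apply, Matrix.of_apply]
      induction u using Fin.lastCases with
      | last =>
        rw [Fin.snoc_last, Fin.snoc_last]
        rfl
      | cast u =>
        rw [Fin.snoc_castSucc, Fin.snoc_castSucc, hcj]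
        rfl
    have h1 := h (PB lev C X fun l => (p l).1) ((PB_PQ lev C X _).mono (W1_pow_mono C (by omega)) (Nat.mul_le_mul_right _ (by omega))) (by
      rw [PB_eval lev C X _ hx]
      have h2 : (Matrix.of fun u l => (Fin.snoc (fun u x => cj C v (X u) x.1 x.2) (fun x => La lev x.1 x.2) :
          Fin (s + 1) → (Ig n ⊕ J) × (Ig n ⊕ J) → ℂ) u ((p l).1)).det = 0 := by
        rw [← hsn]
        exact h0
      rw [h2, mul_zero])
    rw [PB_eval lev C X _ hx'] at h1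
    have h3 := (mul_eq_zero.1 h1).resolve_left (pow_ne_zero _ hx'.ne_zero)
    rw [← hsn] at h3
    exact h3

end Q207.GH
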